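import Mathlib
import Pool.Agent.Lib.MP_af3d17_nt_h98.SeqDefs

/-!
# MP_af3d17_nt: the exponent of the small gaps and Riesz means over almost primes.
Definitions and row statements.  (helper28)
-/

set_option autoImplicit false

namespace Pool.Agent.APX

open Filter Topology Asymptotics MeasureTheory Set Pool.Agent.ZP

noncomputable section

/-- Selberg's function `Λ₂ = Λ log + Λ * Λ`. -/
def sel : ArithmeticFunction ℝ :=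
  ArithmeticFunction.pmul ArithmeticFunction.vonMangoldt ArithmeticFunction.log +
    ArithmeticFunction.vonMangoldt * ArithmeticFunction.vonMangoldt

/-- The Riesz mean `(1 / Γ(κ + 1)) ∑_{n ≤ x} a(n) log(x / n)^κ`. -/
def riesz (κ : ℝ) (a : ℕ → ℝ) (x : ℝ) : ℝ :=
  (∑ n ∈ Finset.Icc 1 ⌊x⌋₊, a n * Real.log (x / n) ^ κ) / Real.Gamma (κ + 1)

/-- `f` is a finite sum of terms `c x^ρ (log x)^j`, up to `O(g)`. -/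
def HasError (f g : ℝ → ℝ) : Prop := ∃ (S : Finset (ℂ × ℕ)) (c : ℂ × ℕ → ℂ),
  (fun x : ℝ => (f x : ℂ) - ∑ p ∈ S, c p * (x : ℂ) ^ p.1 * ((Real.log x : ℝ) : ℂ) ^ p.2)
    =O[atTop] g

/-- The Riesz means of order `κ` of `Λ` and of the `m`-th convolution power of `Λ₂` are finite sums
of terms `c x^ρ (log x)^j`, up to `O(√x (log x)^(m - 1))`. -/
def Good (m : ℕ) (κ : ℝ) : Prop :=
  HasError (riesz κ fun n => ArithmeticFunction.vonMangoldt n)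
    (fun x => √x * Real.log x ^ (m - 1)) ∧
  HasError (riesz κ fun n => (sel ^ m) n) (fun x => √x * Real.log x ^ (m - 1))

/-- The infimum of the good orders (`+∞` if there are none). -/
def kappa (m : ℕ) : EReal := sInf ((fun κ : ℝ => (κ : EReal)) '' {κ : ℝ | 0 < κ ∧ Good m κ})

/-- `ζ'' / ζ`. -/
def FF (s : ℂ) : ℂ := deriv (deriv riemannZeta) s / riemannZeta s

/-- `- ζ' / ζ`. -/
def GG (s : ℂ) : ℂ := - deriv riemannZeta s / riemannZeta s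

/-- The coefficients are nonnegative, the Dirichlet series converges for `Re s > 1`. -/
def DS (a : ℕ → ℝ) : Prop := (∀ n, 0 ≤ a n) ∧
  ∀ s : ℂ, 1 < s.re → LSeriesSummable (fun n => (a n : ℂ)) s

/-! ### Dirichlet series, transforms -/

/-- Row R2 (the case of `Λ` is in Mathlib). -/
def R2_stmt : Prop := ∀ m : ℕ, DS (fun n => (sel ^ m) n) ∧
  ∀ s : ℂ, 1 < s.re → LSeries (fun n => (((sel ^ m) n : ℝ) : ℂ)) s = FF s ^ m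

/-- Row T1: the transform of the Riesz means (Tonelli; Gamma integral). -/
def T1_stmt : Prop := ∀ (κ : ℝ) (a : ℕ → ℝ), 0 < κ → DS a →
  Continuous (riesz κ a) ∧ (∀ x ≤ 1, riesz κ a x = 0) ∧ ∀ s : ℂ, 1 < s.re →
    IntegrableOn (fun x : ℝ => (riesz κ a x : ℂ) * (x : ℂ) ^ (-s - 1)) (Ioi 1) ∧
    ∫ x in Ioi (1 : ℝ), (riesz κ a x : ℂ) * (x : ℂ) ^ (-s - 1) =
      LSeries (fun n => (a n : ℂ)) s * s ^ (-(κ : ℂ) - 1)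

/-- Row T2: the transform of `x^ρ (log x)^j`. -/
def T2_stmt : Prop := ∀ (ρ : ℂ) (j : ℕ) (s : ℂ), ρ.re < s.re →
  IntegrableOn (fun x : ℝ => (x : ℂ) ^ ρ * ((Real.log x : ℝ) : ℂ) ^ j * (x : ℂ) ^ (-s - 1)) (Ioi 1) ∧
  ∫ x in Ioi (1 : ℝ), (x : ℂ) ^ ρ * ((Real.log x : ℝ) : ℂ) ^ j * (x : ℂ) ^ (-s - 1) =
    (j.factorial : ℂ) / (s - ρ) ^ (j + 1)

/-- Row T3: inversion on the line `Re s = 2` (Mathlib: `mellin_inversion`), shift of the line of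
integration to `Re s = 1/2 + δ`, `δ = 1 / log x`. -/
def T3_stmt : Prop := ∀ (e : ℝ → ℂ) (H : ℂ → ℂ) (q : ℕ) (C : ℝ), Continuous e →
  (∀ x ≤ 1, e x = 0) →
  (∀ s : ℂ, s.re = 2 → IntegrableOn (fun x : ℝ => e x * (x : ℂ) ^ (-s - 1)) (Ioi 1) ∧
    ∫ x in Ioi (1 : ℝ), e x * (x : ℂ) ^ (-s - 1) = H s) →
  DifferentiableOn ℂ H {s | 1 / 2 < s.re} →
  (∀ δ : ℝ, 0 < δ → ∃ C₁ η : ℝ, 0 < η ∧ ∀ s : ℂ, 1 / 2 + δ ≤ s.re → s.re ≤ 2 →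
    ‖H s‖ ≤ C₁ * (1 + |s.im|) ^ (-1 - η)) →
  (∀ δ : ℝ, 0 < δ → δ ≤ 1 → ∫ t : ℝ, ‖H (pt (1 / 2 + δ) t)‖ ≤ C * (1 / δ) ^ q) →
  e =O[atTop] fun x => √x * Real.log x ^ q

/-- Row M1: the principal parts in a compact set. (`H = toMeromorphicNFOn` of the difference; `T'` is
chosen such that there is no pole on `|Im s| = T'`, `1/2 ≤ Re s ≤ 2`.) -/
def M1_stmt : Prop := ∀ (f : ℂ → ℂ) (T0 : ℝ), MeromorphicOn f {s | 1 / 4 < s.re} →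
  (∀ s : ℂ, 1 / 2 < s.re → (2 ≤ s.re ∨ T0 ≤ |s.im|) → AnalyticAt ℂ f s) →
  ∃ (T' : ℝ) (S : Finset (ℂ × ℕ)) (c : ℂ × ℕ → ℂ) (H : ℂ → ℂ) (C : ℝ), T0 ≤ T' ∧ T' ≤ T0 + 1 ∧
    (∀ p ∈ S, 1 / 2 ≤ p.1.re ∧ p.1.re < 2 ∧ |p.1.im| < T') ∧
    DifferentiableOn ℂ H {s | 1 / 2 < s.re} ∧
    (∀ s : ℂ, 1 / 2 < s.re → (2 ≤ s.re ∨ T' ≤ |s.im|) →
      H s = f s - ∑ p ∈ S, c p / (s - p.1) ^ (p.2 + 1)) ∧
    ∀ s : ℂ, 1 / 2 < s.re → s.re ≤ 2 → |s.im| ≤ T' → ‖H s‖ ≤ C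

/-! ### From the zeros to the Riesz means -/

/-- Row U1: the transfer. `H = A(s) s^(-κ-1) - principal parts`, modified by `c (1/(s-ρ) - 1/s)` for
the simple poles; `e = riesz - ∑ c x^ρ (log x)^j` resp. `c (x^ρ - 1)` for `j = 0`, for `x ≥ 1`. -/
def U1_stmt : Prop := T1_stmt → T2_stmt → T3_stmt → M1_stmt →
  ∀ (a : ℕ → ℝ) (κ : ℝ) (q : ℕ) (A : ℂ → ℂ) (b C T0 : ℝ), DS a → 0 < κ → b < κ → 1 ≤ T0 →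
  (∀ s : ℂ, 1 < s.re → LSeries (fun n => (a n : ℂ)) s = A s) →
  MeromorphicOn A {s | 1 / 4 < s.re} →
  (∀ s : ℂ, 1 / 2 < s.re → (2 ≤ s.re ∨ T0 ≤ |s.im|) → AnalyticAt ℂ A s) →
  (∀ s : ℂ, ‖A ((starRingEnd ℂ) s)‖ = ‖A s‖) →
  (∀ s : ℂ, 1 / 2 < s.re → s.re ≤ 2 → T0 ≤ s.im →
    ‖A s‖ ≤ (C * (Real.log s.im) ^ 2 / (s.re - 1 / 2) ^ 2) ^ (q + 1)) →
  (∀ t δ : ℝ, T0 ≤ t → 0 < δ → δ ≤ 1 →
    ∫ u in t..(t + 1), ‖A (pt (1 / 2 + δ) u)‖ ≤ C * t ^ b * (1 / δ) ^ q) →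
  HasError (riesz κ a) (fun x => √x * Real.log x ^ q)

/-- Row L1: trivial bounds if the zeros are on the line. -/
def L1_stmt : Prop := ∀ T0 : ℝ, (∀ ρ : ℂ, IsUpperZero ρ → T0 < ρ.im → ρ.re = 1 / 2) →
  ∃ C T1 : ℝ, 1 ≤ C ∧ 100 ≤ T1 ∧ T0 + 20 ≤ T1 ∧ ∀ s : ℂ, 1 / 2 < s.re → s.re ≤ 2 → T1 ≤ s.im →
    riemannZeta s ≠ 0 ∧ ‖GG s‖ ≤ C * Real.log s.im / (s.re - 1 / 2) ∧
    ‖FF s‖ ≤ C * (Real.log s.im) ^ 2 / (s.re - 1 / 2) ^ 2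

/-- The distance of two zeros of height `t` or more is at least `t ^ (-a)`. -/
def Sep (T0 a : ℝ) : Prop := ∀ ρ ρ' : ℂ, IsUpperZero ρ → IsUpperZero ρ' → T0 < ρ.im → T0 < ρ'.im →
  ρ ≠ ρ' → ρ.im ^ (-a) ≤ ‖ρ - ρ'‖

/-- Row C1: the mean value of `|ζ''/ζ|^m`. With `ζ'/ζ = ∑ 1/(s - z i) + B`:
`|ζ''/ζ| ≤ C (log t)² t^a (1 + ∑ 1 / |s - z i|)`. -/
def C1_stmt : Prop := ∀ (T0 a b : ℝ) (m : ℕ), RH T0 → 0 < a → Sep T0 a → 2 ≤ m → m * a < b →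
  ∃ C T1 : ℝ, 1 ≤ C ∧ 100 ≤ T1 ∧ ∀ t δ : ℝ, T1 ≤ t → 0 < δ → δ ≤ 1 →
    ∫ u in t..(t + 1), ‖FF (pt (1 / 2 + δ) u) ^ m‖ ≤ C * t ^ b * (1 / δ) ^ (m - 1)

/-- Row U2: from the gaps to the Riesz means. (`A = GG` and `A = FF ^ m`.) -/
def U2' : Prop := ∀ (T0 a κ : ℝ) (m : ℕ), RH T0 → 0 < a → Sep T0 a → 2 ≤ m → m * a < κ → Good m κ

def U2_stmt : Prop := T1_stmt → T2_stmt → T3_stmt → M1_stmt → U1_stmt → R2_stmt → L1_stmt →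
  C1_stmt → U2'

/-! ### From the Riesz means to the zeros -/

/-- Row D1: the transform of the error term. -/
def D1' : Prop := ∀ (κ : ℝ) (a : ℕ → ℝ) (q : ℕ), 0 < κ → DS a →
  HasError (riesz κ a) (fun x => √x * Real.log x ^ q) →
  ∃ (C T1 : ℝ) (h : ℂ → ℂ), 1 ≤ C ∧ 1 ≤ T1 ∧
    DifferentiableOn ℂ h {s | 1 / 2 < s.re ∧ T1 < s.im} ∧
    (∀ s : ℂ, 1 < s.re → T1 < s.im → h s = LSeries (fun n => (a n : ℂ)) s * s ^ (-(κ : ℂ) - 1)) ∧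
    ∀ s : ℂ, 1 / 2 < s.re → s.re ≤ 2 → T1 < s.im → ‖h s‖ ≤ C * (1 / (s.re - 1 / 2)) ^ (q + 1)
def D1_stmt : Prop := T1_stmt → T2_stmt → D1'

/-- Row D2: the zeros are on the line from some height on. -/
def D2' : Prop := ∀ (κ : ℝ) (q : ℕ), 0 < κ →
  HasError (riesz κ fun n => ArithmeticFunction.vonMangoldt n) (fun x => √x * Real.log x ^ q) →
  ∃ T0 : ℝ, ∀ ρ : ℂ, IsUpperZero ρ → T0 < ρ.im → ρ.re = 1 / 2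
def D2_stmt : Prop := D1' → D2'

/-- Row D3: the bound for `ζ''/ζ`. -/
def D3' : Prop := ∀ (m : ℕ) (κ : ℝ), 1 ≤ m → 0 < κ → Good m κ →
  ∃ C T1 : ℝ, 1 ≤ C ∧ 1 ≤ T1 ∧ ∀ s : ℂ, 1 / 2 < s.re → s.re ≤ 2 → T1 < s.im →
    ‖FF s‖ ≤ C * s.im ^ ((κ + 1) / m) / (s.re - 1 / 2)
def D3_stmt : Prop := D1' → D2' → R2_stmt → D3'

/-- Row D4: the lower bound for `ζ''/ζ` near a small gap or a multiple zero (`ρ = ρ'`). -/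
def D4_stmt : Prop := ∀ T0 : ℝ, (∀ ρ : ℂ, IsUpperZero ρ → T0 < ρ.im → ρ.re = 1 / 2) →
  ∃ c T1 : ℝ, 0 < c ∧ c ≤ 1 ∧ 100 ≤ T1 ∧ ∀ (ρ ρ' : ℂ) (δ : ℝ), IsUpperZero ρ → IsUpperZero ρ' →
    T1 ≤ ρ.im → (ρ = ρ' → deriv riemannZeta ρ = 0) → ‖ρ - ρ'‖ ≤ δ → 0 < δ →
    δ ≤ c / Real.log ρ.im → 1 / (2 * δ ^ 2) ≤ ‖FF (ρ + δ)‖

/-- Row D5: from the Riesz means to the gaps. -/
def D5' : Prop := ∀ (m : ℕ) (κ : ℝ), 1 ≤ m → 0 < κ → Good m κ →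
  ∃ T0 c : ℝ, 0 < c ∧ RH T0 ∧ ∀ ρ ρ' : ℂ, IsUpperZero ρ → IsUpperZero ρ' → T0 < ρ.im →
    T0 < ρ'.im → ρ ≠ ρ' → c * ρ.im ^ (-((κ + 1) / m)) ≤ ‖ρ - ρ'‖
def D5_stmt : Prop := D2' → D3' → D4_stmt → D5'

/-! ### Exponents -/

/-- Row E1: the sequence and the zeros (cf. `Lib/MP_af3d17_nt_h98/Seq.lean`: `rh_of_alpha`,
`gap_lower`, `gap_upper`, `exists_gap_zero`). -/
def E1_stmt : Prop := ∀ γ : ℕ → ℝ, IsOrdinateSeq γ →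
  (∀ T0 b c : ℝ, 0 < c → 0 ≤ b → RH T0 → (∀ ρ ρ' : ℂ, IsUpperZero ρ → IsUpperZero ρ' → T0 < ρ.im →
    T0 < ρ'.im → ρ ≠ ρ' → c * ρ.im ^ (-b) ≤ ‖ρ - ρ'‖) → ((-b : ℝ) : EReal) ≤ alpha γ ∧
      ∀ᶠ n : ℕ in atTop, c * γ n ^ (-b) ≤ γ (n + 1) - γ n) ∧
  (∀ a : ℝ, 0 < a → (∀ᶠ n : ℕ in atTop, γ n ^ (-a) ≤ γ (n + 1) - γ n) → ∃ T0 : ℝ, RH T0 ∧ Sep T0 a) ∧
  (∀ a : ℝ, 0 < a → ((-a : ℝ) : EReal) < alpha γ → ∀ᶠ n : ℕ in atTop,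
    γ n ^ (-a) ≤ γ (n + 1) - γ n)

/-- Row E2: the inequalities and the limit. -/
def E2_stmt : Prop := U2' → D5' → E1_stmt → ∀ γ : ℕ → ℝ, IsOrdinateSeq γ →
  (∀ m : ℕ, 2 ≤ m → kappa m ≤ -(m * alpha γ) ∧ -(m * alpha γ) ≤ kappa m + 1) ∧
  Tendsto (fun m : ℕ => kappa m / m) atTop (𝓝 (-alpha γ))

end

end Pool.Agent.APX
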