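import Mathlib
import Pool.Agent.Lib.APX.Defs
import Pool.Agent.Lib.MP_af3d17_nt_h98.Near

/-!
Local form of `ζ'/ζ` and `ζ''/ζ` at height `t` (for the rows L1, C1, D4).
-/

set_option autoImplicit false

namespace Pool.Agent.APX

open Filter Topology Metric Pool.Agent.ZP

namespace Loc

/-- `ζ'/ζ` and `ζ''/ζ` from a local factorisation -/
lemma fact2 {k : ℕ} {z : Fin k → ℂ} {g : ℂ → ℂ} {c : ℂ}
    (hg : AnalyticOnNhd ℂ g (closedBall c (98 / 10)))
    (hf : ∀ s ∈ closedBall c (98 / 10), riemannZeta s = (∏ i, (s - z i)) * g s)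
    (hg0 : ∀ s ∈ closedBall c (97 / 10), g s ≠ 0)
    {s : ℂ} (hs : s ∈ ball c (97 / 10)) (hz : riemannZeta s ≠ 0) (hc : AnalyticAt ℂ riemannZeta s) :
    GG s = -(∑ i, 1 / (s - z i) + logDeriv g s) ∧
    FF s = (∑ i, 1 / (s - z i) + logDeriv g s) ^ 2 - ∑ i, 1 / (s - z i) ^ 2
      + deriv (logDeriv g) s := by
  have hs7 : s ∈ closedBall c (97 / 10) := ball_subset_closedBall hs
  have hs8 : s ∈ closedBall c (98 / 10) := closedBall_subset_closedBall (by norm_num) hs7
  have h1 := A.logDeriv_fact hg hf hs7 hz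
  have hne : ∀ i, s - z i ≠ 0 := by
    have h2 : (∏ i, (s - z i)) * g s ≠ 0 := by rw [← hf s hs8]; exact hz
    have h3 : ∏ i, (s - z i) ≠ 0 := left_ne_zero_of_mul h2
    intro i
    exact Finset.prod_ne_zero_iff.1 h3 i (Finset.mem_univ i)
  constructor
  · rw [← h1, logDeriv_apply]
    unfold GG
    ring
  · -- the identity for `ζ'` near `s`
    have hnear : ∀ᶠ w in 𝓝 s, riemannZeta w ≠ 0 := hc.continuousAt.eventually_ne hz
    have hev : deriv riemannZeta =ᶠ[𝓝 s]
        fun w => riemannZeta w * (∑ i, 1 / (w - z i) + logDeriv g w) := by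
      filter_upwards [isOpen_ball.mem_nhds hs, hnear] with w hw hw0
      have h4 := A.logDeriv_fact hg hf (ball_subset_closedBall hw) hw0
      rw [← h4, logDeriv_apply]
      field_simp
    have hdg : DifferentiableAt ℂ (logDeriv g) s :=
      ((hg s hs8).deriv.div (hg s hs8) (hg0 s hs7)).differentiableAt
    have hdi : ∀ i, HasDerivAt (fun w : ℂ => 1 / (w - z i)) (-(1 / (s - z i) ^ 2)) s := by
      intro i
      have h5 : HasDerivAt (fun w : ℂ => (w - z i)⁻¹) (-1 / (s - z i) ^ 2) s :=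
        ((hasDerivAt_id s).sub_const (z i)).inv (hne i)
      have e5 : (fun w : ℂ => 1 / (w - z i)) = fun w => (w - z i)⁻¹ := by
        funext w
        rw [one_div]
      rw [e5, show -(1 / (s - z i) ^ 2) = -1 / (s - z i) ^ 2 by ring]
      exact h5
    have hds : HasDerivAt (fun w : ℂ => ∑ i, 1 / (w - z i)) (∑ i, -(1 / (s - z i) ^ 2)) s :=
      HasDerivAt.fun_sum (u := (Finset.univ : Finset (Fin k))) fun i _ => hdi i
    have hΦ : HasDerivAt (fun w => ∑ i, 1 / (w - z i) + logDeriv g w)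
        ((∑ i, -(1 / (s - z i) ^ 2)) + deriv (logDeriv g) s) s := hds.add hdg.hasDerivAt
    have hd := (hc.differentiableAt.hasDerivAt.mul hΦ)
    have e1 : deriv (deriv riemannZeta) s = deriv riemannZeta s *
        (∑ i, 1 / (s - z i) + logDeriv g s) +
        riemannZeta s * ((∑ i, -(1 / (s - z i) ^ 2)) + deriv (logDeriv g) s) := by
      rw [hev.deriv_eq]
      exact hd.deriv
    have e2 : deriv riemannZeta s = riemannZeta s * (∑ i, 1 / (s - z i) + logDeriv g s) :=
      hev.eq_of_nhds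
    unfold FF
    rw [e1, e2, Finset.sum_neg_distrib]
    field_simp
    ring

/-- a zero of the derivative belongs to two indices -/
lemma two_idx {k : ℕ} {z : Fin k → ℂ} {g : ℂ → ℂ} {c : ℂ}
    (hg : AnalyticOnNhd ℂ g (closedBall c (98 / 10)))
    (hf : ∀ s ∈ closedBall c (98 / 10), riemannZeta s = (∏ i, (s - z i)) * g s)
    (hg0 : ∀ s ∈ closedBall c (97 / 10), g s ≠ 0)
    {ρ : ℂ} (hρ : ρ ∈ closedBall c (97 / 10)) (i : Fin k) (hi : z i = ρ) :
    deriv riemannZeta ρ = 0 ↔ ∃ j, j ≠ i ∧ z j = ρ := by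
  have hρ8 : ρ ∈ closedBall c (98 / 10) := closedBall_subset_closedBall (by norm_num) hρ
  have hρb : ρ ∈ ball c (98 / 10) := by
    rw [mem_ball]; rw [mem_closedBall] at hρ; linarith
  have hev : riemannZeta =ᶠ[𝓝 ρ]
      fun w => (w - z i) * ((∏ j ∈ Finset.univ.erase i, (w - z j)) * g w) := by
    filter_upwards [isOpen_ball.mem_nhds hρb] with w hw
    rw [hf w (ball_subset_closedBall hw), ← Finset.mul_prod_erase Finset.univ _ (Finset.mem_univ i)]
    ring
  have hd1 : DifferentiableAt ℂ (fun w => (∏ j ∈ Finset.univ.erase i, (w - z j)) * g w) ρ :=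
    DifferentiableAt.mul (by fun_prop) (hg ρ hρ8).differentiableAt
  have hd : deriv riemannZeta ρ = (∏ j ∈ Finset.univ.erase i, (ρ - z j)) * g ρ := by
    rw [hev.deriv_eq]
    have h1 : HasDerivAt (fun w : ℂ => w - z i) 1 ρ := (hasDerivAt_id ρ).sub_const (z i)
    have h2 := h1.mul hd1.hasDerivAt
    have h3 := h2.deriv
    rw [hi] at h3
    rw [sub_self, zero_mul, add_zero, one_mul] at h3
    rw [← h3, hi]
    rfl
  rw [hd, mul_eq_zero, or_iff_left (hg0 ρ hρ), Finset.prod_eq_zero_iff]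
  constructor
  · rintro ⟨j, hj, h0⟩
    exact ⟨j, Finset.ne_of_mem_erase hj, (sub_eq_zero.1 h0).symm⟩
  · rintro ⟨j, hj, h0⟩
    exact ⟨j, Finset.mem_erase.2 ⟨hj, Finset.mem_univ j⟩, by rw [h0, sub_self]⟩

/-- the local form at height `t` -/
theorem loc : ∃ C T1 : ℝ, 1 ≤ C ∧ 100 ≤ T1 ∧ ∀ t ≥ T1, ∃ (k : ℕ) (z : Fin k → ℂ) (B B' : ℂ → ℂ),
    (k : ℝ) ≤ C * Real.log t ∧
    (∀ i, t - 10 ≤ (z i).im ∧ (z i).im ≤ t + 10 ∧ riemannZeta (z i) = 0 ∧ IsUpperZero (z i)) ∧
    (∀ ρ ∈ closedBall (pt 10 t) (97 / 10), riemannZeta ρ = 0 → ∃ i, z i = ρ) ∧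
    (∀ i, deriv riemannZeta (z i) = 0 ↔ ∃ j, j ≠ i ∧ z j = z i) ∧
    ∀ s : ℂ, (s.re - 10) ^ 2 + (s.im - t) ^ 2 ≤ (956 / 100) ^ 2 → riemannZeta s ≠ 0 →
      GG s = -(∑ i, 1 / (s - z i) + B s) ∧
      FF s = (∑ i, 1 / (s - z i) + B s) ^ 2 - ∑ i, 1 / (s - z i) ^ 2 + B' s ∧
      ‖B s‖ ≤ C * Real.log t ∧ ‖B' s‖ ≤ C * Real.log t := by
  obtain ⟨C, T1, hC, hT1, h⟩ := local_zeta
  refine ⟨25 * C + 1, T1, by linarith, hT1, fun t ht => ?_⟩
  obtain ⟨k, z, g, hk, hz, hg, hf, hg0, hB⟩ := h t ht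
  have ht0 : 100 ≤ t := hT1.trans ht
  have hlog : 1 ≤ Real.log t := by
    rw [Real.le_log_iff_exp_le (by linarith)]
    have := Real.exp_one_lt_d9
    linarith
  have hlC : 0 ≤ C * Real.log t := by positivity
  refine ⟨k, z, logDeriv g, deriv (logDeriv g), by nlinarith, fun i => ?_, fun ρ hρ h0 => ?_,
    fun i => ?_, fun s hs hs0 => ?_⟩
  · obtain ⟨h1, h2⟩ := hz i
    obtain ⟨h3, h4, h5, h6⟩ := mem_disc h1
    refine ⟨by linarith, by linarith, h2, h2, by linarith, ?_, by linarith⟩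
    by_contra hcon
    push Not at hcon
    exact riemannZeta_ne_zero_of_one_le_re hcon h2
  · have h1 := hf ρ (closedBall_subset_closedBall (by norm_num) hρ)
    rw [h0] at h1
    have h2 := (mul_eq_zero.1 h1.symm).resolve_right (hg0 ρ hρ)
    obtain ⟨i, -, hi⟩ := Finset.prod_eq_zero_iff.1 h2
    exact ⟨i, (sub_eq_zero.1 hi).symm⟩
  · exact two_idx hg hf hg0 (hz i).1 i rfl
  · have hmem : s ∈ closedBall (pt 10 t) (956 / 100) := by
      have : s = pt s.re s.im := rfl
      rw [this]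
      exact pt_mem_disc (by norm_num) hs
    have hs7 : s ∈ ball (pt 10 t) (97 / 10) := by
      rw [mem_ball]; rw [mem_closedBall] at hmem; linarith
    obtain ⟨h1, h2, h3, h4⟩ := mem_disc hmem
    have hsub : ∀ w ∈ closedBall s (4 / 100), w ∈ closedBall (pt 10 t) (96 / 10) := by
      intro w hw
      rw [mem_closedBall] at hw hmem ⊢
      linarith [dist_triangle w s (pt 10 t)]
    obtain ⟨e1, e2⟩ := fact2 hg hf hg0 hs7 hs0 (zeta_analyticAt (by linarith))
    refine ⟨e1, e2, ?_, ?_⟩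
    · refine (hB s (hsub s (mem_closedBall_self (by norm_num)))).trans ?_
      nlinarith
    · have hd : DiffContOnCl ℂ (logDeriv g) (ball s (4 / 100)) := by
        refine DifferentiableOn.diffContOnCl ?_
        rw [closure_ball _ (by norm_num)]
        intro w hw
        have h6 := hsub w hw
        have h7 : w ∈ closedBall (pt 10 t) (97 / 10) := closedBall_subset_closedBall (by norm_num) h6
        have h8 : w ∈ closedBall (pt 10 t) (98 / 10) := closedBall_subset_closedBall (by norm_num) h6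
        exact ((hg w h8).deriv.div (hg w h8) (hg0 w h7)).differentiableAt.differentiableWithinAt
      have h5 := Complex.norm_deriv_le_of_forall_mem_sphere_norm_le (C := C * Real.log t)
        (show (0 : ℝ) < 4 / 100 by norm_num) hd fun w hw => hB w (hsub w (sphere_subset_closedBall hw))
      refine h5.trans ?_
      rw [div_le_iff₀ (by norm_num)]
      nlinarith

end Loc

end Pool.Agent.APX
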