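import Mathlib
import Pool.Agent.Lib.APX.Loc

/-!
Row C1: the mean value of `|ζ''/ζ|^m`.
-/

set_option autoImplicit false

namespace Pool.Agent.APX

open Filter Topology MeasureTheory Pool.Agent.ZP

namespace C1

lemma inv_int {δ : ℝ} (hδ : 0 < δ) (y : ℝ) : Integrable fun u : ℝ => (δ ^ 2 + (u - y) ^ 2)⁻¹ := by
  have h1 : Integrable fun u : ℝ => (1 + (1 / δ * (u - y)) ^ 2)⁻¹ :=
    (integrable_inv_one_add_sq.comp_mul_left' (one_div_pos.2 hδ).ne').comp_sub_right y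
  have h2 := h1.const_mul (δ ^ 2)⁻¹
  refine h2.congr (Eventually.of_forall fun u => ?_)
  simp only
  rw [← mul_inv]
  congr 1
  field_simp

lemma inv_val {δ : ℝ} (hδ : 0 < δ) (y : ℝ) : ∫ u : ℝ, (δ ^ 2 + (u - y) ^ 2)⁻¹ = Real.pi / δ := by
  have e1 : ∀ u : ℝ, (δ ^ 2 + (u - y) ^ 2)⁻¹ = (δ ^ 2)⁻¹ * (1 + (1 / δ * (u - y)) ^ 2)⁻¹ := by
    intro u
    rw [← mul_inv]
    congr 1
    field_simp
  simp_rw [e1]
  rw [integral_const_mul,
    integral_sub_right_eq_self (μ := volume) (fun z : ℝ => (1 + (1 / δ * z) ^ 2)⁻¹) y,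
    Measure.integral_comp_mul_left (fun z : ℝ => (1 + z ^ 2)⁻¹) (1 / δ),
    integral_univ_inv_one_add_sq, abs_of_pos (inv_pos.2 (one_div_pos.2 hδ)), smul_eq_mul]
  field_simp

lemma inv_le {δ : ℝ} (hδ : 0 < δ) (y t : ℝ) :
    ∫ u in t..(t + 1), (δ ^ 2 + (u - y) ^ 2)⁻¹ ≤ Real.pi / δ := by
  rw [intervalIntegral.integral_of_le (by linarith), ← inv_val hδ y]
  exact setIntegral_le_integral (inv_int hδ y) (Eventually.of_forall fun u => by
    simp only [Pi.zero_apply]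
    positivity)

/-- sums of products over different indices -/
lemma off_diag {k : ℕ} (w : Fin k → ℂ) (G : ℝ) (hG : 0 ≤ G)
    (h : ∀ i j, j ≠ i → ‖w i‖ * ‖w j‖ ≤ G * (‖w i‖ + ‖w j‖)) :
    ‖(∑ i, w i) ^ 2 - ∑ i, w i ^ 2‖ ≤ 2 * k * G * ∑ i, ‖w i‖ := by
  have e1 : (∑ i, w i) ^ 2 - ∑ i, w i ^ 2 = ∑ i, ∑ j ∈ Finset.univ.erase i, w i * w j := by
    rw [sq, Finset.sum_mul_sum, ← Finset.sum_sub_distrib]
    refine Finset.sum_congr rfl fun i _ => ?_
    rw [← Finset.add_sum_erase Finset.univ _ (Finset.mem_univ i)]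
    ring
  rw [e1]
  have hG2 : ∀ i j, 0 ≤ G * (‖w i‖ + ‖w j‖) := fun i j => by positivity
  calc ‖∑ i, ∑ j ∈ Finset.univ.erase i, w i * w j‖
      ≤ ∑ i, ∑ j ∈ Finset.univ.erase i, ‖w i * w j‖ :=
        (norm_sum_le _ _).trans (Finset.sum_le_sum fun i _ => norm_sum_le _ _)
    _ ≤ ∑ i, ∑ j, G * (‖w i‖ + ‖w j‖) := by
        refine Finset.sum_le_sum fun i _ => ?_
        calc ∑ j ∈ Finset.univ.erase i, ‖w i * w j‖
            ≤ ∑ j ∈ Finset.univ.erase i, G * (‖w i‖ + ‖w j‖) :=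
              Finset.sum_le_sum fun j hj => by
                rw [norm_mul]
                exact h i j (Finset.ne_of_mem_erase hj)
          _ ≤ ∑ j, G * (‖w i‖ + ‖w j‖) :=
              Finset.sum_le_sum_of_subset_of_nonneg (Finset.erase_subset _ _)
                fun j _ _ => hG2 i j
    _ = 2 * k * G * ∑ i, ‖w i‖ := by
        simp_rw [← Finset.mul_sum, Finset.sum_add_distrib]
        simp only [Finset.sum_const, Finset.card_univ, Fintype.card_fin, nsmul_eq_mul]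
        rw [← Finset.mul_sum]
        ring

end C1

open C1 in
theorem c1 : C1_stmt := by
  intro T0 a b m hRH ha hSep hm hab
  obtain ⟨C, T1, hC, hT1, hloc⟩ := Loc.loc
  set ε : ℝ := (b - m * a) / (3 * m) with hε
  have hm0 : (0 : ℝ) < m := by
    have : 0 < m := by omega
    exact_mod_cast this
  have hε0 : 0 < ε := by rw [hε]; exact div_pos (by linarith) (by linarith)
  set C3 : ℝ := 5 * 2 ^ (m - 1) * (4 * C ^ 3 * 2 ^ a) ^ m * (1 / ε) ^ (3 * m) with hC3
  have hC30 : 0 ≤ C3 := by positivity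
  refine ⟨C3 + 1, max T1 (T0 + 20), by linarith, hT1.trans (le_max_left _ _),
    fun t δ ht hδ0 hδ1 => ?_⟩
  have ht1 : T1 ≤ t := (le_max_left _ _).trans ht
  have ht2 : T0 + 20 ≤ t := (le_max_right _ _).trans ht
  have ht0 : 100 ≤ t := hT1.trans ht1
  have htp : 0 < t := by linarith
  obtain ⟨k, z, B, B', hk, hz, -, hdz, hF⟩ := hloc t ht1
  set L : ℝ := Real.log t with hL
  have hL1 : 1 ≤ L := by
    rw [hL, Real.le_log_iff_exp_le (by linarith)]
    have := Real.exp_one_lt_d9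
    linarith
  have hCL : 1 ≤ C * L := by nlinarith
  have hz2 : ∀ i, (z i).re = 1 / 2 := fun i => (hRH (z i) (hz i).2.2.2 (by linarith [(hz i).1])).1
  have hne : ∀ i j, j ≠ i → z j ≠ z i := fun i j hji h =>
    (hRH (z i) (hz i).2.2.2 (by linarith [(hz i).1])).2 ((hdz i).2 ⟨j, hji, h⟩)
  set G : ℝ := (2 * t) ^ a with hG
  have hG1 : 1 ≤ G := Real.one_le_rpow (by linarith) ha.le
  have hgap : ∀ i j, j ≠ i → 1 ≤ G * ‖z i - z j‖ := by
    intro i j hji
    have h1 := hSep (z i) (z j) (hz i).2.2.2 (hz j).2.2.2 (by linarith [(hz i).1])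
      (by linarith [(hz j).1]) (fun h => hne i j hji h.symm)
    have h2 : (2 * t) ^ (-a) ≤ (z i).im ^ (-a) :=
      Real.rpow_le_rpow_of_nonpos (by linarith [(hz i).1]) (by linarith [(hz i).2.1]) (by linarith)
    have h3 : G * (2 * t) ^ (-a) = 1 := by
      rw [hG, ← Real.rpow_add (by linarith), add_neg_cancel, Real.rpow_zero]
    calc (1 : ℝ) = G * (2 * t) ^ (-a) := h3.symm
      _ ≤ G * ‖z i - z j‖ := mul_le_mul_of_nonneg_left (h2.trans h1) (by linarith)
  set D : ℝ := 4 * (C * L) ^ 2 * G with hD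
  have hD0 : 0 ≤ D := by positivity
  set H : ℝ → ℝ := fun u => D ^ m * (2 ^ (m - 1) * (1 + (k : ℝ) ^ (m - 1) *
    ∑ i, (1 / δ) ^ (m - 2) * (δ ^ 2 + (u - (z i).im) ^ 2)⁻¹)) with hH
  -- the pointwise bound
  have hpt : ∀ u : ℝ, t ≤ u → u ≤ t + 1 → ‖FF (pt (1 / 2 + δ) u) ^ m‖ ≤ H u := by
    intro u hu1 hu2
    set s : ℂ := pt (1 / 2 + δ) u with hs
    have hsre : s.re = 1 / 2 + δ := rfl
    have hsim : s.im = u := rfl
    have hs0 : riemannZeta s ≠ 0 := by
      intro h0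
      have hlt : s.re < 1 := by
        by_contra hcon
        push Not at hcon
        exact riemannZeta_ne_zero_of_one_le_re hcon h0
      have := (hRH s ⟨h0, by rw [hsre]; linarith, hlt, by rw [hsim]; linarith⟩
        (by rw [hsim]; linarith)).1
      rw [hsre] at this
      linarith
    obtain ⟨-, e2, b1, b2⟩ := hF s (by rw [hsre, hsim]; nlinarith) hs0
    have hsub : ∀ i, (s - z i).re = δ := fun i => by rw [Complex.sub_re, hsre, hz2 i]; ring
    have hns : ∀ i, δ ≤ ‖s - z i‖ := by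
      intro i
      have h1 := Complex.abs_re_le_norm (s - z i)
      rw [hsub i, abs_of_pos hδ0] at h1
      exact h1
    have hw : ∀ i, ‖(1 : ℂ) / (s - z i)‖ = 1 / ‖s - z i‖ := fun i => by rw [norm_div, norm_one]
    have hwδ : ∀ i, ‖(1 : ℂ) / (s - z i)‖ ≤ 1 / δ := by
      intro i
      rw [hw i]
      exact one_div_le_one_div_of_le hδ0 (hns i)
    have hsq : ∀ i, ‖(1 : ℂ) / (s - z i)‖ ^ 2 = (δ ^ 2 + (u - (z i).im) ^ 2)⁻¹ := by
      intro i
      rw [hw i, div_pow, one_pow, ← Complex.normSq_eq_norm_sq, Complex.normSq_apply, hsub i,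
        Complex.sub_im, hsim, one_div]
      congr 1
      ring
    have hod := off_diag (fun i => (1 : ℂ) / (s - z i)) G (by linarith) (by
      intro i j hji
      rw [hw i, hw j]
      have hp1 : 0 < ‖s - z i‖ := hδ0.trans_le (hns i)
      have hp2 : 0 < ‖s - z j‖ := hδ0.trans_le (hns j)
      have h1 := hgap i j hji
      have h2 : ‖z i - z j‖ ≤ ‖s - z i‖ + ‖s - z j‖ := by
        calc ‖z i - z j‖ = ‖(s - z j) - (s - z i)‖ := by congr 1; ring
          _ ≤ ‖s - z j‖ + ‖s - z i‖ := norm_sub_le _ _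
          _ = _ := add_comm _ _
      have h3 : 1 ≤ G * (‖s - z i‖ + ‖s - z j‖) :=
        h1.trans (mul_le_mul_of_nonneg_left h2 (by linarith))
      have h4 : G * (1 / ‖s - z i‖ + 1 / ‖s - z j‖) =
          G * (‖s - z i‖ + ‖s - z j‖) * (1 / ‖s - z i‖ * (1 / ‖s - z j‖)) := by
        field_simp
        ring
      rw [h4]
      exact le_mul_of_one_le_left (by positivity) h3)
    have e3 : ∀ i, ((1 : ℂ) / (s - z i)) ^ 2 = 1 / (s - z i) ^ 2 := fun i => by
      rw [div_pow, one_pow]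
    rw [Finset.sum_congr rfl fun i _ => e3 i] at hod
    set X : ℝ := ∑ i, ‖(1 : ℂ) / (s - z i)‖ with hX
    have hX0 : 0 ≤ X := Finset.sum_nonneg fun i _ => norm_nonneg _
    have hWX : ‖∑ i, (1 : ℂ) / (s - z i)‖ ≤ X := norm_sum_le _ _
    have hFF : ‖FF s‖ ≤ D * (1 + X) := by
      rw [e2]
      have e4 : (∑ i, (1 : ℂ) / (s - z i) + B s) ^ 2 - ∑ i, (1 : ℂ) / (s - z i) ^ 2 + B' s =
          ((∑ i, (1 : ℂ) / (s - z i)) ^ 2 - ∑ i, (1 : ℂ) / (s - z i) ^ 2) +
            (2 * (∑ i, (1 : ℂ) / (s - z i)) * B s + B s ^ 2 + B' s) := by ring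
      rw [e4]
      have h5 : ‖2 * (∑ i, (1 : ℂ) / (s - z i)) * B s‖ ≤ 2 * X * (C * L) := by
        rw [norm_mul, norm_mul]
        have : ‖(2 : ℂ)‖ = 2 := by simp
        rw [this]
        exact mul_le_mul (by linarith) b1 (norm_nonneg _) (by positivity)
      have h6 : ‖B s ^ 2‖ ≤ (C * L) ^ 2 := by
        rw [norm_pow]
        exact pow_le_pow_left₀ (norm_nonneg _) b1 2
      have h7 : ‖((∑ i, (1 : ℂ) / (s - z i)) ^ 2 - ∑ i, (1 : ℂ) / (s - z i) ^ 2) +
            (2 * (∑ i, (1 : ℂ) / (s - z i)) * B s + B s ^ 2 + B' s)‖ ≤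
          2 * k * G * X + (2 * X * (C * L) + (C * L) ^ 2 + C * L) := by
        refine (norm_add_le _ _).trans (add_le_add hod ?_)
        exact (norm_add_le _ _).trans (add_le_add ((norm_add_le _ _).trans (add_le_add h5 h6)) b2)
      refine h7.trans ?_
      have h8 : 2 * (k : ℝ) * G * X ≤ 2 * (C * L) * G * X := by gcongr
      have h9 : 2 * (C * L) * G * X ≤ 2 * (C * L) ^ 2 * G * X := by
        have : C * L ≤ (C * L) ^ 2 := by nlinarith
        gcongr
      have h10 : 2 * X * (C * L) ≤ 2 * (C * L) ^ 2 * G * X := by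
        calc 2 * X * (C * L) ≤ 2 * X * ((C * L) ^ 2 * G) := by
              refine mul_le_mul_of_nonneg_left ?_ (by positivity)
              nlinarith
          _ = _ := by ring
      have h11 : (C * L) ^ 2 + C * L ≤ 4 * (C * L) ^ 2 * G := by nlinarith
      calc 2 * (k : ℝ) * G * X + (2 * X * (C * L) + (C * L) ^ 2 + C * L)
          ≤ 4 * (C * L) ^ 2 * G + 4 * (C * L) ^ 2 * G * X := by linarith
        _ = D * (1 + X) := by rw [hD]; ring
    rw [norm_pow]
    have hXm : X ^ m ≤ (k : ℝ) ^ (m - 1) * ∑ i, (1 / δ) ^ (m - 2) *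
        (δ ^ 2 + (u - (z i).im) ^ 2)⁻¹ := by
      have h12 := pow_sum_le_card_mul_sum_pow (s := (Finset.univ : Finset (Fin k)))
        (f := fun i => ‖(1 : ℂ) / (s - z i)‖) (fun i _ => norm_nonneg _) (m - 1)
      rw [show m - 1 + 1 = m by omega, Finset.card_univ, Fintype.card_fin] at h12
      refine h12.trans (mul_le_mul_of_nonneg_left (Finset.sum_le_sum fun i _ => ?_) (by positivity))
      rw [← hsq i]
      have h13 : ‖(1 : ℂ) / (s - z i)‖ ^ m =
          ‖(1 : ℂ) / (s - z i)‖ ^ (m - 2) * ‖(1 : ℂ) / (s - z i)‖ ^ 2 := by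
        rw [← pow_add]
        congr 1
        omega
      rw [h13]
      exact mul_le_mul_of_nonneg_right (pow_le_pow_left₀ (norm_nonneg _) (hwδ i) _) (by positivity)
    calc ‖FF s‖ ^ m ≤ (D * (1 + X)) ^ m := pow_le_pow_left₀ (norm_nonneg _) hFF m
      _ = D ^ m * (1 + X) ^ m := mul_pow _ _ _
      _ ≤ D ^ m * (2 ^ (m - 1) * (1 ^ m + X ^ m)) :=
          mul_le_mul_of_nonneg_left (add_pow_le (by norm_num) hX0 m) (by positivity)
      _ ≤ H u := by
          rw [hH, one_pow]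
          refine mul_le_mul_of_nonneg_left (mul_le_mul_of_nonneg_left ?_ (by positivity))
            (by positivity)
          linarith
  -- the integral
  have hint : ∀ i, IntervalIntegrable
      (fun u : ℝ => (1 / δ) ^ (m - 2) * (δ ^ 2 + (u - (z i).im) ^ 2)⁻¹) volume t (t + 1) :=
    fun i => ((inv_int hδ0 _).const_mul _).intervalIntegrable
  have hsum : IntervalIntegrable (fun u : ℝ => ∑ i, (1 / δ) ^ (m - 2) *
      (δ ^ 2 + (u - (z i).im) ^ 2)⁻¹) volume t (t + 1) := by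
    have h := IntervalIntegrable.sum Finset.univ fun i _ => hint i
    have e : (∑ i, fun u : ℝ => (1 / δ) ^ (m - 2) * (δ ^ 2 + (u - (z i).im) ^ 2)⁻¹) =
        fun u : ℝ => ∑ i, (1 / δ) ^ (m - 2) * (δ ^ 2 + (u - (z i).im) ^ 2)⁻¹ := by
      funext u
      rw [Finset.sum_apply]
    rw [← e]
    exact h
  have hHi : IntervalIntegrable H volume t (t + 1) := by
    refine IntervalIntegrable.const_mul (IntervalIntegrable.const_mul ?_ _) _
    exact (intervalIntegrable_const).add (IntervalIntegrable.const_mul hsum _)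
  have h1 := intervalIntegral.norm_integral_le_of_norm_le (f := fun u =>
      ‖FF (pt (1 / 2 + δ) u) ^ m‖) (g := H) (show t ≤ t + 1 by linarith)
    (Eventually.of_forall fun u hu => by
      rw [norm_norm]
      exact hpt u hu.1.le hu.2) hHi
  have h2 : ∫ u in t..(t + 1), H u = D ^ m * (2 ^ (m - 1) * (1 + (k : ℝ) ^ (m - 1) *
      ∑ i, (1 / δ) ^ (m - 2) * ∫ u in t..(t + 1), (δ ^ 2 + (u - (z i).im) ^ 2)⁻¹)) := by
    rw [hH]
    simp only
    rw [intervalIntegral.integral_const_mul, intervalIntegral.integral_const_mul,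
      intervalIntegral.integral_add intervalIntegrable_const (IntervalIntegrable.const_mul hsum _),
      intervalIntegral.integral_const_mul,
      intervalIntegral.integral_finset_sum fun i _ => hint i]
    simp_rw [intervalIntegral.integral_const_mul]
    simp
  have hd1 : 1 ≤ 1 / δ := by rw [le_div_iff₀ hδ0]; linarith
  have h3 : ∑ i, (1 / δ) ^ (m - 2) * ∫ u in t..(t + 1), (δ ^ 2 + (u - (z i).im) ^ 2)⁻¹ ≤
      k * (4 * (1 / δ) ^ (m - 1)) := by
    calc ∑ i, (1 / δ) ^ (m - 2) * ∫ u in t..(t + 1), (δ ^ 2 + (u - (z i).im) ^ 2)⁻¹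
        ≤ ∑ _i : Fin k, 4 * (1 / δ) ^ (m - 1) := by
          refine Finset.sum_le_sum fun i _ => ?_
          have h4 := inv_le hδ0 (z i).im t
          have h5 : Real.pi / δ ≤ 4 * (1 / δ) := by
            rw [div_eq_mul_one_div]
            exact mul_le_mul_of_nonneg_right Real.pi_le_four (by positivity)
          calc (1 / δ) ^ (m - 2) * ∫ u in t..(t + 1), (δ ^ 2 + (u - (z i).im) ^ 2)⁻¹
              ≤ (1 / δ) ^ (m - 2) * (4 * (1 / δ)) :=
                mul_le_mul_of_nonneg_left (h4.trans h5) (by positivity)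
            _ = 4 * ((1 / δ) ^ (m - 2) * (1 / δ)) := by ring
            _ = 4 * (1 / δ) ^ (m - 1) := by
                rw [← pow_succ, show m - 2 + 1 = m - 1 by omega]
      _ = k * (4 * (1 / δ) ^ (m - 1)) := by simp
  have hk1 : (k : ℝ) ^ m ≤ (C * L) ^ m := pow_le_pow_left₀ (by positivity) hk m
  have hCLm : 1 ≤ (C * L) ^ m := one_le_pow₀ hCL
  have hdm : 1 ≤ (1 / δ) ^ (m - 1) := one_le_pow₀ hd1
  have h6 : 1 + (k : ℝ) ^ (m - 1) *
      ∑ i, (1 / δ) ^ (m - 2) * ∫ u in t..(t + 1), (δ ^ 2 + (u - (z i).im) ^ 2)⁻¹ ≤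
      5 * (C * L) ^ m * (1 / δ) ^ (m - 1) := by
    have h7 : (k : ℝ) ^ (m - 1) * (k * (4 * (1 / δ) ^ (m - 1))) =
        4 * (k : ℝ) ^ m * (1 / δ) ^ (m - 1) := by
      have : (k : ℝ) ^ m = (k : ℝ) ^ (m - 1) * k := by
        rw [← pow_succ, show m - 1 + 1 = m by omega]
      rw [this]
      ring
    have h8 := mul_le_mul_of_nonneg_left h3 (show (0 : ℝ) ≤ (k : ℝ) ^ (m - 1) by positivity)
    rw [h7] at h8
    have h9 : 4 * (k : ℝ) ^ m * (1 / δ) ^ (m - 1) ≤ 4 * (C * L) ^ m * (1 / δ) ^ (m - 1) := by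
      gcongr
    have h10 : 1 ≤ (C * L) ^ m * (1 / δ) ^ (m - 1) := by nlinarith
    linarith
  have h7 : D ^ m * (C * L) ^ m = (4 * C ^ 3 * 2 ^ a) ^ m * (L ^ (3 * m) * t ^ (a * m)) := by
    have e5 : t ^ (a * m) = (t ^ a) ^ m := by
      rw [Real.rpow_mul htp.le, Real.rpow_natCast]
    rw [e5, hD, hG, Real.mul_rpow (by norm_num) htp.le, pow_mul, ← mul_pow, ← mul_pow, ← mul_pow]
    congr 1
    ring
  have h8 : L ^ (3 * m) ≤ (1 / ε) ^ (3 * m) * t ^ (b - m * a) := by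
    have h9 : L ≤ t ^ ε / ε := Real.log_le_rpow_div htp.le hε0
    calc L ^ (3 * m) ≤ (t ^ ε / ε) ^ (3 * m) := pow_le_pow_left₀ (by linarith) h9 _
      _ = (1 / ε) ^ (3 * m) * (t ^ ε) ^ (3 * m) := by
          rw [← mul_pow]
          congr 1
          ring
      _ = _ := by
          congr 1
          rw [← Real.rpow_natCast, ← Real.rpow_mul htp.le]
          congr 1
          rw [hε]
          push_cast
          field_simp
  have h9 : L ^ (3 * m) * t ^ (a * m) ≤ (1 / ε) ^ (3 * m) * t ^ b := by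
    calc L ^ (3 * m) * t ^ (a * m) ≤ (1 / ε) ^ (3 * m) * t ^ (b - m * a) * t ^ (a * m) :=
          mul_le_mul_of_nonneg_right h8 (by positivity)
      _ = (1 / ε) ^ (3 * m) * t ^ b := by
          rw [mul_assoc, ← Real.rpow_add htp]
          congr 2
          ring
  have h10 : ∫ u in t..(t + 1), ‖FF (pt (1 / 2 + δ) u) ^ m‖ ≤ ∫ u in t..(t + 1), H u :=
    (le_abs_self _).trans (by rw [← Real.norm_eq_abs]; exact h1)
  calc ∫ u in t..(t + 1), ‖FF (pt (1 / 2 + δ) u) ^ m‖ ≤ ∫ u in t..(t + 1), H u := h10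
    _ ≤ D ^ m * (2 ^ (m - 1) * (5 * (C * L) ^ m * (1 / δ) ^ (m - 1))) := by
        rw [h2]
        exact mul_le_mul_of_nonneg_left (mul_le_mul_of_nonneg_left h6 (by positivity))
          (by positivity)
    _ = 5 * 2 ^ (m - 1) * (D ^ m * (C * L) ^ m) * (1 / δ) ^ (m - 1) := by ring
    _ = 5 * 2 ^ (m - 1) * (4 * C ^ 3 * 2 ^ a) ^ m * (L ^ (3 * m) * t ^ (a * m)) *
          (1 / δ) ^ (m - 1) := by rw [h7]; ring
    _ ≤ 5 * 2 ^ (m - 1) * (4 * C ^ 3 * 2 ^ a) ^ m * ((1 / ε) ^ (3 * m) * t ^ b) *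
          (1 / δ) ^ (m - 1) := by gcongr
    _ = C3 * t ^ b * (1 / δ) ^ (m - 1) := by rw [hC3]; ring
    _ ≤ (C3 + 1) * t ^ b * (1 / δ) ^ (m - 1) := by
        have : 0 ≤ t ^ b * (1 / δ) ^ (m - 1) := by positivity
        nlinarith

end Pool.Agent.APX
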