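import Pool.Agent.Lib.APX.Quad

/-!
# MP_af3d17_nt: APX, row D1  (helper32)
-/

set_option autoImplicit false

namespace Pool.Agent.APX

open Filter Topology Asymptotics MeasureTheory Set Pool.Agent.ZP

lemma d1_real (hT2 : T2_stmt) (j : ℕ) {σ : ℝ} (hσ : 1 / 2 < σ) :
    IntegrableOn (fun x : ℝ => √x * Real.log x ^ j * x ^ (-σ - 1)) (Ioi 1) ∧
    ∫ x in Ioi (1 : ℝ), √x * Real.log x ^ j * x ^ (-σ - 1) =
      (j.factorial : ℝ) / (σ - 1 / 2) ^ (j + 1) := by
  obtain ⟨h1, h2⟩ := hT2 (1 / 2 : ℂ) j (σ : ℂ) (by simpa using hσ)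
  have hcongr : ∀ x ∈ Ioi (1 : ℝ), (x : ℂ) ^ (1 / 2 : ℂ) * ((Real.log x : ℝ) : ℂ) ^ j *
      (x : ℂ) ^ (-(σ : ℂ) - 1) = ((√x * Real.log x ^ j * x ^ (-σ - 1) : ℝ) : ℂ) := by
    intro x hx
    have hx0 : (0 : ℝ) ≤ x := by linarith [mem_Ioi.1 hx]
    rw [Real.sqrt_eq_rpow]
    push_cast
    rw [Complex.ofReal_cpow hx0, Complex.ofReal_cpow hx0]
    push_cast
    rfl
  constructor
  · have h3 := (integrableOn_congr_fun hcongr measurableSet_Ioi).1 h1
    have h4 := Integrable.re h3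
    simp only [RCLike.re_to_complex, Complex.ofReal_re] at h4
    exact h4
  · rw [setIntegral_congr_fun measurableSet_Ioi hcongr, integral_complex_ofReal] at h2
    have h5 : ((j.factorial : ℝ) / (σ - 1 / 2) ^ (j + 1) : ℝ) =
        (((j.factorial : ℂ) / ((σ : ℂ) - 1 / 2) ^ (j + 1))).re := by
      have : ((j.factorial : ℂ) / ((σ : ℂ) - 1 / 2) ^ (j + 1)) =
          (((j.factorial : ℝ) / (σ - 1 / 2) ^ (j + 1) : ℝ) : ℂ) := by
        push_cast
        rfl
      rw [this, Complex.ofReal_re]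
    rw [h5, ← h2, Complex.ofReal_re]

lemma d1_bound {E : ℝ → ℂ} {q : ℕ} (hE : ContinuousOn E (Ici 1))
    (hO : E =O[atTop] fun x : ℝ => √x * Real.log x ^ q) :
    ∃ B : ℝ, 0 ≤ B ∧ ∀ x : ℝ, 1 < x → ‖E x‖ ≤ B * (√x * Real.log x ^ 0 + √x * Real.log x ^ q) := by
  obtain ⟨c, hc⟩ := hO.bound
  obtain ⟨X0, hX0⟩ := eventually_atTop.1 hc
  obtain ⟨B0, hB0⟩ := (isCompact_Icc (a := (1 : ℝ)) (b := X0)).exists_bound_of_continuousOn
    (hE.mono fun x hx => hx.1)
  refine ⟨|B0| + |c|, by positivity, fun x hx => ?_⟩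
  have hs1 : 1 ≤ √x := by
    rw [Real.one_le_sqrt]
    exact hx.le
  have hl : 0 ≤ Real.log x ^ q := pow_nonneg (Real.log_nonneg hx.le) _
  have hp : 0 ≤ √x * Real.log x ^ q := by positivity
  rw [pow_zero, mul_one]
  rcases le_or_gt x X0 with h | h
  · have h1 := hB0 x ⟨hx.le, h⟩
    have h2 := le_abs_self B0
    have h3 : 0 ≤ |B0| := abs_nonneg _
    have h4 : 0 ≤ |c| := abs_nonneg _
    nlinarith
  · have h1 := hX0 x h.le
    rw [Real.norm_of_nonneg hp] at h1
    have h2 := le_abs_self c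
    have h3 : 0 ≤ |B0| := abs_nonneg _
    have h4 : 0 ≤ |c| := abs_nonneg _
    have h5 : c * (√x * Real.log x ^ q) ≤ |c| * (√x * Real.log x ^ q) :=
      mul_le_mul_of_nonneg_right h2 hp
    have h6 : 0 ≤ |B0| * (√x + √x * Real.log x ^ q) := by positivity
    have h7 : 0 ≤ |c| * √x := by positivity
    nlinarith

lemma d1_norm (x : ℝ) (hx : 1 < x) (s : ℂ) : ‖(x : ℂ) ^ (-s - 1)‖ = x ^ (-s.re - 1) := by
  rw [Complex.norm_cpow_eq_rpow_re_of_pos (by linarith)]
  simp

lemma d1_contpow (w : ℂ) : ContinuousOn (fun x : ℝ => (x : ℂ) ^ w) (Ici 1) := by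
  intro x hx
  have hx1 : (1 : ℝ) ≤ x := hx
  have h := Complex.continuousAt_ofReal_cpow_const x w (Or.inr (by linarith))
  exact h.continuousWithinAt

lemma d1_int (hT2 : T2_stmt) {E : ℝ → ℂ} {q : ℕ} (hE : ContinuousOn E (Ici 1)) {B : ℝ}
    (hB : ∀ x : ℝ, 1 < x → ‖E x‖ ≤ B * (√x * Real.log x ^ 0 + √x * Real.log x ^ q))
    {s : ℂ} (hs : 1 / 2 < s.re) :
    IntegrableOn (fun x : ℝ => E x * (x : ℂ) ^ (-s - 1)) (Ioi 1) ∧
    ‖∫ x in Ioi (1 : ℝ), E x * (x : ℂ) ^ (-s - 1)‖ ≤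
      B * (1 / (s.re - 1 / 2) + (q.factorial : ℝ) / (s.re - 1 / 2) ^ (q + 1)) := by
  obtain ⟨h0, h0'⟩ := d1_real hT2 0 hs
  obtain ⟨h1, h1'⟩ := d1_real hT2 q hs
  have hdom : IntegrableOn (fun x : ℝ => B * (√x * Real.log x ^ 0 * x ^ (-s.re - 1) +
      √x * Real.log x ^ q * x ^ (-s.re - 1))) (Ioi 1) := (h0.add h1).const_mul B
  have hle : ∀ x ∈ Ioi (1 : ℝ), ‖E x * (x : ℂ) ^ (-s - 1)‖ ≤
      B * (√x * Real.log x ^ 0 * x ^ (-s.re - 1) + √x * Real.log x ^ q * x ^ (-s.re - 1)) := by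
    intro x hx
    rw [norm_mul, d1_norm x hx]
    have h2 : 0 ≤ x ^ (-s.re - 1) := Real.rpow_nonneg (by linarith [mem_Ioi.1 hx]) _
    calc ‖E x‖ * x ^ (-s.re - 1) ≤
          B * (√x * Real.log x ^ 0 + √x * Real.log x ^ q) * x ^ (-s.re - 1) :=
          mul_le_mul_of_nonneg_right (hB x hx) h2
      _ = _ := by ring
  have hae : ∀ᵐ x ∂(volume.restrict (Ioi (1 : ℝ))), ‖E x * (x : ℂ) ^ (-s - 1)‖ ≤
      B * (√x * Real.log x ^ 0 * x ^ (-s.re - 1) + √x * Real.log x ^ q * x ^ (-s.re - 1)) :=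
    (ae_restrict_iff' measurableSet_Ioi).2 (Eventually.of_forall hle)
  constructor
  · refine Integrable.mono' hdom ?_ hae
    refine ContinuousOn.aestronglyMeasurable ?_ measurableSet_Ioi
    exact (hE.mul (d1_contpow _)).mono Ioi_subset_Ici_self
  · refine (norm_integral_le_of_norm_le hdom hae).trans (le_of_eq ?_)
    rw [integral_const_mul, integral_add h0 h1, h0', h1']
    simp

lemma d1_diff {E : ℝ → ℂ} {q : ℕ} (hE : ContinuousOn E (Ici 1))
    (hO : E =O[atTop] fun x : ℝ => √x * Real.log x ^ q) {s : ℂ} (hs : 1 / 2 < s.re) :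
    DifferentiableAt ℂ (fun s : ℂ => ∫ x in Ioi (1 : ℝ), E x * (x : ℂ) ^ (-s - 1)) s := by
  set f0 : ℝ → ℂ := (Ioi (1 : ℝ)).indicator (fun x => E (max x 1)) with hf0
  have hcont : Continuous fun x : ℝ => E (max x 1) := by
    refine hE.comp_continuous (continuous_id.max continuous_const) fun x => ?_
    exact le_max_right (id x) 1
  have hloc : LocallyIntegrableOn f0 (Ioi 0) :=
    (hcont.locallyIntegrable.indicator measurableSet_Ioi).locallyIntegrableOn _
  have heq : (fun s : ℂ => ∫ x in Ioi (1 : ℝ), E x * (x : ℂ) ^ (-s - 1)) =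
      fun s : ℂ => mellin f0 (-s) := by
    funext w
    rw [mellin]
    have h1 : ∀ t : ℝ, (t : ℂ) ^ (-w - 1) • f0 t =
        (Ioi (1 : ℝ)).indicator (fun t : ℝ => E t * (t : ℂ) ^ (-w - 1)) t := by
      intro t
      by_cases ht : t ∈ Ioi (1 : ℝ)
      · rw [hf0, indicator_of_mem ht, indicator_of_mem ht, max_eq_left (le_of_lt ht), smul_eq_mul,
          mul_comm]
      · rw [hf0, indicator_of_notMem ht, indicator_of_notMem ht, smul_zero]
    simp_rw [h1]
    rw [setIntegral_indicator measurableSet_Ioi]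
    congr 2
    ext x
    simp only [mem_inter_iff, mem_Ioi]
    constructor
    · intro h
      exact ⟨by linarith, h⟩
    · exact fun h => h.2
  rw [heq]
  have hmel : DifferentiableAt ℂ (mellin f0) (-s) := by
    set ε : ℝ := (s.re - 1 / 2) / 2 with hε
    have hε0 : 0 < ε := by rw [hε]; linarith
    refine mellin_differentiableAt_of_isBigO_rpow (a := -(1 / 2 + ε)) (b := -s.re - 1) hloc ?_ ?_ ?_ ?_
    · have h1 : f0 =ᶠ[atTop] E := by
        filter_upwards [eventually_gt_atTop (1 : ℝ)] with x hx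
        rw [hf0, indicator_of_mem (mem_Ioi.2 hx), max_eq_left hx.le]
      refine (h1.trans_isBigO hO).trans ?_
      have h2 : (fun x : ℝ => Real.log x ^ q) =O[atTop] fun x : ℝ => x ^ ε := by
        have := (isLittleO_log_rpow_rpow_atTop (q : ℝ) hε0).isBigO
        simpa [Real.rpow_natCast] using this
      have h3 : (fun x : ℝ => √x * Real.log x ^ q) =O[atTop] fun x : ℝ => √x * x ^ ε :=
        (isBigO_refl _ _).mul h2
      refine h3.trans (IsBigO.of_bound 1 ?_)
      filter_upwards [eventually_gt_atTop (1 : ℝ)] with x hx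
      rw [one_mul, Real.sqrt_eq_rpow, ← Real.rpow_add (by linarith), neg_neg]
    · rw [Complex.neg_re]
      linarith
    · refine IsBigO.of_bound 1 ?_
      have : ∀ᶠ x : ℝ in 𝓝[>] 0, x < 1 := by
        filter_upwards [Ioo_mem_nhdsGT (zero_lt_one : (0 : ℝ) < 1)] with x hx using hx.2
      filter_upwards [this] with x hx
      rw [hf0, indicator_of_notMem (by simp only [mem_Ioi, not_lt]; exact hx.le), norm_zero, one_mul]
      exact norm_nonneg _
    · rw [Complex.neg_re]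
      linarith
  exact hmel.comp s differentiableAt_id.neg

theorem d1 : D1_stmt := by
  intro hT1 hT2 κ a q hκ hDS hHE
  obtain ⟨S, c, hO⟩ := hHE
  obtain ⟨hrc, hr1, hrT⟩ := hT1 κ a hκ hDS
  set E : ℝ → ℂ := fun x : ℝ => (riesz κ a x : ℂ) -
    ∑ p ∈ S, c p * (x : ℂ) ^ p.1 * ((Real.log x : ℝ) : ℂ) ^ p.2 with hEdef
  have hlogc : ContinuousOn (fun x : ℝ => ((Real.log x : ℝ) : ℂ)) (Ici 1) := by
    refine Complex.continuous_ofReal.comp_continuousOn (Real.continuousOn_log.mono ?_)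
    intro x hx
    have : (1 : ℝ) ≤ x := hx
    simp only [mem_compl_iff, mem_singleton_iff]
    linarith
  have hEc : ContinuousOn E (Ici 1) := by
    refine ContinuousOn.sub (Complex.continuous_ofReal.comp hrc).continuousOn ?_
    refine continuousOn_finsetSum _ fun p _ => ?_
    exact (continuousOn_const.mul (d1_contpow _)).mul (hlogc.pow _)
  obtain ⟨B, hB0, hB⟩ := d1_bound hEc hO
  set F : ℂ → ℂ := fun s : ℂ => ∫ x in Ioi (1 : ℝ), E x * (x : ℂ) ^ (-s - 1) with hF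
  set T1 : ℝ := 1 + ∑ p ∈ S, |p.1.im| with hT1def
  set R : ℝ := 1 + ∑ p ∈ S, |p.1.re| with hRdef
  have hT11 : 1 ≤ T1 := by
    have : 0 ≤ ∑ p ∈ S, |p.1.im| := Finset.sum_nonneg fun _ _ => abs_nonneg _
    linarith
  have him : ∀ p ∈ S, p.1.im + 1 ≤ T1 := by
    intro p hp
    have h1 := Finset.single_le_sum (f := fun p : ℂ × ℕ => |p.1.im|) (fun _ _ => abs_nonneg _) hp
    have h2 := le_abs_self p.1.im
    linarith
  have hre : ∀ p ∈ S, p.1.re < R := by
    intro p hp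
    have h1 := Finset.single_le_sum (f := fun p : ℂ × ℕ => |p.1.re|) (fun _ _ => abs_nonneg _) hp
    have h2 := le_abs_self p.1.re
    linarith
  have hdist : ∀ p ∈ S, ∀ s : ℂ, T1 < s.im → 1 ≤ ‖s - p.1‖ := by
    intro p hp s hs
    have h1 := Complex.abs_im_le_norm (s - p.1)
    rw [Complex.sub_im] at h1
    have h2 := le_abs_self (s.im - p.1.im)
    linarith [him p hp]
  set P : ℂ → ℂ := fun s : ℂ => ∑ p ∈ S, c p * ((p.2.factorial : ℂ) / (s - p.1) ^ (p.2 + 1)) with hP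
  have hFdiff : ∀ s : ℂ, 1 / 2 < s.re → DifferentiableAt ℂ F s := fun s hs => d1_diff hEc hO hs
  have hPdiff : ∀ s : ℂ, T1 < s.im → DifferentiableAt ℂ P s := by
    intro s hs
    rw [hP]
    refine DifferentiableAt.fun_sum fun p hp => ?_
    refine (DifferentiableAt.div (differentiableAt_const _) ?_ ?_).const_mul _
    · exact (differentiableAt_id.sub_const _).pow _
    · have h1 := hdist p hp s hs
      have h2 : s - p.1 ≠ 0 := by
        rw [← norm_pos_iff]
        linarith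
      exact pow_ne_zero _ h2
  set K : ℝ := ∑ p ∈ S, ‖c p‖ * (p.2.factorial : ℝ) with hK
  have hK0 : 0 ≤ K := Finset.sum_nonneg fun p _ => by positivity
  have hPle : ∀ s : ℂ, T1 < s.im → ‖P s‖ ≤ K := by
    intro s hs
    refine norm_sum_le_of_le _ fun p hp => ?_
    rw [norm_mul, norm_div, norm_pow]
    have h1 := hdist p hp s hs
    have h2 : 1 ≤ ‖s - p.1‖ ^ (p.2 + 1) := one_le_pow₀ h1
    have h3 : ‖(p.2.factorial : ℂ)‖ = (p.2.factorial : ℝ) := by
      rw [Complex.norm_natCast]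
    rw [h3]
    refine mul_le_mul_of_nonneg_left ?_ (norm_nonneg _)
    exact div_le_self (by positivity) h2
  set δ0 : ℝ := 3 / 2 with hδ0
  set C : ℝ := 1 + (B * ((3 / 2) ^ q + (q.factorial : ℝ)) + K * (3 / 2) ^ (q + 1)) with hC
  refine ⟨C, T1, fun s => F s + P s, ?_, hT11, ?_, ?_, ?_⟩
  · rw [hC]
    have : 0 ≤ B * ((3 / 2) ^ q + (q.factorial : ℝ)) + K * (3 / 2) ^ (q + 1) := by positivity
    linarith
  · intro s hs
    exact ((hFdiff s hs.1).add (hPdiff s hs.2)).differentiableWithinAt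
  · -- the identity
    have hab : LSeries.abscissaOfAbsConv (fun n => (a n : ℂ)) ≤ 1 := by
      refine LSeries.abscissaOfAbsConv_le_of_forall_lt_LSeriesSummable' fun y hy => ?_
      exact hDS.2 y (by simpa using (by exact_mod_cast hy : (1 : ℝ) < y))
    have hmain : ∀ s : ℂ, 1 < s.re → R < s.re → T1 < s.im →
        F s + P s = LSeries (fun n => (a n : ℂ)) s * s ^ (-(κ : ℂ) - 1) := by
      intro s hs1 hsR hsT
      obtain ⟨hi, hv⟩ := hrT s hs1
      have hpi : ∀ p ∈ S, IntegrableOn (fun x : ℝ => c p * ((x : ℂ) ^ p.1 *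
          ((Real.log x : ℝ) : ℂ) ^ p.2 * (x : ℂ) ^ (-s - 1))) (Ioi 1) := fun p hp =>
        ((hT2 p.1 p.2 s ((hre p hp).trans hsR)).1).const_mul _
      have hexp : ∀ x : ℝ, E x * (x : ℂ) ^ (-s - 1) = (riesz κ a x : ℂ) * (x : ℂ) ^ (-s - 1) -
          ∑ p ∈ S, c p * ((x : ℂ) ^ p.1 * ((Real.log x : ℝ) : ℂ) ^ p.2 * (x : ℂ) ^ (-s - 1)) := by
        intro x
        rw [hEdef]
        simp only
        rw [sub_mul, Finset.sum_mul]
        congr 1
        refine Finset.sum_congr rfl fun p _ => ?_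
        ring
      have hFs : F s = LSeries (fun n => (a n : ℂ)) s * s ^ (-(κ : ℂ) - 1) - P s := by
        rw [hF, hP]
        simp only [hexp]
        rw [integral_sub hi (integrable_finsetSum _ hpi), hv, integral_finsetSum _ hpi]
        congr 1
        refine Finset.sum_congr rfl fun p hp => ?_
        rw [integral_const_mul, (hT2 p.1 p.2 s ((hre p hp).trans hsR)).2]
      rw [hFs, sub_add_cancel]
    have hid := quad_ident (a := 1) (R := R) (T := T1) (f := fun s => F s + P s)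
      (g := fun s => LSeries (fun n => (a n : ℂ)) s * s ^ (-(κ : ℂ) - 1)) ?_ ?_ hmain
    · exact fun s hs hsT => hid s hs hsT
    · intro s hs
      exact ((hFdiff s (by linarith [hs.1])).add (hPdiff s hs.2)).differentiableWithinAt
    · intro s hs
      have h1 : DifferentiableAt ℂ (LSeries (fun n => (a n : ℂ))) s := by
        refine (LSeries_analyticOnNhd _ s ?_).differentiableAt
        refine lt_of_le_of_lt hab ?_
        exact_mod_cast hs.1
      exact (h1.mul (quad_cpow_diff _ (by linarith [hs.2]))).differentiableWithinAt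
  · intro s hs hs2 hsT
    obtain ⟨hi, hle⟩ := d1_int hT2 hEc hB hs
    have hP' := hPle s hsT
    set δ : ℝ := s.re - 1 / 2 with hδ
    have hδp : 0 < δ := by linarith
    have hδ2 : δ ≤ 3 / 2 := by linarith
    have hinv : 1 ≤ 3 / 2 * (1 / δ) := by
      rw [mul_one_div, le_div_iff₀ hδp]
      linarith
    have hq : 1 ≤ (3 / 2) ^ q * (1 / δ) ^ q := by
      rw [← mul_pow]
      exact one_le_pow₀ hinv
    have hq1 : 1 ≤ (3 / 2) ^ (q + 1) * (1 / δ) ^ (q + 1) := by
      rw [← mul_pow]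
      exact one_le_pow₀ hinv
    have hδi : 0 < 1 / δ := by positivity
    have h1 : 1 / δ ≤ (3 / 2) ^ q * (1 / δ) ^ (q + 1) := by
      calc 1 / δ = 1 * (1 / δ) := (one_mul _).symm
        _ ≤ ((3 / 2) ^ q * (1 / δ) ^ q) * (1 / δ) := mul_le_mul_of_nonneg_right hq hδi.le
        _ = _ := by ring
    have h2 : (q.factorial : ℝ) / δ ^ (q + 1) = q.factorial * (1 / δ) ^ (q + 1) := by
      rw [one_div, inv_pow, div_eq_mul_inv]
    have h3 : K ≤ K * (3 / 2) ^ (q + 1) * (1 / δ) ^ (q + 1) := by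
      calc K = K * 1 := (mul_one _).symm
        _ ≤ K * ((3 / 2) ^ (q + 1) * (1 / δ) ^ (q + 1)) := mul_le_mul_of_nonneg_left hq1 hK0
        _ = _ := by ring
    have h4 : 0 ≤ (1 / δ) ^ (q + 1) := by positivity
    calc ‖F s + P s‖ ≤ ‖F s‖ + ‖P s‖ := norm_add_le _ _
      _ ≤ B * (1 / δ + (q.factorial : ℝ) / δ ^ (q + 1)) + K := add_le_add hle hP'
      _ ≤ B * ((3 / 2) ^ q * (1 / δ) ^ (q + 1) + q.factorial * (1 / δ) ^ (q + 1)) +
          K * (3 / 2) ^ (q + 1) * (1 / δ) ^ (q + 1) := by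
          rw [h2]
          refine add_le_add (mul_le_mul_of_nonneg_left ?_ hB0) h3
          linarith
      _ = (B * ((3 / 2) ^ q + (q.factorial : ℝ)) + K * (3 / 2) ^ (q + 1)) *
          (1 / δ) ^ (q + 1) := by ring
      _ ≤ C * (1 / δ) ^ (q + 1) := by
          refine mul_le_mul_of_nonneg_right ?_ h4
          rw [hC]
          linarith

end Pool.Agent.APX
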