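import Pool.Agent.Lib.APX.Quad
import Pool.Agent.Lib.MP_af3d17_nt_h98.Count

/-!
# MP_af3d17_nt: APX, row D2  (helper32)
-/

set_option autoImplicit false

namespace Pool.Agent.APX

open Filter Topology Asymptotics MeasureTheory Set Pool.Agent.ZP

lemma ds_vonMangoldt : DS (fun n => ArithmeticFunction.vonMangoldt n) :=
  ⟨fun _ => ArithmeticFunction.vonMangoldt_nonneg,
    fun _ hs => ArithmeticFunction.LSeriesSummable_vonMangoldt hs⟩

theorem d2 : D2_stmt := by
  intro hD1 κ q hκ hE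
  obtain ⟨C, T1, h, hC, hT1, hdiff, heq, hbd⟩ := hD1 κ _ q hκ ds_vonMangoldt hE
  have hzd : ∀ s : ℂ, 1 / 2 < s.re ∧ T1 < s.im → AnalyticAt ℂ riemannZeta s := fun s hs =>
    quad_zeta_diff (by linarith [hs.2])
  have key : ∀ s : ℂ, 1 / 2 < s.re → T1 < s.im →
      deriv riemannZeta s * (-(s ^ (-(κ : ℂ) - 1))) = riemannZeta s * h s := by
    refine quad_ident (R := 1) ?_ ?_ ?_
    · intro s hs
      refine (((hzd s hs).deriv.differentiableAt).mul
        (quad_cpow_diff _ (by linarith [hs.2])).neg).differentiableWithinAt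
    · intro s hs
      exact ((hzd s hs).differentiableAt.differentiableWithinAt).mul (hdiff s hs)
    · intro s hs1 hs hsT
      have h1 := heq s hs hsT
      have h2 := ArithmeticFunction.LSeries_vonMangoldt_eq_deriv_riemannZeta_div hs
      have h3 : riemannZeta s ≠ 0 := riemannZeta_ne_zero_of_one_le_re hs.le
      rw [h1, h2]
      field_simp
  have right : ∀ ρ : ℂ, IsUpperZero ρ → T1 < ρ.im → ¬ 1 / 2 < ρ.re := by
    intro ρ hρ ht hre
    have h0 : 0 < ρ.im := hρ.2.2.2
    have hh : AnalyticAt ℂ h ρ :=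
      hdiff.analyticAt ((quad_open (1 / 2) T1).mem_nhds ⟨hre, ht⟩)
    have hz : AnalyticAt ℂ riemannZeta ρ := quad_zeta_diff h0
    have hev : (deriv riemannZeta * fun s : ℂ => -(s ^ (-(κ : ℂ) - 1))) =ᶠ[𝓝 ρ]
        (riemannZeta * h) := by
      filter_upwards [(quad_open (1 / 2) T1).mem_nhds ⟨hre, ht⟩] with s hs
      exact key s hs.1 hs.2
    have hpow : AnalyticAt ℂ (fun s : ℂ => -(s ^ (-(κ : ℂ) - 1))) ρ := by
      have hd : DifferentiableOn ℂ (fun s : ℂ => -(s ^ (-(κ : ℂ) - 1))) {s : ℂ | 1 / 2 < s.re ∧ T1 < s.im} :=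
        fun s hs => (quad_cpow_diff _ (by linarith [hs.2])).neg.differentiableWithinAt
      exact hd.analyticAt ((quad_open (1 / 2) T1).mem_nhds ⟨hre, ht⟩)
    have hpow0 : analyticOrderAt (fun s : ℂ => -(s ^ (-(κ : ℂ) - 1))) ρ = 0 := by
      rw [hpow.analyticOrderAt_eq_zero]
      simp only [ne_eq, neg_eq_zero]
      rw [Complex.cpow_eq_zero_iff]
      exact fun hh => quad_ne h0 hh.1
    have h1 := analyticOrderAt_congr hev
    rw [analyticOrderAt_mul hz.deriv hpow, analyticOrderAt_mul hz hh, hpow0, add_zero] at h1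
    have h2 := hz.analyticOrderAt_deriv_add_one
    have h3 : (fun z => riemannZeta z - riemannZeta ρ) = riemannZeta := by
      funext z
      rw [hρ.1, sub_zero]
    rw [h3] at h2
    have h4 := order_ne_top ρ
    rw [← h2] at h1 h4
    obtain ⟨k, hk⟩ : ∃ k : ℕ, (k : ℕ∞) = analyticOrderAt (deriv riemannZeta) ρ := by
      apply ENat.ne_top_iff_exists.1
      intro h5
      rw [h5] at h4
      exact h4 rfl
    rw [← hk] at h1
    have h6 : ((k + 1 : ℕ) : ℕ∞) ≤ (k : ℕ∞) := by
      rw [h1]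
      push_cast
      exact le_self_add
    have h7 : k + 1 ≤ k := by exact_mod_cast h6
    omega
  refine ⟨T1, fun ρ hρ ht => ?_⟩
  have h1 := right ρ hρ ht
  have h2 := mirror hρ
  have h3 := right _ h2.1 (by rw [h2.2]; exact ht)
  simp only [Complex.sub_re, Complex.one_re, Complex.conj_re] at h3
  push Not at h1 h3
  linarith

end Pool.Agent.APX
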