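import Pool.Agent.Lib.APX.Quad

/-!
# MP_af3d17_nt: APX, row D3  (helper32)
-/

set_option autoImplicit false

namespace Pool.Agent.APX

open Filter Topology Asymptotics MeasureTheory Set Pool.Agent.ZP

theorem d3 : D3_stmt := by
  intro hD1 hD2 hR2 m κ hm hκ hG
  obtain ⟨T0, hT0⟩ := hD2 κ (m - 1) hκ hG.1
  obtain ⟨C, T1, h, hC, hT1, hdiff, heq, hbd⟩ := hD1 κ _ (m - 1) hκ (hR2 m).1 hG.2
  have hm' : (0 : ℝ) < m := by exact_mod_cast hm
  have hm1 : m - 1 + 1 = m := Nat.sub_add_cancel hm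
  set T : ℝ := max T0 T1 with hT
  have hTa : T0 ≤ T := le_max_left _ _
  have hTb : T1 ≤ T := le_max_right _ _
  have hzd : ∀ s : ℂ, 1 / 2 < s.re ∧ T < s.im → AnalyticAt ℂ riemannZeta s := fun s hs =>
    quad_zeta_diff (by linarith [hs.2])
  have hzn : ∀ s : ℂ, 1 / 2 < s.re ∧ T < s.im → riemannZeta s ≠ 0 := by
    intro s hs h0
    rcases lt_or_ge s.re 1 with h1 | h1
    · have h2 : IsUpperZero s := ⟨h0, by linarith [hs.1], h1, by linarith [hs.2]⟩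
      have h3 := hT0 s h2 (by linarith [hs.2])
      linarith [hs.1]
    · exact riemannZeta_ne_zero_of_one_le_re h1 h0
  have key : ∀ s : ℂ, 1 / 2 < s.re → T < s.im → FF s ^ m * s ^ (-(κ : ℂ) - 1) = h s := by
    refine quad_ident (R := 1) ?_ ?_ ?_
    · intro s hs
      have hF : DifferentiableAt ℂ FF s := by
        have := (hzd s hs).deriv.deriv.differentiableAt.div (hzd s hs).differentiableAt (hzn s hs)
        exact this
      exact ((hF.pow m).mul (quad_cpow_diff _ (by linarith [hs.2]))).differentiableWithinAt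
    · exact hdiff.mono fun s hs => ⟨hs.1, by linarith [hs.2]⟩
    · intro s hs1 hs hsT
      rw [heq s hs (by linarith)]
      have h2 := (hR2 m).2 s hs
      rw [← h2]
  set K : ℝ := C * 3 ^ (κ + 1) with hK
  have h3pow : (1 : ℝ) ≤ 3 ^ (κ + 1) := Real.one_le_rpow (by norm_num) (by linarith)
  have hK1 : 1 ≤ K := by
    rw [hK]
    nlinarith
  refine ⟨K, T, hK1, by linarith, fun s hs hs2 hsT => ?_⟩
  have ht1 : 1 ≤ s.im := by linarith
  have ht0 : 0 < s.im := by linarith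
  have hδ : 0 < s.re - 1 / 2 := by linarith
  have h1 := key s hs hsT
  have h2 := hbd s hs hs2 (by linarith)
  rw [← h1, norm_mul, norm_pow, hm1] at h2
  have hnorm : ‖s ^ (-(κ : ℂ) - 1)‖ = ‖s‖ ^ (-κ - 1) := by
    have h5 : (-(κ : ℂ) - 1) = ((-κ - 1 : ℝ) : ℂ) := by push_cast; ring
    rw [h5, Complex.norm_cpow_real]
  have hs3 : ‖s‖ ≤ 3 * s.im := by
    refine (Complex.norm_le_abs_re_add_abs_im s).trans ?_
    rw [abs_of_pos (show 0 < s.re by linarith), abs_of_pos ht0]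
    linarith
  have hspos : 0 < ‖s‖ := norm_pos_iff.2 (quad_ne ht0)
  rw [hnorm] at h2
  have hmul : ‖s‖ ^ (-κ - 1) * ‖s‖ ^ (κ + 1) = 1 := by
    rw [← Real.rpow_add hspos]
    rw [show -κ - 1 + (κ + 1) = 0 by ring, Real.rpow_zero]
  have hle : ‖s‖ ^ (κ + 1) ≤ 3 ^ (κ + 1) * s.im ^ (κ + 1) := by
    rw [← Real.mul_rpow (by norm_num) ht0.le]
    exact Real.rpow_le_rpow hspos.le hs3 (by linarith)
  have h4 : ‖FF s‖ ^ m ≤ C * (1 / (s.re - 1 / 2)) ^ m * (3 ^ (κ + 1) * s.im ^ (κ + 1)) := by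
    calc ‖FF s‖ ^ m = ‖FF s‖ ^ m * (‖s‖ ^ (-κ - 1) * ‖s‖ ^ (κ + 1)) := by rw [hmul, mul_one]
      _ = (‖FF s‖ ^ m * ‖s‖ ^ (-κ - 1)) * ‖s‖ ^ (κ + 1) := by ring
      _ ≤ (C * (1 / (s.re - 1 / 2)) ^ m) * (3 ^ (κ + 1) * s.im ^ (κ + 1)) := by
          refine mul_le_mul h2 hle (by positivity) (by positivity)
  have h5 : (s.im ^ ((κ + 1) / m)) ^ m = s.im ^ (κ + 1) := by
    rw [← Real.rpow_natCast, ← Real.rpow_mul ht0.le]
    congr 1
    field_simp
  have h6 : ‖FF s‖ ^ m ≤ (K * s.im ^ ((κ + 1) / m) / (s.re - 1 / 2)) ^ m := by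
    refine h4.trans ?_
    rw [div_pow (K * s.im ^ ((κ + 1) / m)), mul_pow K, h5, one_div, inv_pow]
    have h7 : K ≤ K ^ m := le_self_pow₀ hK1 (by omega)
    calc C * ((s.re - 1 / 2) ^ m)⁻¹ * (3 ^ (κ + 1) * s.im ^ (κ + 1))
        = K * s.im ^ (κ + 1) / (s.re - 1 / 2) ^ m := by rw [hK]; ring
      _ ≤ K ^ m * s.im ^ (κ + 1) / (s.re - 1 / 2) ^ m := by gcongr
  exact le_of_pow_le_pow_left₀ (by omega) (by positivity) h6

end Pool.Agent.APX
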