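import Mathlib
import Pool.Agent.Lib.APX.Loc

/-!
Row D4: lower bound for `ζ''/ζ` near a small gap or a multiple zero.
-/

set_option autoImplicit false

namespace Pool.Agent.APX

open Filter Topology Pool.Agent.ZP

theorem d4 : D4_stmt := by
  intro T0 hT0
  obtain ⟨C, T1, hC, hT1, hloc⟩ := Loc.loc
  refine ⟨1 / (100 * C), max T1 (T0 + 20), by positivity, ?_, hT1.trans (le_max_left _ _), ?_⟩
  · rw [div_le_one (by positivity)]
    linarith
  intro ρ ρ' δ hρ hρ' ht hdd hd hδ0 hδc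
  have ht1 : T1 ≤ ρ.im := (le_max_left _ _).trans ht
  have ht2 : T0 + 20 ≤ ρ.im := (le_max_right _ _).trans ht
  have ht0 : 100 ≤ ρ.im := hT1.trans ht1
  set t : ℝ := ρ.im with htd
  set L : ℝ := Real.log t with hL
  have hL1 : 1 ≤ L := by
    rw [hL, Real.le_log_iff_exp_le (by linarith)]
    have := Real.exp_one_lt_d9
    linarith
  have hCL : C * L ≤ 1 / (100 * δ) := by
    rw [div_div, le_div_iff₀ (by positivity)] at hδc
    rw [le_div_iff₀ (by positivity)]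
    linarith
  have hCL1 : 1 ≤ C * L := by nlinarith
  have hδ1 : δ ≤ 1 / 100 := by
    have h1 : 1 ≤ 1 / (100 * δ) := hCL1.trans hCL
    rw [le_div_iff₀ (by positivity)] at h1
    linarith
  have hre : ρ.re = 1 / 2 := hT0 ρ hρ (by linarith)
  have him : |ρ.im - ρ'.im| ≤ δ := by
    have h1 := Complex.abs_im_le_norm (ρ - ρ')
    rw [Complex.sub_im] at h1
    exact h1.trans hd
  have him2 := abs_le.1 him
  have hre' : ρ'.re = 1 / 2 := hT0 ρ' hρ' (by linarith)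
  obtain ⟨k, z, B, B', -, hz, hex, hdz, hF⟩ := hloc t ht1
  have hz2 : ∀ i, (z i).re = 1 / 2 := fun i => hT0 (z i) (hz i).2.2.2 (by linarith [(hz i).1])
  have hmem : ∀ w : ℂ, w.re = 1 / 2 → |t - w.im| ≤ δ →
      w ∈ Metric.closedBall (pt 10 t) (97 / 10) := by
    intro w h1 h2
    have h3 : w = pt w.re w.im := rfl
    rw [h3]
    refine pt_mem_disc (by norm_num) ?_
    rw [h1]
    have h4 := abs_le.1 h2
    nlinarith
  obtain ⟨i0, hi0⟩ := hex ρ (hmem ρ hre (by rw [sub_self, abs_zero]; exact hδ0.le)) hρ.1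
  obtain ⟨j0, hj0, hij⟩ : ∃ j, z j = ρ' ∧ j ≠ i0 := by
    by_cases h : ρ = ρ'
    · have h1 := hdd h
      rw [← hi0] at h1
      obtain ⟨j, hj1, hj2⟩ := (hdz i0).1 h1
      exact ⟨j, by rw [hj2, hi0, h], hj1⟩
    · obtain ⟨j, hj⟩ := hex ρ' (hmem ρ' hre' him) hρ'.1
      refine ⟨j, hj, ?_⟩
      rintro rfl
      exact h (hi0.symm.trans hj)
  set s : ℂ := ρ + δ with hs
  have hsre : s.re = 1 / 2 + δ := by rw [hs]; simp [hre]
  have hsim : s.im = t := by rw [hs]; simp [htd]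
  have hs0 : riemannZeta s ≠ 0 := by
    intro h0
    have := hT0 s ⟨h0, by linarith, by linarith, by linarith⟩ (by linarith)
    linarith
  obtain ⟨-, e2, b1, b2⟩ := hF s (by rw [hsre, hsim]; nlinarith) hs0
  -- the terms
  have hsub : ∀ i, (s - z i).re = δ := fun i => by rw [Complex.sub_re, hsre, hz2 i]; ring
  have hns : ∀ i, 0 < Complex.normSq (s - z i) := by
    intro i
    refine Complex.normSq_pos.2 fun h => ?_
    have := hsub i
    rw [h, Complex.zero_re] at this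
    linarith
  have hwre : ∀ i, ((1 : ℂ) / (s - z i)).re = δ / Complex.normSq (s - z i) := by
    intro i
    rw [one_div, Complex.inv_re, hsub i]
  have hw2 : ∀ i, ‖(1 : ℂ) / (s - z i) ^ 2‖ = ((1 : ℂ) / (s - z i)).re / δ := by
    intro i
    rw [hwre i, norm_div, norm_one, norm_pow, Complex.normSq_eq_norm_sq]
    field_simp
  set W : ℂ := ∑ i, (1 : ℂ) / (s - z i) with hW
  have hWre : W.re = ∑ i, ((1 : ℂ) / (s - z i)).re := by rw [hW, Complex.re_sum]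
  have hW2 : ‖∑ i, (1 : ℂ) / (s - z i) ^ 2‖ ≤ ‖W‖ / δ := by
    refine (norm_sum_le _ _).trans ?_
    rw [Finset.sum_congr rfl fun i _ => hw2 i, ← Finset.sum_div, ← hWre]
    exact div_le_div_of_nonneg_right (Complex.re_le_norm W) hδ0.le
  have hi : ((1 : ℂ) / (s - z i0)).re = 1 / δ := by
    rw [hwre, hi0, hs]
    rw [show ρ + (δ : ℂ) - ρ = (δ : ℂ) by ring, Complex.normSq_ofReal]
    field_simp
  have hj : 1 / (2 * δ) ≤ ((1 : ℂ) / (s - z j0)).re := by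
    rw [hwre, Complex.normSq_apply, hsub j0]
    have h1 : (s - z j0).im = t - ρ'.im := by rw [Complex.sub_im, hsim, hj0]
    rw [h1]
    have h2 : (t - ρ'.im) * (t - ρ'.im) ≤ δ * δ := by nlinarith
    rw [div_le_div_iff₀ (by positivity) (by nlinarith [mul_self_nonneg (t - ρ'.im)])]
    nlinarith
  have hWge : 3 / (2 * δ) ≤ ‖W‖ := by
    refine le_trans ?_ (Complex.re_le_norm W)
    rw [hWre]
    have h1 : ((1 : ℂ) / (s - z i0)).re + ((1 : ℂ) / (s - z j0)).re ≤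
        ∑ i, ((1 : ℂ) / (s - z i)).re := by
      have h2 := Finset.sum_le_sum_of_subset_of_nonneg (s := ({i0, j0} : Finset (Fin k)))
        (t := Finset.univ) (f := fun i => ((1 : ℂ) / (s - z i)).re) (Finset.subset_univ _)
        (fun i _ _ => by rw [hwre]; have := hns i; positivity)
      rwa [Finset.sum_pair hij.symm] at h2
    have h3 : (3 : ℝ) / (2 * δ) = 1 / δ + 1 / (2 * δ) := by field_simp; norm_num
    rw [h3]
    linarith
  rw [e2]
  set x : ℝ := ‖W‖ with hx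
  have hδi : 0 < 1 / δ := by positivity
  have hb1 : ‖B s‖ ≤ 1 / 100 * (1 / δ) := by
    refine b1.trans (hCL.trans (le_of_eq ?_))
    field_simp
  have hb2 : ‖B' s‖ ≤ 1 / 100 * (1 / δ) ^ 2 := by
    refine b2.trans (hCL.trans ?_)
    have h1 : 1 ≤ 1 / δ := by rw [le_div_iff₀ hδ0]; linarith
    have h2 : 1 / (100 * δ) = 1 / 100 * (1 / δ) := by field_simp
    rw [h2]
    nlinarith
  have hx1 : 3 / 2 * (1 / δ) ≤ x := by
    refine le_trans (le_of_eq ?_) hWge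
    field_simp
  have hW2' : ‖∑ i, (1 : ℂ) / (s - z i) ^ 2‖ ≤ x * (1 / δ) := by
    refine hW2.trans (le_of_eq ?_)
    ring
  have h1 : x - 1 / 100 * (1 / δ) ≤ ‖W + B s‖ := by
    have h2 : ‖W‖ ≤ ‖W + B s‖ + ‖B s‖ := by
      calc ‖W‖ = ‖(W + B s) - B s‖ := by rw [add_sub_cancel_right]
        _ ≤ _ := norm_sub_le _ _
    linarith
  have h3 : (x - 1 / 100 * (1 / δ)) ^ 2 ≤ ‖(W + B s) ^ 2‖ := by
    rw [norm_pow]
    exact pow_le_pow_left₀ (by linarith) h1 2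
  have h4 : ‖(W + B s) ^ 2‖ - ‖∑ i, (1 : ℂ) / (s - z i) ^ 2‖ - ‖B' s‖ ≤
      ‖(W + B s) ^ 2 - ∑ i, (1 : ℂ) / (s - z i) ^ 2 + B' s‖ := by
    have h5 : ‖(W + B s) ^ 2‖ ≤ ‖(W + B s) ^ 2 - ∑ i, (1 : ℂ) / (s - z i) ^ 2 + B' s‖ +
        ‖∑ i, (1 : ℂ) / (s - z i) ^ 2‖ + ‖B' s‖ := by
      calc ‖(W + B s) ^ 2‖ = ‖((W + B s) ^ 2 - ∑ i, (1 : ℂ) / (s - z i) ^ 2 + B' s) +
            (∑ i, (1 : ℂ) / (s - z i) ^ 2) - B' s‖ := by congr 1; ring
        _ ≤ _ := (norm_sub_le _ _).trans (add_le_add (norm_add_le _ _) le_rfl)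
    linarith
  have h6 : 1 / (2 * δ ^ 2) = 1 / 2 * (1 / δ) ^ 2 := by field_simp
  rw [h6]
  set y : ℝ := 1 / δ with hy
  have h7 : 1 / 2 * y ^ 2 ≤ (x - 1 / 100 * y) ^ 2 - x * y - 1 / 100 * y ^ 2 := by
    nlinarith [mul_nonneg (sub_nonneg.2 hx1) hδi.le, sq_nonneg (x - 3 / 2 * y)]
  linarith

end Pool.Agent.APX
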