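import Pool.Agent.Lib.APX.Defs

/-!
# MP_af3d17_nt: APX, row D5  (helper32)
-/

set_option autoImplicit false

namespace Pool.Agent.APX

open Filter Topology Asymptotics MeasureTheory Set Pool.Agent.ZP

lemma d5_small (c c0 β : ℝ) (hc0 : 0 < c0) (hβ : 0 < β) :
    ∃ T : ℝ, 3 ≤ T ∧ ∀ t : ℝ, T ≤ t → c * t ^ (-β) ≤ c0 / Real.log t := by
  have h1 : Tendsto (fun t : ℝ => c * (Real.log t / t ^ β)) atTop (𝓝 (c * 0)) :=
    ((isLittleO_log_rpow_atTop hβ).tendsto_div_nhds_zero).const_mul c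
  rw [mul_zero] at h1
  obtain ⟨T, hT⟩ := eventually_atTop.1 (h1.eventually (gt_mem_nhds hc0))
  refine ⟨max T 3, le_max_right _ _, fun t ht => ?_⟩
  have ht3 : 3 ≤ t := (le_max_right _ _).trans ht
  have hlog : 0 < Real.log t := Real.log_pos (by linarith)
  have h2 := (hT t ((le_max_left _ _).trans ht)).le
  rw [le_div_iff₀ hlog, Real.rpow_neg (by linarith)]
  calc c * (t ^ β)⁻¹ * Real.log t = c * (Real.log t / t ^ β) := by
        field_simp
    _ ≤ c0 := h2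

theorem d5 : D5_stmt := by
  intro hD2 hD3 hD4 m κ hm hκ hG
  obtain ⟨Ta, hTa⟩ := hD2 κ (m - 1) hκ hG.1
  obtain ⟨C, Tb, hC, hTb, hF⟩ := hD3 m κ hm hκ hG
  obtain ⟨c0, Tc, hc0, hc1, hTc, hL⟩ := hD4 Ta hTa
  have hm' : (0 : ℝ) < m := by exact_mod_cast hm
  set β : ℝ := (κ + 1) / m with hβ
  have hβ0 : 0 < β := by positivity
  obtain ⟨Td, hTd, hsm⟩ := d5_small (1 / (4 * C)) c0 β hc0 hβ0
  have hC0 : 0 < C := by linarith
  set T0 : ℝ := max (max Ta Tb) (max Tc Td) with hT0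
  have hTa0 : Ta ≤ T0 := (le_max_left _ _).trans (le_max_left _ _)
  have hTb0 : Tb ≤ T0 := (le_max_right _ _).trans (le_max_left _ _)
  have hTc0 : Tc ≤ T0 := (le_max_left _ _).trans (le_max_right _ _)
  have hTd0 : Td ≤ T0 := (le_max_right _ _).trans (le_max_right _ _)
  have key : ∀ ρ ρ' : ℂ, IsUpperZero ρ → IsUpperZero ρ' → T0 < ρ.im →
      (ρ = ρ' → deriv riemannZeta ρ = 0) → ‖ρ - ρ'‖ ≤ 1 / (4 * C) * ρ.im ^ (-β) → False := by
    intro ρ ρ' hρ hρ' ht hdd hle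
    set t : ℝ := ρ.im with htdef
    have ht0 : 0 < t := hρ.2.2.2
    set δ : ℝ := 1 / (4 * C) * t ^ (-β) with hδ
    have htβ : 0 < t ^ β := Real.rpow_pos_of_pos ht0 _
    have hδ0 : 0 < δ := by
      have : 0 < t ^ (-β) := Real.rpow_pos_of_pos ht0 _
      positivity
    have h1 : δ ≤ c0 / Real.log t := hsm t (hTd0.trans ht.le)
    have h2 := hL ρ ρ' δ hρ hρ' (hTc0.trans ht.le) hdd hle hδ0 h1
    have hre : ρ.re = 1 / 2 := hTa ρ hρ (lt_of_le_of_lt hTa0 ht)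
    have hre2 : (ρ + (δ : ℂ)).re = 1 / 2 + δ := by simp [hre]
    have him2 : (ρ + (δ : ℂ)).im = t := by simp [htdef]
    have hlog1 : 1 ≤ Real.log t := by
      rw [Real.le_log_iff_exp_le ht0]
      have := Real.exp_one_lt_d9
      have h100 : (100 : ℝ) ≤ t := by linarith
      linarith
    have hδ1 : δ ≤ 1 := by
      refine h1.trans ?_
      rw [div_le_one (by linarith)]
      linarith
    have h3 := hF (ρ + (δ : ℂ)) (by rw [hre2]; linarith) (by rw [hre2]; linarith)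
      (by rw [him2]; exact lt_of_le_of_lt hTb0 ht)
    rw [hre2, him2, show 1 / 2 + δ - 1 / 2 = δ by ring] at h3
    have h4 : 1 / (2 * δ ^ 2) ≤ C * t ^ β / δ := h2.trans h3
    rw [div_le_div_iff₀ (by positivity) hδ0] at h4
    have h5 : δ * t ^ β = 1 / (4 * C) := by
      rw [hδ, Real.rpow_neg ht0.le]
      field_simp
    have h6 : 1 * δ ≤ (2 * (C * (δ * t ^ β))) * δ := by
      calc 1 * δ ≤ C * t ^ β * (2 * δ ^ 2) := h4
        _ = _ := by ring
    have h7 : 1 ≤ 2 * (C * (δ * t ^ β)) := le_of_mul_le_mul_right h6 hδ0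
    rw [h5] at h7
    have h8 : 2 * (C * (1 / (4 * C))) = 1 / 2 := by
      field_simp
      norm_num
    rw [h8] at h7
    norm_num at h7
  refine ⟨T0, 1 / (4 * C), by positivity, ?_, ?_⟩
  · intro ρ hρ ht
    refine ⟨hTa ρ hρ (lt_of_le_of_lt hTa0 ht), fun hd => ?_⟩
    refine key ρ ρ hρ hρ ht (fun _ => hd) ?_
    have : 0 < ρ.im ^ (-β) := Real.rpow_pos_of_pos hρ.2.2.2 _
    rw [sub_self, norm_zero]
    positivity
  · intro ρ ρ' hρ hρ' ht ht' hne
    by_contra hlt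
    push Not at hlt
    exact key ρ ρ' hρ hρ' ht (fun h => absurd h hne) hlt.le

end Pool.Agent.APX
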