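import Pool.Agent.Lib.APX.Defs
import Pool.Agent.Lib.MP_af3d17_nt_h98.Seq

/-!
# MP_af3d17_nt, row E1: the sequence of the ordinates and the zeros
-/

set_option autoImplicit false

namespace Pool.Agent.APX

open Filter Topology Asymptotics MeasureTheory Set Pool.Agent.ZP

namespace E1x

variable {γ : ℕ → ℝ}

lemma norm_sub_of_line {ρ ρ' : ℂ} (h : ρ.re = 1 / 2) (h' : ρ'.re = 1 / 2) :
    ‖ρ - ρ'‖ = |ρ.im - ρ'.im| := by
  have h1 : (ρ - ρ').re = 0 := by rw [Complex.sub_re, h, h', sub_self]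
  rw [← Complex.abs_im_eq_norm.2 h1, Complex.sub_im]

lemma gap_of_sep (hγ : IsOrdinateSeq γ) {T0 b c : ℝ} (hRH : RH T0)
    (hsep : ∀ ρ ρ' : ℂ, IsUpperZero ρ → IsUpperZero ρ' → T0 < ρ.im →
      T0 < ρ'.im → ρ ≠ ρ' → c * ρ.im ^ (-b) ≤ ‖ρ - ρ'‖) :
    ∀ᶠ n : ℕ in atTop, c * γ n ^ (-b) ≤ γ (n + 1) - γ n := by
  filter_upwards [(tendsto_gamma hγ).eventually_gt_atTop T0] with n hn
  obtain ⟨ρ, h1, h2⟩ := exists_zero_of_index hγ n
  obtain ⟨ρ', h1', h2'⟩ := exists_zero_of_index hγ (n + 1)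
  have h3 := gap_pos hγ hRH hn
  have h4 : T0 < ρ.im := by rw [h2]; exact hn
  have h4' : T0 < ρ'.im := by rw [h2']; exact hn.trans h3
  have hne : ρ ≠ ρ' := by
    rintro rfl
    rw [h2] at h2'
    exact absurd h2' h3.ne
  have h5 := hsep ρ ρ' h1 h1' h4 h4' hne
  rw [norm_sub_of_line (hRH ρ h1 h4).1 (hRH ρ' h1' h4').1, h2, h2', abs_sub_comm,
    abs_of_pos (sub_pos.2 h3)] at h5
  exact h5

lemma alpha_ge (hγ : IsOrdinateSeq γ) {b c : ℝ} (hc : 0 < c) (hb : 0 ≤ b)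
    (hgap : ∀ᶠ n : ℕ in atTop, c * γ n ^ (-b) ≤ γ (n + 1) - γ n) :
    ((-b : ℝ) : EReal) ≤ alpha γ := by
  by_contra hcon
  obtain ⟨a, h1, h2⟩ := EReal.lt_iff_exists_real_btwn.1 (not_le.1 hcon)
  have h2' : a < -b := by exact_mod_cast h2
  -- the choice of `ε`
  have hε : 0 < (-(a + b)) / (2 * (b + 1)) := div_pos (by linarith) (by linarith)
  have hlogt : Tendsto (fun n : ℕ => Real.log ((n : ℝ) + 1)) atTop atTop :=
    Real.tendsto_log_atTop.comp (tendsto_natCast_atTop_atTop.atTop_add tendsto_const_nhds)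
  have h3 : ∃ᶠ n in atTop, gapExponent γ n < (a : EReal) :=
    frequently_lt_of_liminf_lt (by isBoundedDefault) h1
  obtain ⟨n, h4, h5, h6, h7, h8, h9⟩ := (h3.and_eventually (hgap.and ((log_gamma_le hγ hε).and
    (((tendsto_gamma hγ).eventually_gt_atTop 0).and ((hlogt.eventually_gt_atTop 0).and
    (hlogt.eventually_gt_atTop (-Real.log c / ((-(a + b)) / 2)))))))).exists
  have h10 : 0 < c * γ n ^ (-b) := mul_pos hc (Real.rpow_pos_of_pos h7 _)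
  have h11 : 0 < γ (n + 1) - γ n := h10.trans_le h5
  rw [gapExponent, if_neg (sub_pos.1 h11).ne', EReal.coe_lt_coe_iff, div_lt_iff₀ h8] at h4
  have h12 := Real.log_le_log h10 h5
  rw [Real.log_mul hc.ne' (Real.rpow_pos_of_pos h7 _).ne', Real.log_rpow h7] at h12
  rw [div_lt_iff₀ (by linarith)] at h9
  have h13 : b * Real.log (γ n) ≤ b * ((1 + (-(a + b)) / (2 * (b + 1))) * Real.log ((n : ℝ) + 1)) :=
    mul_le_mul_of_nonneg_left h6 hb
  have h14 : b * ((-(a + b)) / (2 * (b + 1))) ≤ (-(a + b)) / 2 := by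
    rw [mul_div_assoc', div_le_div_iff₀ (by linarith) (by norm_num)]
    nlinarith
  have h15 : b * ((-(a + b)) / (2 * (b + 1))) * Real.log ((n : ℝ) + 1) ≤
      (-(a + b)) / 2 * Real.log ((n : ℝ) + 1) := mul_le_mul_of_nonneg_right h14 h8.le
  nlinarith

lemma rh_of_gap (hγ : IsOrdinateSeq γ) {a : ℝ} {N : ℕ} (h0 : 0 < γ N)
    (hN : ∀ n ≥ N, γ n ^ (-a) ≤ γ (n + 1) - γ n) : RH (γ N) := by
  intro ρ hρ hT
  by_contra hcon
  rw [not_and_or] at hcon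
  have hbad : ρ.re ≠ 1 / 2 ∨ analyticOrderAt riemannZeta ρ ≠ 1 := by
    refine hcon.imp id fun h h' => h (deriv_ne_zero_of_order hρ h')
  obtain ⟨n, hn, hn'⟩ := exists_gap_zero hγ hρ hbad
  have h1 : N < n := lt_index hγ (by rw [hn]; exact hT)
  have h2 := hN n h1.le
  rw [hn', sub_self] at h2
  have h3 : 0 < γ n := h0.trans (by rw [hn]; exact hT)
  exact absurd h2 (not_le.2 (Real.rpow_pos_of_pos h3 _))

lemma sep_of_gap (hγ : IsOrdinateSeq γ) {a : ℝ} (ha : 0 < a) {N : ℕ} (h0 : 0 < γ N)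
    (hN : ∀ n ≥ N, γ n ^ (-a) ≤ γ (n + 1) - γ n) (hRH : RH (γ N)) : Sep (γ N) a := by
  -- two zeros in increasing order
  have key : ∀ ρ ρ' : ℂ, IsUpperZero ρ → IsUpperZero ρ' → γ N < ρ.im → ρ.im < ρ'.im →
      ρ.im ^ (-a) ≤ ρ'.im - ρ.im := by
    intro ρ ρ' hρ hρ' hT hlt
    obtain ⟨n, hn⟩ := exists_index_of_zero hγ hρ
    obtain ⟨m, hm⟩ := exists_index_of_zero hγ hρ'
    have h3 : n < m := lt_index hγ (by rw [hn, hm]; exact hlt)
    have h4 : γ (n + 1) ≤ γ m := hγ.mono h3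
    have h1 : N < n := lt_index hγ (by rw [hn]; exact hT)
    have h5 := hN n h1.le
    rw [hn] at h5
    rw [hm] at h4
    linarith
  intro ρ ρ' hρ hρ' hT hT' hne
  rw [norm_sub_of_line (hRH ρ hρ hT).1 (hRH ρ' hρ' hT').1]
  rcases lt_trichotomy ρ.im ρ'.im with h | h | h
  · have h5 := key ρ ρ' hρ hρ' hT h
    rw [abs_sub_comm]
    exact h5.trans (le_abs_self _)
  · exact absurd (Complex.ext ((hRH ρ hρ hT).1.trans (hRH ρ' hρ' hT').1.symm) h) hne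
  · have h5 := key ρ' ρ hρ' hρ hT' h
    have h6 : ρ.im ^ (-a) ≤ ρ'.im ^ (-a) :=
      Real.rpow_le_rpow_of_nonpos (h0.trans hT') h.le (by linarith)
    exact (h6.trans h5).trans (le_abs_self _)

end E1x

theorem e1 : E1_stmt := by
  intro γ hγ
  refine ⟨?_, ?_, ?_⟩
  · intro T0 b c hc hb hRH hsep
    have h1 := E1x.gap_of_sep hγ hRH hsep
    exact ⟨E1x.alpha_ge hγ hc hb h1, h1⟩
  · intro a ha hev
    obtain ⟨N, hN⟩ := (hev.and ((tendsto_gamma hγ).eventually_gt_atTop 0)).exists_forall_of_atTop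
    have h0 : 0 < γ N := (hN N le_rfl).2
    have hN' : ∀ n ≥ N, γ n ^ (-a) ≤ γ (n + 1) - γ n := fun n hn => (hN n hn).1
    have hRH := E1x.rh_of_gap hγ h0 hN'
    exact ⟨γ N, hRH, E1x.sep_of_gap hγ ha h0 hN' hRH⟩
  · intro a _ hlt
    obtain ⟨T0, hRH⟩ := rh_of_alpha hγ (ne_bot_of_gt hlt)
    exact gap_lower hγ hRH hlt

end Pool.Agent.APX
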