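import Pool.Agent.Lib.APX.Defs
import Pool.Agent.Lib.MP_af3d17_nt_h98.Seq

/-!
# MP_af3d17_nt, row E2: the inequalities for the exponent and the limit
-/

set_option autoImplicit false

namespace Pool.Agent.APX

open Filter Topology Asymptotics MeasureTheory Set Pool.Agent.ZP

namespace E2x

/-- every order above `- m α` is good -/
lemma good (hU : U2') (hE : E1_stmt) {γ : ℕ → ℝ} (hγ : IsOrdinateSeq γ) {m : ℕ} (hm : 2 ≤ m)
    {κ : ℝ} (h : ((-(κ / m) : ℝ) : EReal) < alpha γ) : Good m κ := by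
  obtain ⟨-, hE2, hE3⟩ := hE γ hγ
  obtain ⟨a, h1, h2⟩ := EReal.lt_iff_exists_real_btwn.1 h
  have h1' : -(κ / m) < a := by exact_mod_cast h1
  have h3 : a < 0 := by
    have : (a : EReal) < 0 := lt_of_lt_of_le h2 (alpha_le_zero hγ)
    exact_mod_cast this
  have ha : 0 < -a := by linarith
  have h2' : ((-(-a) : ℝ) : EReal) < alpha γ := by rwa [neg_neg]
  obtain ⟨T0, hRH, hSep⟩ := hE2 (-a) ha (hE3 (-a) ha h2')
  have hm0 : (0 : ℝ) < m := by
    have : 0 < m := by omega
    exact_mod_cast this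
  refine hU T0 (-a) κ m hRH ha hSep hm ?_
  have h4 : -a < κ / m := by linarith
  rw [lt_div_iff₀ hm0] at h4
  linarith

/-- a good order gives a lower bound for `α` -/
lemma bad (hD : D5') (hE : E1_stmt) {γ : ℕ → ℝ} (hγ : IsOrdinateSeq γ) {m : ℕ} (hm : 2 ≤ m)
    {κ : ℝ} (hκ : 0 < κ) (hg : Good m κ) : ((-((κ + 1) / m) : ℝ) : EReal) ≤ alpha γ := by
  obtain ⟨T0, c, hc, hRH, hsep⟩ := hD m κ (by omega) hκ hg
  exact ((hE γ hγ).1 T0 ((κ + 1) / m) c hc (by positivity) hRH hsep).1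

/-- the case `α = -∞` -/
lemma kappa_top (hD : D5') (hE : E1_stmt) {γ : ℕ → ℝ} (hγ : IsOrdinateSeq γ) {m : ℕ} (hm : 2 ≤ m)
    (h : alpha γ = ⊥) : kappa m = ⊤ := by
  have h1 : {κ : ℝ | 0 < κ ∧ Good m κ} = ∅ := by
    refine Set.eq_empty_iff_forall_notMem.2 fun κ hκ => ?_
    have h2 := bad hD hE hγ hm hκ.1 hκ.2
    rw [h] at h2
    exact EReal.coe_ne_bot _ (le_bot_iff.1 h2)
  rw [kappa, h1, Set.image_empty, sInf_empty]

/-- the upper bound for real `α` -/
lemma kappa_le (hU : U2') (hE : E1_stmt) {γ : ℕ → ℝ} (hγ : IsOrdinateSeq γ) {m : ℕ} (hm : 2 ≤ m)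
    {x : ℝ} (h : alpha γ = (x : EReal)) : kappa m ≤ ((-(m * x) : ℝ) : EReal) := by
  have hm0 : (0 : ℝ) < m := by
    have : 0 < m := by omega
    exact_mod_cast this
  have hx : x ≤ 0 := by
    have := alpha_le_zero hγ
    rw [h] at this
    exact_mod_cast this
  by_contra hcon
  obtain ⟨y, h1, h2⟩ := EReal.lt_iff_exists_real_btwn.1 (not_le.1 hcon)
  have h1' : -(m * x) < y := by exact_mod_cast h1
  have hy : 0 < y := by nlinarith
  have h3 : Good m y := by
    refine good hU hE hγ hm ?_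
    rw [h, EReal.coe_lt_coe_iff, neg_lt, lt_div_iff₀ hm0]
    linarith
  have h4 : kappa m ≤ (y : EReal) := sInf_le ⟨y, ⟨hy, h3⟩, rfl⟩
  exact absurd h4 (not_le.2 h2)

/-- the lower bound for real `α` -/
lemma le_kappa (hD : D5') (hE : E1_stmt) {γ : ℕ → ℝ} (hγ : IsOrdinateSeq γ) {m : ℕ} (hm : 2 ≤ m)
    {x : ℝ} (h : alpha γ = (x : EReal)) : ((-(m * x) - 1 : ℝ) : EReal) ≤ kappa m := by
  have hm0 : (0 : ℝ) < m := by
    have : 0 < m := by omega
    exact_mod_cast this
  refine le_sInf ?_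
  rintro _ ⟨κ, ⟨hκ, hg⟩, rfl⟩
  have h1 := bad hD hE hγ hm hκ hg
  rw [h, EReal.coe_le_coe_iff, neg_le, le_div_iff₀ hm0] at h1
  show ((-(m * x) - 1 : ℝ) : EReal) ≤ (κ : EReal)
  rw [EReal.coe_le_coe_iff]
  linarith

lemma natCast_coe (m : ℕ) : (m : EReal) = ((m : ℝ) : EReal) := by norm_cast

end E2x

open E2x in
theorem e2 : E2_stmt := by
  intro hU hD hE γ hγ
  have hm0 : ∀ m : ℕ, 2 ≤ m → (0 : ℝ) < m := by
    intro m hm
    have : 0 < m := by omega
    exact_mod_cast this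
  have hcases : alpha γ = ⊥ ∨ ∃ x : ℝ, alpha γ = (x : EReal) := by
    have h0 := alpha_le_zero hγ
    generalize alpha γ = α at h0
    induction α with
    | bot => exact Or.inl rfl
    | coe x => exact Or.inr ⟨x, rfl⟩
    | top => exact absurd h0 (by simp)
  rcases hcases with h | ⟨x, h⟩
  · have htop : ∀ m : ℕ, 2 ≤ m → -((m : EReal) * alpha γ) = ⊤ := by
      intro m hm
      rw [h, natCast_coe, EReal.coe_mul_bot_of_pos (hm0 m hm), EReal.neg_bot]
    refine ⟨fun m hm => ?_, ?_⟩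
    · rw [htop m hm, kappa_top hD hE hγ hm h]
      refine ⟨le_rfl, ?_⟩
      have : (1 : EReal) = ((1 : ℝ) : EReal) := by norm_cast
      rw [this, EReal.top_add_coe]
    · rw [h, EReal.neg_bot]
      refine tendsto_const_nhds.congr' ?_
      filter_upwards [eventually_ge_atTop 2] with m hm
      rw [kappa_top hD hE hγ hm h, natCast_coe, EReal.top_div_of_pos_ne_top]
      · exact_mod_cast hm0 m hm
      · exact EReal.coe_ne_top _
  · have hmul : ∀ m : ℕ, -((m : EReal) * alpha γ) = ((-(m * x) : ℝ) : EReal) := by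
      intro m
      rw [h, natCast_coe, ← EReal.coe_mul, ← EReal.coe_neg]
    have hlow : ∀ m : ℕ, 2 ≤ m → ((-(m * x) - 1 : ℝ) : EReal) ≤ kappa m :=
      fun m hm => le_kappa hD hE hγ hm h
    have hup : ∀ m : ℕ, 2 ≤ m → kappa m ≤ ((-(m * x) : ℝ) : EReal) :=
      fun m hm => kappa_le hU hE hγ hm h
    refine ⟨fun m hm => ?_, ?_⟩
    · rw [hmul]
      refine ⟨hup m hm, ?_⟩
      have h1 := add_le_add (hlow m hm) (le_refl (1 : EReal))
      have h2 : ((-(m * x) - 1 : ℝ) : EReal) + 1 = ((-(m * x) : ℝ) : EReal) := by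
        have : (1 : EReal) = ((1 : ℝ) : EReal) := by norm_cast
        rw [this, ← EReal.coe_add]
        congr 1
        ring
      rwa [h2] at h1
    · rw [h, ← EReal.coe_neg]
      have hb : Tendsto (fun m : ℕ => ((-x - 1 / (m : ℝ) : ℝ) : EReal)) atTop
          (𝓝 ((-x : ℝ) : EReal)) := by
        refine (continuous_coe_real_ereal.tendsto _).comp ?_
        have h1 : Tendsto (fun m : ℕ => -x - 1 / (m : ℝ)) atTop (𝓝 (-x - 0)) :=
          tendsto_const_nhds.sub tendsto_one_div_atTop_nhds_zero_nat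
        rwa [sub_zero] at h1
      refine tendsto_of_tendsto_of_tendsto_of_le_of_le' hb
        (tendsto_const_nhds (x := ((-x : ℝ) : EReal))) ?_ ?_
      · filter_upwards [eventually_ge_atTop 2] with m hm
        have hm1 := hm0 m hm
        rw [natCast_coe, EReal.le_div_iff_mul_le (by exact_mod_cast hm1) (EReal.coe_ne_top _),
          ← EReal.coe_mul]
        refine le_trans (le_of_eq ?_) (hlow m hm)
        congr 1
        field_simp
      · filter_upwards [eventually_ge_atTop 2] with m hm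
        have hm1 := hm0 m hm
        rw [natCast_coe, EReal.div_le_iff_le_mul (by exact_mod_cast hm1) (EReal.coe_ne_top _),
          ← EReal.coe_mul]
        refine le_trans (hup m hm) (le_of_eq ?_)
        congr 1
        ring

end Pool.Agent.APX
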