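import Mathlib
import Pool.Agent.Lib.APX.Loc

/-!
Row L1: trivial bounds if the zeros are on the line.
-/

set_option autoImplicit false

namespace Pool.Agent.APX

open Filter Topology Pool.Agent.ZP

lemma norm_sub_ge {s z : ℂ} (hz : z.re = 1 / 2) (hs : 1 / 2 < s.re) : s.re - 1 / 2 ≤ ‖s - z‖ := by
  have h := Complex.abs_re_le_norm (s - z)
  rw [Complex.sub_re, hz] at h
  exact (le_abs_self _).trans h

theorem l1 : L1_stmt := by
  intro T0 hT0
  obtain ⟨C, T1, hC, hT1, hloc⟩ := Loc.loc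
  refine ⟨64 * C ^ 2, max T1 (T0 + 20), by nlinarith, hT1.trans (le_max_left _ _),
    le_max_right _ _, fun s hs1 hs2 hsT => ?_⟩
  have ht1 : T1 ≤ s.im := (le_max_left _ _).trans hsT
  have ht2 : T0 + 20 ≤ s.im := (le_max_right _ _).trans hsT
  have ht0 : 100 ≤ s.im := hT1.trans ht1
  obtain ⟨k, z, B, B', hk, hz, -, -, hF⟩ := hloc s.im ht1
  have hz2 : ∀ i, (z i).re = 1 / 2 := fun i => hT0 (z i) (hz i).2.2.2 (by linarith [(hz i).1])
  have hs0 : riemannZeta s ≠ 0 := by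
    intro h0
    have hlt : s.re < 1 := by
      by_contra hcon
      push Not at hcon
      exact riemannZeta_ne_zero_of_one_le_re hcon h0
    have := hT0 s ⟨h0, by linarith, hlt, by linarith⟩ (by linarith)
    linarith
  refine ⟨hs0, ?_⟩
  obtain ⟨e1, e2, b1, b2⟩ := hF s (by nlinarith) hs0
  set δ : ℝ := s.re - 1 / 2 with hδ
  have hδ0 : 0 < δ := by rw [hδ]; linarith
  have hδ1 : δ ≤ 3 / 2 := by rw [hδ]; linarith
  set L : ℝ := Real.log s.im with hL
  have hL1 : 1 ≤ L := by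
    rw [hL, Real.le_log_iff_exp_le (by linarith)]
    have := Real.exp_one_lt_d9
    linarith
  have hCL : 1 ≤ C * L := by nlinarith
  have hn : ∀ i, ‖(1 : ℂ) / (s - z i)‖ ≤ 1 / δ := by
    intro i
    rw [norm_div, norm_one]
    exact one_div_le_one_div_of_le hδ0 (norm_sub_ge (hz2 i) hs1)
  have hS1 : ‖∑ i, (1 : ℂ) / (s - z i)‖ ≤ C * L / δ := by
    refine (norm_sum_le _ _).trans ?_
    calc ∑ i, ‖(1 : ℂ) / (s - z i)‖ ≤ ∑ _i : Fin k, 1 / δ := Finset.sum_le_sum fun i _ => hn i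
      _ = k * (1 / δ) := by simp
      _ ≤ C * L * (1 / δ) := mul_le_mul_of_nonneg_right hk (by positivity)
      _ = _ := by ring
  have hS2 : ‖∑ i, (1 : ℂ) / (s - z i) ^ 2‖ ≤ C * L / δ ^ 2 := by
    refine (norm_sum_le _ _).trans ?_
    calc ∑ i, ‖(1 : ℂ) / (s - z i) ^ 2‖ ≤ ∑ _i : Fin k, (1 / δ) ^ 2 := by
          refine Finset.sum_le_sum fun i _ => ?_
          have : (1 : ℂ) / (s - z i) ^ 2 = (1 / (s - z i)) ^ 2 := by rw [div_pow, one_pow]
          rw [this, norm_pow]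
          exact pow_le_pow_left₀ (norm_nonneg _) (hn i) 2
      _ = k * (1 / δ) ^ 2 := by simp
      _ ≤ C * L * (1 / δ) ^ 2 := mul_le_mul_of_nonneg_right hk (by positivity)
      _ = _ := by ring
  have hB1 : ‖B s‖ ≤ 3 / 2 * (C * L / δ) := by
    refine b1.trans ?_
    rw [mul_div_assoc', le_div_iff₀ hδ0]
    nlinarith
  have hs3 : ‖∑ i, (1 : ℂ) / (s - z i) + B s‖ ≤ 5 / 2 * (C * L / δ) := by
    refine (norm_add_le _ _).trans ?_
    linarith
  have hCLδ : 0 ≤ C * L / δ := by positivity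
  constructor
  · rw [e1, norm_neg]
    refine hs3.trans ?_
    calc 5 / 2 * (C * L / δ) ≤ 64 * C * (C * L / δ) := by nlinarith
      _ = 64 * C ^ 2 * L / δ := by ring
  · rw [e2]
    have h1 : ‖(∑ i, (1 : ℂ) / (s - z i) + B s) ^ 2‖ ≤ 25 / 4 * (C * L / δ) ^ 2 := by
      rw [norm_pow]
      calc ‖∑ i, (1 : ℂ) / (s - z i) + B s‖ ^ 2 ≤ (5 / 2 * (C * L / δ)) ^ 2 :=
            pow_le_pow_left₀ (norm_nonneg _) hs3 2
        _ = _ := by ring
    have h2 : C * L / δ ^ 2 ≤ (C * L / δ) ^ 2 := by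
      rw [div_pow]
      exact div_le_div_of_nonneg_right (by nlinarith) (by positivity)
    have h3 : C * L ≤ 9 / 4 * (C * L / δ) ^ 2 := by
      rw [div_pow, mul_div_assoc', le_div_iff₀ (by positivity)]
      have h4 : δ ^ 2 ≤ 9 / 4 := by nlinarith
      have h5 : C * L ≤ (C * L) ^ 2 := by nlinarith
      calc C * L * δ ^ 2 ≤ (C * L) ^ 2 * (9 / 4) := by
            exact mul_le_mul h5 h4 (by positivity) (by positivity)
        _ = _ := by ring
    calc ‖(∑ i, (1 : ℂ) / (s - z i) + B s) ^ 2 - ∑ i, (1 : ℂ) / (s - z i) ^ 2 + B' s‖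
        ≤ ‖(∑ i, (1 : ℂ) / (s - z i) + B s) ^ 2‖ + ‖∑ i, (1 : ℂ) / (s - z i) ^ 2‖ + ‖B' s‖ :=
          (norm_add_le _ _).trans (add_le_add (norm_sub_le _ _) le_rfl)
      _ ≤ 64 * (C * L / δ) ^ 2 := by
          have : 0 ≤ (C * L / δ) ^ 2 := by positivity
          linarith
      _ = 64 * C ^ 2 * L ^ 2 / δ ^ 2 := by ring

end Pool.Agent.APX
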