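import Pool.Agent.Lib.APX.Defs

/-!
# MP_af3d17_nt, APX: row M1, the principal parts in a compact set
-/

set_option autoImplicit false

namespace Pool.Agent.APX

open Filter Topology Set

namespace M1x

/-- The principal part at a point. -/
lemma principal (z : ℂ) (n : ℕ) : ∀ (f G : ℂ → ℂ), AnalyticAt ℂ G z →
    (∀ᶠ s in 𝓝[≠] z, (s - z) ^ n * f s = G s) →
    ∃ (c : ℕ → ℂ) (h : ℂ → ℂ), AnalyticAt ℂ h z ∧
      ∀ᶠ s in 𝓝[≠] z, f s = ∑ j ∈ Finset.range n, c j / (s - z) ^ (j + 1) + h s := by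
  induction n with
  | zero =>
    intro f G hG h
    exact ⟨0, G, hG, by filter_upwards [h] with s hs; simpa using hs⟩
  | succ n ih =>
    intro f G hG h
    have hG1 : AnalyticAt ℂ (dslope G z) z := by
      obtain ⟨p, hp⟩ := hG
      exact ⟨_, hp.has_fpower_series_dslope_fslope⟩
    obtain ⟨c, h', hh, hc⟩ := ih (fun s => f s - G z / (s - z) ^ (n + 1)) (dslope G z) hG1 (by
      filter_upwards [h, self_mem_nhdsWithin] with s hs hsz
      have hne : s - z ≠ 0 := sub_ne_zero.2 hsz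
      rw [dslope_of_ne _ hsz, slope_def_field, ← hs]
      field_simp
      ring)
    refine ⟨Function.update c n (G z), h', hh, ?_⟩
    filter_upwards [hc] with s hs
    rw [Finset.sum_range_succ, Function.update_self]
    have e : ∑ j ∈ Finset.range n, Function.update c n (G z) j / (s - z) ^ (j + 1) =
        ∑ j ∈ Finset.range n, c j / (s - z) ^ (j + 1) := by
      refine Finset.sum_congr rfl fun j hj => ?_
      rw [Function.update_of_ne (Finset.mem_range.1 hj).ne]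
    rw [e]
    linear_combination hs

/-- The points of a compact set where a meromorphic function is not analytic. -/
lemma bad_finite (f : ℂ → ℂ) (K : Set ℂ) (hK : IsCompact K) (hf : ∀ z ∈ K, MeromorphicAt f z) :
    {z | z ∈ K ∧ ¬ AnalyticAt ℂ f z}.Finite := by
  obtain ⟨t, -, hcov⟩ := hK.elim_nhds_subcover (fun x => {y | y ≠ x → AnalyticAt ℂ f y}) (by
    intro x hx
    exact eventually_nhdsWithin_iff.1 (hf x hx).eventually_analyticAt)
  refine t.finite_toSet.subset fun z hz => ?_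
  have h1 := hcov hz.1
  rw [mem_iUnion₂] at h1
  obtain ⟨x, hx, hzx⟩ := h1
  by_cases h2 : z = x
  · rw [h2]; exact hx
  · exact absurd (hzx h2) hz.2

end M1x

open M1x in
/-- Row M1. -/
theorem m1 : M1_stmt := by
  classical
  intro f T0 hf han
  rcases lt_or_ge T0 0 with hT | hT
  · refine ⟨T0, ∅, 0, f, 0, le_rfl, by linarith, by simp, ?_, by simp, ?_⟩
    · intro s hs
      exact (han s hs (Or.inr (hT.le.trans (abs_nonneg _)))).differentiableAt.differentiableWithinAt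
    · intro s _ _ h
      exact absurd (h.trans_lt hT) (not_lt.2 (abs_nonneg _))
  -- the bad points
  set K₁ : Set ℂ := Icc (1 / 2) 2 ×ℂ Icc (-(T0 + 1)) (T0 + 1) with hK₁
  have hK₁c : IsCompact K₁ := isCompact_Icc.reProdIm isCompact_Icc
  have hK₁m : ∀ z : ℂ, z ∈ K₁ ↔ (1 / 2 ≤ z.re ∧ z.re ≤ 2) ∧ |z.im| ≤ T0 + 1 := by
    intro z
    rw [hK₁, Complex.mem_reProdIm, mem_Icc, mem_Icc, abs_le]
  have hbad := bad_finite f K₁ hK₁c fun z hz => hf z (by
    have := ((hK₁m z).1 hz).1.1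
    show 1 / 4 < z.re
    linarith)
  set Bad : Set ℂ := {z | z ∈ K₁ ∧ ¬ AnalyticAt ℂ f z} with hBad
  obtain ⟨T', hT'1, hT'2⟩ : ∃ T' ∈ Ioo T0 (T0 + 1), T' ∉ (fun z : ℂ => |z.im|) '' Bad :=
    (Ioo_infinite (show T0 < T0 + 1 by linarith)).exists_notMem_finite
      (hbad.image fun z : ℂ => |z.im|)
  have hT'0 : 0 < T' := hT.trans_lt hT'1.1
  set B : Finset ℂ := hbad.toFinset.filter fun z => |z.im| < T' with hB
  have hBm : ∀ z : ℂ, z ∈ B ↔ (z ∈ K₁ ∧ ¬ AnalyticAt ℂ f z) ∧ |z.im| < T' := by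
    intro z
    rw [hB, Finset.mem_filter, Set.Finite.mem_toFinset]
    rfl
  have hB2 : ∀ z ∈ B, 1 / 2 ≤ z.re ∧ z.re < 2 ∧ |z.im| < T' := by
    intro z hz
    obtain ⟨⟨h1, h2⟩, h3⟩ := (hBm z).1 hz
    rw [hK₁m] at h1
    refine ⟨h1.1.1, lt_of_le_of_ne h1.1.2 fun h4 => h2 ?_, h3⟩
    exact han z (by rw [h4]; norm_num) (Or.inl h4.ge)
  have hgood : ∀ s : ℂ, 1 / 2 ≤ s.re → s.re ≤ 2 → |s.im| ≤ T' → s ∉ B → AnalyticAt ℂ f s := by
    intro s h1 h2 h3 h4
    by_contra h5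
    have h6 : s ∈ K₁ := (hK₁m s).2 ⟨⟨h1, h2⟩, h3.trans hT'1.2.le⟩
    have h7 : |s.im| ≠ T' := fun h => hT'2 ⟨s, ⟨h6, h5⟩, h⟩
    exact h4 ((hBm s).2 ⟨⟨h6, h5⟩, lt_of_le_of_ne h3 h7⟩)
  -- the principal parts
  have hpr : ∀ z : ℂ, ∃ (n : ℕ) (c : ℕ → ℂ) (h : ℂ → ℂ), z ∈ B → AnalyticAt ℂ h z ∧
      ∀ᶠ s in 𝓝[≠] z, f s = ∑ j ∈ Finset.range n, c j / (s - z) ^ (j + 1) + h s := by
    intro z
    by_cases hz : z ∈ B
    · have h1 : MeromorphicAt f z := hf z (by
        have := (hB2 z hz).1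
        show 1 / 4 < z.re
        linarith)
      obtain ⟨n, hn⟩ := h1
      obtain ⟨c, h, h2, h3⟩ := principal z n f _ hn (Eventually.of_forall fun s => by
        simp [smul_eq_mul])
      exact ⟨n, c, h, fun _ => ⟨h2, h3⟩⟩
    · exact ⟨0, 0, 0, fun h => absurd h hz⟩
  choose n c h hpr using hpr
  set N : ℕ := B.sup n with hN
  set cc : ℂ × ℕ → ℂ := fun p => if p.2 < n p.1 then c p.1 p.2 else 0 with hcc
  set R : ℂ → ℂ → ℂ := fun z s => ∑ j ∈ Finset.range N, cc (z, j) / (s - z) ^ (j + 1) with hR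
  have hRan : ∀ z s : ℂ, s ≠ z → AnalyticAt ℂ (R z) s := by
    intro z s hsz
    have hne : s - z ≠ 0 := sub_ne_zero.2 hsz
    refine Finset.analyticAt_fun_sum _ fun j _ => ?_
    exact analyticAt_const.div ((analyticAt_id.sub analyticAt_const).pow _) (pow_ne_zero _ hne)
  have hRz : ∀ z ∈ B, ∀ᶠ s in 𝓝[≠] z, f s = R z s + h z s := by
    intro z hz
    filter_upwards [(hpr z hz).2] with s hs
    rw [hs]
    congr 1
    have h1 : n z ≤ N := Finset.le_sup (f := n) hz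
    rw [hR]
    simp only
    rw [← Finset.sum_subset (Finset.range_subset_range.2 h1)]
    · refine Finset.sum_congr rfl fun j hj => ?_
      rw [hcc]
      simp only
      rw [if_pos (Finset.mem_range.1 hj)]
    · intro j _ hj
      rw [hcc]
      simp only
      rw [if_neg (by rwa [Finset.mem_range] at hj), zero_div]
  set H : ℂ → ℂ := fun s => if s ∈ B then h s s - ∑ w ∈ B.erase s, R w s
    else f s - ∑ w ∈ B, R w s with hH
  have hBcl : ∀ s : ℂ, s ∉ B → ∀ᶠ y in 𝓝 s, y ∉ B := fun s hs =>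
    (B.finite_toSet.isClosed.isOpen_compl).mem_nhds hs
  have hHan1 : ∀ s : ℂ, s ∉ B → AnalyticAt ℂ f s → AnalyticAt ℂ H s := by
    intro s hs hfs
    have h1 : AnalyticAt ℂ (fun y => f y - ∑ w ∈ B, R w y) s :=
      hfs.sub (Finset.analyticAt_fun_sum _ fun w hw => hRan w s fun h => hs (h ▸ hw))
    refine h1.congr ?_
    filter_upwards [hBcl s hs] with y hy
    rw [hH]
    simp only
    rw [if_neg hy]
  have hHan2 : ∀ z ∈ B, AnalyticAt ℂ H z := by
    intro z hz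
    have h1 : AnalyticAt ℂ (fun y => h z y - ∑ w ∈ B.erase z, R w y) z :=
      (hpr z hz).1.sub (Finset.analyticAt_fun_sum _ fun w hw =>
        hRan w z (Finset.ne_of_mem_erase hw).symm)
    refine h1.congr ?_
    have h2 : ∀ᶠ y in 𝓝 z, y ∉ B.erase z :=
      ((B.erase z).finite_toSet.isClosed.isOpen_compl).mem_nhds (Finset.notMem_erase z B)
    filter_upwards [h2, eventually_nhdsWithin_iff.1 (hRz z hz)] with y hy1 hy2
    by_cases hyz : y = z
    · rw [hyz, hH]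
      simp only
      rw [if_pos hz]
    · have hyB : y ∉ B := fun h3 => hy1 (Finset.mem_erase.2 ⟨hyz, h3⟩)
      rw [hH]
      simp only
      rw [if_neg hyB, hy2 hyz, ← Finset.add_sum_erase B (fun w => R w y) hz]
      ring
  set S : Finset (ℂ × ℕ) := B ×ˢ Finset.range N with hS
  have hSsum : ∀ s : ℂ, ∑ p ∈ S, cc p / (s - p.1) ^ (p.2 + 1) = ∑ w ∈ B, R w s := by
    intro s
    rw [hS, Finset.sum_product]
  have hK'an : ∀ s : ℂ, 1 / 2 ≤ s.re → s.re ≤ 2 → |s.im| ≤ T' → AnalyticAt ℂ H s := by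
    intro s h1 h2 h3
    by_cases h4 : s ∈ B
    · exact hHan2 s h4
    · exact hHan1 s h4 (hgood s h1 h2 h3 h4)
  have hout : ∀ s : ℂ, (2 ≤ s.re ∨ T' ≤ |s.im|) → s ∉ B := by
    intro s h1 h2
    obtain ⟨-, h3, h4⟩ := hB2 s h2
    rcases h1 with h1 | h1 <;> linarith
  obtain ⟨C, hC⟩ := (isCompact_Icc.reProdIm isCompact_Icc :
    IsCompact (Icc (1 / 2 : ℝ) 2 ×ℂ Icc (-T') T')).exists_bound_of_continuousOn (f := H) (by
      intro s hs
      rw [Complex.mem_reProdIm, mem_Icc, mem_Icc, ← abs_le] at hs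
      exact (hK'an s hs.1.1 hs.1.2 hs.2).continuousAt.continuousWithinAt)
  refine ⟨T', S, cc, H, C, hT'1.1.le, hT'1.2.le, ?_, ?_, ?_, ?_⟩
  · intro p hp
    rw [hS, Finset.mem_product] at hp
    exact hB2 p.1 hp.1
  · intro s hs
    refine AnalyticAt.differentiableWithinAt ?_
    have hs' : 1 / 2 < s.re := hs
    by_cases h1 : 2 ≤ s.re ∨ T' ≤ |s.im|
    · refine hHan1 s (hout s h1) (han s hs' ?_)
      rcases h1 with h1 | h1
      · exact Or.inl h1
      · exact Or.inr (hT'1.1.le.trans h1)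
    · rw [not_or, not_le, not_le] at h1
      exact hK'an s hs'.le h1.1.le h1.2.le
  · intro s _ h2
    rw [hSsum, hH]
    simp only
    rw [if_neg (hout s h2)]
  · intro s h1 h2 h3
    refine hC s ?_
    rw [Complex.mem_reProdIm, mem_Icc, mem_Icc, ← abs_le]
    exact ⟨⟨h1.le, h2⟩, h3⟩

end Pool.Agent.APX
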