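import Mathlib
import Pool.Agent.Lib.APX.Defs

/-!
MP_af3d17_nt, APX, row R2: the Dirichlet series of the convolution powers of Selberg's function.
(helper73)
-/

set_option autoImplicit false

namespace Pool.Agent.APX

open Filter Topology Set LSeries

namespace R2x

/-- the complex version of a real arithmetic function -/
noncomputable def toC (f : ArithmeticFunction ℝ) : ArithmeticFunction ℂ :=
  ⟨fun n => ((f n : ℝ) : ℂ), by simp⟩

lemma toC_apply (f : ArithmeticFunction ℝ) (n : ℕ) : toC f n = ((f n : ℝ) : ℂ) := rfl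

lemma toC_one : toC 1 = 1 := by
  ext n
  rw [toC_apply]
  by_cases h : n = 1
  · subst h; simp
  · rw [ArithmeticFunction.one_apply_ne h, ArithmeticFunction.one_apply_ne h]
    simp

lemma toC_mul (f g : ArithmeticFunction ℝ) : toC (f * g) = toC f * toC g := by
  ext n
  rw [toC_apply, ArithmeticFunction.mul_apply, ArithmeticFunction.mul_apply]
  push_cast
  rfl

lemma toC_add (f g : ArithmeticFunction ℝ) : toC (f + g) = toC f + toC g := by
  ext n
  rw [toC_apply, ArithmeticFunction.add_apply, ArithmeticFunction.add_apply]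
  push_cast
  rfl

/-- von Mangoldt as a complex function -/
noncomputable def L (n : ℕ) : ℂ := ((ArithmeticFunction.vonMangoldt n : ℝ) : ℂ)

lemma summable_L {s : ℂ} (hs : 1 < s.re) : LSeriesSummable L s :=
  ArithmeticFunction.LSeriesSummable_vonMangoldt hs

lemma absc_L : abscissaOfAbsConv L ≤ 1 := by
  have h := LSeries.abscissaOfAbsConv_le_of_forall_lt_LSeriesSummable' (f := L) (x := (1 : EReal))
    (fun y hy => summable_L (by
      have : (1 : ℝ) < y := by exact_mod_cast hy
      simpa using this))
  exact h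

lemma lt_re {s : ℂ} (hs : 1 < s.re) : abscissaOfAbsConv L < s.re :=
  absc_L.trans_lt (by exact_mod_cast hs)

lemma LSeries_L {s : ℂ} (hs : 1 < s.re) : LSeries L s = GG s := by
  unfold GG
  have := ArithmeticFunction.LSeries_vonMangoldt_eq_deriv_riemannZeta_div hs
  rw [show LSeries L s = LSeries (fun n => ((ArithmeticFunction.vonMangoldt n : ℝ) : ℂ)) s from rfl, this]

lemma isOpen_half : IsOpen {s : ℂ | 1 < s.re} := isOpen_lt continuous_const Complex.continuous_re

lemma deriv_L {s : ℂ} (hs : 1 < s.re) : deriv (LSeries L) s = deriv GG s := by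
  refine Filter.EventuallyEq.deriv_eq ?_
  filter_upwards [isOpen_half.mem_nhds hs] with z hz
  exact LSeries_L hz

lemma ne_zero {s : ℂ} (hs : 1 < s.re) : riemannZeta s ≠ 0 :=
  riemannZeta_ne_zero_of_one_lt_re hs

lemma ne_one {s : ℂ} (hs : 1 < s.re) : s ≠ 1 := by
  rintro rfl
  simp at hs

lemma analytic {s : ℂ} (hs : 1 < s.re) : AnalyticAt ℂ riemannZeta s := by
  have : DifferentiableOn ℂ riemannZeta {z : ℂ | 1 < z.re} := fun z hz =>
    (differentiableAt_riemannZeta (ne_one hz)).differentiableWithinAt
  exact this.analyticAt (isOpen_half.mem_nhds hs)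

lemma deriv_GG {s : ℂ} (hs : 1 < s.re) : GG s ^ 2 - deriv GG s = FF s := by
  have h0 := ne_zero hs
  have h1 : DifferentiableAt ℂ riemannZeta s := (analytic hs).differentiableAt
  have h2 : DifferentiableAt ℂ (deriv riemannZeta) s := (analytic hs).deriv.differentiableAt
  have e : deriv GG s = -(deriv (deriv riemannZeta) s * riemannZeta s
      - deriv riemannZeta s * deriv riemannZeta s) / riemannZeta s ^ 2 := by
    have e1 : GG = fun z => -(deriv riemannZeta z) / riemannZeta z := rfl
    rw [e1]
    have := (h2.hasDerivAt.neg.div h1.hasDerivAt h0).deriv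
    refine Eq.trans this ?_
    congr 1
    simp only [Pi.neg_apply]
    ring
  rw [e]
  unfold GG FF
  field_simp
  ring

/-- the complex version of `Λ log` -/
lemma logMul_eq : (fun n => ((ArithmeticFunction.pmul ArithmeticFunction.vonMangoldt
    ArithmeticFunction.log n : ℝ) : ℂ)) = logMul L := by
  funext n
  unfold logMul L
  rw [ArithmeticFunction.pmul_apply, ArithmeticFunction.log_apply]
  rw [← Complex.natCast_log]
  push_cast
  ring

lemma sel_has {s : ℂ} (hs : 1 < s.re) : LSeriesSummable (toC sel) s ∧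
    LSeries (toC sel) s = FF s := by
  have a1 : LSeriesSummable (logMul L) s := LSeriesSummable_logMul_of_lt_re (lt_re hs)
  have a2 : LSeries (logMul L) s = - deriv GG s := by
    have := LSeries_deriv (lt_re hs)
    rw [← deriv_L hs, this, neg_neg]
  have c1 : (toC ArithmeticFunction.vonMangoldt : ℕ → ℂ) = L := rfl
  have b1 : LSeriesSummable (toC ArithmeticFunction.vonMangoldt) s := by
    rw [c1]; exact summable_L hs
  have b2 := ArithmeticFunction.LSeriesSummable_mul b1 b1
  have b3 := ArithmeticFunction.LSeries_mul' b1 b1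
  have b3' : LSeries (fun n => (toC ArithmeticFunction.vonMangoldt *
      toC ArithmeticFunction.vonMangoldt : ArithmeticFunction ℂ) n) s = GG s ^ 2 := by
    rw [b3, c1, LSeries_L hs, pow_two]
  have e : (toC sel : ℕ → ℂ) = logMul L +
      (toC ArithmeticFunction.vonMangoldt * toC ArithmeticFunction.vonMangoldt :
        ArithmeticFunction ℂ) := by
    rw [← logMul_eq, ← toC_mul]
    funext n
    rw [Pi.add_apply, toC_apply, toC_apply]
    unfold sel
    rw [ArithmeticFunction.add_apply]
    push_cast
    rfl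
  rw [e]
  refine ⟨a1.add b2, ?_⟩
  rw [LSeries_add a1 b2, a2, b3', ← deriv_GG hs]
  ring

lemma pow_has (m : ℕ) {s : ℂ} (hs : 1 < s.re) : LSeriesSummable (toC (sel ^ m)) s ∧
    LSeries (toC (sel ^ m)) s = FF s ^ m := by
  induction m with
  | zero =>
    rw [pow_zero, pow_zero, toC_one]
    have e : ((1 : ArithmeticFunction ℂ) : ℕ → ℂ) = LSeries.delta :=
      ArithmeticFunction.one_eq_delta
    rw [e]
    refine ⟨?_, by rw [LSeries_delta]; rfl⟩
    unfold LSeriesSummable
    refine summable_of_ne_finset_zero (s := {1}) fun n hn => ?_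
    rw [LSeries.term_delta, if_neg (by simpa using hn)]
  | succ m ih =>
    rw [pow_succ, toC_mul, pow_succ]
    obtain ⟨h1, h2⟩ := ih
    obtain ⟨h3, h4⟩ := sel_has hs
    exact ⟨ArithmeticFunction.LSeriesSummable_mul h1 h3, by
      rw [ArithmeticFunction.LSeries_mul' h1 h3, h2, h4]⟩

lemma sel_nonneg (n : ℕ) : 0 ≤ sel n := by
  unfold sel
  rw [ArithmeticFunction.add_apply, ArithmeticFunction.pmul_apply, ArithmeticFunction.mul_apply,
    ArithmeticFunction.log_apply]
  refine add_nonneg (mul_nonneg ArithmeticFunction.vonMangoldt_nonneg (Real.log_natCast_nonneg n))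
    (Finset.sum_nonneg fun _ _ => mul_nonneg ArithmeticFunction.vonMangoldt_nonneg
      ArithmeticFunction.vonMangoldt_nonneg)

lemma pow_nonneg' (m : ℕ) (n : ℕ) : 0 ≤ (sel ^ m) n := by
  induction m generalizing n with
  | zero =>
    rw [pow_zero]
    by_cases h : n = 1
    · subst h; simp
    · rw [ArithmeticFunction.one_apply_ne h]
  | succ m ih =>
    rw [pow_succ, ArithmeticFunction.mul_apply]
    exact Finset.sum_nonneg fun x _ => mul_nonneg (ih _) (sel_nonneg _)

end R2x

open R2x

theorem r2 : R2_stmt := fun m =>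
  ⟨⟨fun n => pow_nonneg' m n, fun _ hs => (pow_has m hs).1⟩, fun _ hs => (pow_has m hs).2⟩

end Pool.Agent.APX
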