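import Mathlib
import Pool.Agent.Lib.APX.Defs

/-!
# MP_af3d17_nt, almost primes: row T1, the transform of the Riesz means.  (helper21)
-/

set_option autoImplicit false

namespace Pool.Agent.APX

open Filter Topology Asymptotics MeasureTheory Set Pool.Agent.ZP

namespace T1x

/-- `log(x / c)^κ`, `0` for `x ≤ c`. -/
noncomputable def lk (κ c x : ℝ) : ℝ := (max (Real.log (x / c)) 0) ^ κ

lemma lk_nonneg (κ c x : ℝ) : 0 ≤ lk κ c x := Real.rpow_nonneg (le_max_right _ _) _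

lemma lk_zero {κ c x : ℝ} (hκ : 0 < κ) (hc : 0 < c) (hx : 0 ≤ x) (hxc : x ≤ c) : lk κ c x = 0 := by
  unfold lk
  rw [max_eq_right (Real.log_nonpos (div_nonneg hx hc.le) ((div_le_one hc).2 hxc)),
    Real.zero_rpow hκ.ne']

lemma lk_eq {κ c x : ℝ} (hc : 0 < c) (hx : c ≤ x) : lk κ c x = Real.log (x / c) ^ κ := by
  unfold lk
  rw [max_eq_left (Real.log_nonneg ((one_le_div hc).2 hx))]

lemma lk_cont {κ c : ℝ} (hκ : 0 < κ) (hc : 0 < c) : ContinuousOn (lk κ c) (Ioi 0) := by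
  unfold lk
  refine ContinuousOn.rpow_const ?_ fun x _ => Or.inr hκ.le
  refine ContinuousOn.sup ?_ continuousOn_const
  refine ContinuousOn.log (continuousOn_id.div_const c) fun x hx => ?_
  have : 0 < x := hx
  exact (div_pos this hc).ne'

lemma lk_cont' {κ c : ℝ} (hκ : 0 < κ) (hc : 0 < c) : Continuous fun x => lk κ c (max x 1) :=
  (lk_cont hκ hc).comp_continuous (by fun_prop) fun x =>
    mem_Ioi.2 (lt_of_lt_of_le one_pos (le_max_right _ _))

lemma lk_scale {κ c : ℝ} (hc : 0 < c) (x : ℝ) : lk κ c (c * x) = lk κ 1 x := by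
  unfold lk
  rw [mul_div_cancel_left₀ _ hc.ne', div_one]

lemma riesz_eq {κ : ℝ} (hκ : 0 < κ) (a : ℕ → ℝ) (N : ℕ) {x : ℝ} (hx : x < N + 1) :
    riesz κ a x = (∑ n ∈ Finset.Icc 1 N, a n * lk κ n (max x 1)) / Real.Gamma (κ + 1) := by
  unfold riesz
  congr 1
  have hfl : ⌊x⌋₊ ≤ N := by
    rcases lt_or_ge x 0 with h | h
    · rw [Nat.floor_of_nonpos h.le]
      exact Nat.zero_le _
    · have := (Nat.floor_lt h).2 (by push_cast; exact hx : x < ((N + 1 : ℕ) : ℝ))
      omega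
  have hsub : Finset.Icc 1 ⌊x⌋₊ ⊆ Finset.Icc 1 N := Finset.Icc_subset_Icc_right hfl
  rw [← Finset.sum_subset hsub]
  · refine Finset.sum_congr rfl fun n hn => ?_
    obtain ⟨h1, h2⟩ := Finset.mem_Icc.1 hn
    have hn0 : (0 : ℝ) < n := by exact_mod_cast h1
    have hnx : (n : ℝ) ≤ x := by
      have h0 : 0 ≤ x := by
        by_contra hh
        rw [Nat.floor_of_nonpos (not_le.1 hh).le] at h2
        omega
      exact (Nat.le_floor_iff h0).1 h2
    have hx1 : 1 ≤ x := by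
      have : (1 : ℝ) ≤ n := by exact_mod_cast h1
      linarith
    rw [max_eq_left hx1, lk_eq hn0 hnx]
  · intro n hn hn'
    obtain ⟨h1, h2⟩ := Finset.mem_Icc.1 hn
    have hn0 : (0 : ℝ) < n := by exact_mod_cast h1
    have h3 : ⌊x⌋₊ < n := by
      by_contra hh
      exact hn' (Finset.mem_Icc.2 ⟨h1, not_lt.1 hh⟩)
    have h4 : x < n := Nat.lt_of_floor_lt h3
    rw [lk_zero hκ hn0 (le_trans zero_le_one (le_max_right _ _)) (max_le h4.le (by exact_mod_cast h1)),
      mul_zero]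

lemma riesz_cont {κ : ℝ} (hκ : 0 < κ) (a : ℕ → ℝ) : Continuous (riesz κ a) := by
  rw [continuous_iff_continuousAt]
  intro x₀
  set N : ℕ := ⌈|x₀|⌉₊ with hN
  have h1 : x₀ < (N : ℝ) + 1 := by
    have := (le_abs_self x₀).trans (Nat.le_ceil _)
    linarith
  have h2 : riesz κ a =ᶠ[𝓝 x₀] fun x => (∑ n ∈ Finset.Icc 1 N, a n * lk κ n (max x 1)) /
      Real.Gamma (κ + 1) := by
    filter_upwards [gt_mem_nhds h1] with x hx
    exact riesz_eq hκ a N hx
  refine ContinuousAt.congr ?_ h2.symm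
  refine ContinuousAt.div_const ?_ _
  refine Continuous.continuousAt ?_
  refine continuous_finsetSum _ fun n hn => ?_
  have hn0 : (0 : ℝ) < n := by exact_mod_cast (Finset.mem_Icc.1 hn).1
  exact continuous_const.mul (lk_cont' hκ hn0)

lemma exp_cpow (u : ℝ) (z : ℂ) : ((Real.exp u : ℝ) : ℂ) ^ z = Complex.exp (u * z) := by
  rw [Complex.cpow_def_of_ne_zero (by exact_mod_cast (Real.exp_pos u).ne'),
    ← Complex.ofReal_log (Real.exp_pos u).le, Real.log_exp]

/-- The basic integral. -/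
lemma base {κ : ℝ} (hκ : 0 < κ) {s : ℂ} (hs : 0 < s.re) :
    IntegrableOn (fun x : ℝ => (lk κ 1 x : ℂ) * (x : ℂ) ^ (-s - 1)) (Ioi 1) ∧
    ∫ x in Ioi (1 : ℝ), (lk κ 1 x : ℂ) * (x : ℂ) ^ (-s - 1) =
      (Real.Gamma (κ + 1) : ℂ) * s ^ (-(κ : ℂ) - 1) := by
  set f : ℝ → ℂ := fun x => (lk κ 1 x : ℂ) with hf
  have hfc : LocallyIntegrableOn f (Ioi 0) :=
    (Complex.continuous_ofReal.comp_continuousOn (lk_cont hκ one_pos)).locallyIntegrableOn
      measurableSet_Ioi
  have hf0 : ∀ x : ℝ, 0 ≤ x → x ≤ 1 → f x = 0 := by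
    intro x h0 h1
    rw [hf]
    simp only
    rw [lk_zero hκ one_pos h0 h1]
    simp
  have htop : ∀ a : ℝ, a < 0 → f =O[atTop] fun x : ℝ => x ^ (-a) := by
    intro a ha
    have h1 := (isLittleO_log_rpow_rpow_atTop κ (neg_pos.2 ha)).isBigO
    refine IsBigO.trans (IsBigO.of_bound 1 ?_) h1
    filter_upwards [eventually_ge_atTop (1 : ℝ)] with x hx
    rw [hf]
    simp only
    rw [lk_eq one_pos hx, div_one, Complex.norm_real, one_mul]
  have hbot : ∀ b : ℝ, f =O[𝓝[>] 0] fun x : ℝ => x ^ (-b) := by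
    intro b
    refine IsBigO.of_bound 1 ?_
    have h1 : ∀ᶠ x : ℝ in 𝓝[>] 0, x < 1 :=
      (gt_mem_nhds one_pos : ∀ᶠ x : ℝ in 𝓝 0, x < 1).filter_mono nhdsWithin_le_nhds
    filter_upwards [h1, self_mem_nhdsWithin] with x hx hx0
    have hx0' : 0 < x := hx0
    rw [hf0 x hx0'.le hx.le, norm_zero]
    positivity
  have hconv : ∀ z : ℂ, 0 < z.re → MellinConvergent f (-z) := fun z hz =>
    mellinConvergent_of_isBigO_rpow (a := -z.re / 2) (b := -z.re - 1) hfc (htop _ (by linarith))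
      (by rw [Complex.neg_re]; linarith) (hbot _) (by rw [Complex.neg_re]; linarith)
  have hdiff : ∀ z : ℂ, 0 < z.re → DifferentiableAt ℂ (mellin f) (-z) := fun z hz =>
    mellin_differentiableAt_of_isBigO_rpow (a := -z.re / 2) (b := -z.re - 1) hfc
      (htop _ (by linarith)) (by rw [Complex.neg_re]; linarith) (hbot _)
      (by rw [Complex.neg_re]; linarith)
  have hmel : ∀ z : ℂ, mellin f (-z) =
      ∫ x in Ioi (1 : ℝ), (lk κ 1 x : ℂ) * (x : ℂ) ^ (-z - 1) := by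
    intro z
    rw [mellin, setIntegral_eq_of_subset_of_forall_sdiff_eq_zero measurableSet_Ioi
      (Ioi_subset_Ioi zero_le_one)]
    · refine setIntegral_congr_fun measurableSet_Ioi fun x _ => ?_
      rw [smul_eq_mul, mul_comm]
    · intro x hx
      rw [hf0 x (le_of_lt hx.1) (not_lt.1 hx.2), smul_zero]
  refine ⟨?_, ?_⟩
  · have h1 := (hconv s hs).mono_set (Ioi_subset_Ioi zero_le_one)
    refine h1.congr_fun (fun x _ => ?_) measurableSet_Ioi
    simp only
    rw [smul_eq_mul, mul_comm]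
  -- the real case
  have hreal : ∀ r : ℝ, 0 < r → mellin f (-(r : ℂ)) =
      (Real.Gamma (κ + 1) : ℂ) * (r : ℂ) ^ (-(κ : ℂ) - 1) := by
    intro r hr
    rw [hmel]
    have himg : Real.exp '' Ioi 0 = Ioi 1 := by
      ext x
      constructor
      · rintro ⟨u, hu, rfl⟩
        have hu' : 0 < u := hu
        exact mem_Ioi.2 (Real.one_lt_exp_iff.2 hu')
      · intro hx
        have hx' : 1 < x := hx
        exact ⟨Real.log x, mem_Ioi.2 (Real.log_pos hx'), Real.exp_log (by linarith)⟩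
    rw [← himg, integral_image_eq_integral_abs_deriv_smul measurableSet_Ioi
      (fun u _ => (Real.hasDerivAt_exp u).hasDerivWithinAt) (Real.exp_injective.injOn)]
    have h1 : ∀ u ∈ Ioi (0 : ℝ), |Real.exp u| • ((lk κ 1 (Real.exp u) : ℂ) *
        ((Real.exp u : ℝ) : ℂ) ^ (-(r : ℂ) - 1)) =
        (u : ℂ) ^ (((κ + 1 : ℝ) : ℂ) - 1) * Complex.exp (-((r : ℂ) * u)) := by
      intro u hu
      have hu' : 0 < u := hu
      rw [abs_of_pos (Real.exp_pos u), lk_eq one_pos (Real.one_le_exp hu'.le), div_one,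
        Real.log_exp, exp_cpow, Complex.real_smul, Complex.ofReal_exp]
      have h2 : ((u ^ κ : ℝ) : ℂ) = (u : ℂ) ^ (((κ + 1 : ℝ) : ℂ) - 1) := by
        rw [Complex.ofReal_cpow hu'.le]
        congr 1
        push_cast
        ring
      rw [h2, mul_left_comm, ← Complex.exp_add]
      congr 2
      ring
    rw [setIntegral_congr_fun measurableSet_Ioi h1,
      Complex.integral_cpow_mul_exp_neg_mul_Ioi (by rw [Complex.ofReal_re]; linarith) hr,
      mul_comm, Complex.Gamma_ofReal]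
    congr 1
    have h3 : ((r : ℂ)) ^ (-(κ : ℂ) - 1) = ((r ^ (-κ - 1) : ℝ) : ℂ) := by
      rw [Complex.ofReal_cpow hr.le]
      push_cast
      rfl
    have h4 : (1 / (r : ℂ)) ^ ((κ + 1 : ℝ) : ℂ) = (((1 / r) ^ (κ + 1) : ℝ) : ℂ) := by
      rw [Complex.ofReal_cpow (by positivity)]
      push_cast
      rfl
    rw [h3, h4]
    congr 1
    rw [one_div, Real.inv_rpow hr.le, ← Real.rpow_neg hr.le]
    congr 1
    ring
  -- the identity theorem
  have hU : IsOpen {z : ℂ | 0 < z.re} := isOpen_lt continuous_const Complex.continuous_re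
  have hA : AnalyticOnNhd ℂ (fun z : ℂ => mellin f (-z)) {z : ℂ | 0 < z.re} := by
    refine DifferentiableOn.analyticOnNhd (fun z hz => ?_) hU
    exact ((hdiff z hz).comp z differentiableAt_id.neg).differentiableWithinAt
  have hB : AnalyticOnNhd ℂ (fun z : ℂ => (Real.Gamma (κ + 1) : ℂ) * z ^ (-(κ : ℂ) - 1))
      {z : ℂ | 0 < z.re} := by
    refine DifferentiableOn.analyticOnNhd (fun z hz => ?_) hU
    have hz' : 0 < z.re := hz
    exact ((differentiableAt_id.cpow_const (Or.inl hz')).const_mul _).differentiableWithinAt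
  have hfreq : ∃ᶠ z : ℂ in 𝓝[≠] 1, mellin f (-z) =
      (Real.Gamma (κ + 1) : ℂ) * z ^ (-(κ : ℂ) - 1) := by
    have ht : Tendsto (fun r : ℝ => (r : ℂ)) (𝓝[>] 1) (𝓝[≠] 1) := by
      refine tendsto_nhdsWithin_of_tendsto_nhds_of_eventually_within _ ?_ ?_
      · exact (Complex.continuous_ofReal.tendsto' 1 1 (by simp)).mono_left nhdsWithin_le_nhds
      · filter_upwards [self_mem_nhdsWithin] with r hr
        have hr' : 1 < r := hr
        simp only [mem_compl_iff, mem_singleton_iff]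
        intro h
        have : r = 1 := by exact_mod_cast h
        linarith
    refine ht.frequently (Eventually.frequently ?_)
    filter_upwards [self_mem_nhdsWithin] with r hr
    have hr' : 1 < r := hr
    exact hreal r (by linarith)
  have hone : (1 : ℂ) ∈ {z : ℂ | 0 < z.re} := by simp
  have hconn : IsPreconnected {z : ℂ | 0 < z.re} :=
    (convex_halfSpace_re_gt 0).isPreconnected
  have heq := hA.eqOn_of_preconnected_of_frequently_eq hB hconn hone hfreq
  have h5 := heq hs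
  simp only at h5
  rw [← h5, hmel]

/-- The integral for one integer. -/
lemma one {κ : ℝ} (hκ : 0 < κ) {s : ℂ} (hs : 0 < s.re) {c : ℝ} (hc : 1 ≤ c) :
    IntegrableOn (fun x : ℝ => (lk κ c x : ℂ) * (x : ℂ) ^ (-s - 1)) (Ioi 1) ∧
    ∫ x in Ioi (1 : ℝ), (lk κ c x : ℂ) * (x : ℂ) ^ (-s - 1) =
      (c : ℂ) ^ (-s) * ((Real.Gamma (κ + 1) : ℂ) * s ^ (-(κ : ℂ) - 1)) := by
  have hc0 : 0 < c := by linarith
  obtain ⟨h1, h2⟩ := base hκ hs
  set g : ℝ → ℂ := fun x => (lk κ c x : ℂ) * (x : ℂ) ^ (-s - 1) with hg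
  have hgz : ∀ x ∈ Ioi (1 : ℝ) \ Ioi c, g x = 0 := by
    intro x hx
    have hx1 : 1 < x := hx.1
    rw [hg]
    simp only
    rw [lk_zero hκ hc0 (by linarith) (not_lt.1 hx.2)]
    simp
  have hgc : ∀ x ∈ Ioi (1 : ℝ), g (c * x) = (c : ℂ) ^ (-s - 1) *
      ((lk κ 1 x : ℂ) * (x : ℂ) ^ (-s - 1)) := by
    intro x hx
    have hx1 : 1 < x := hx
    rw [hg]
    simp only
    rw [lk_scale hc0, Complex.ofReal_mul, Complex.mul_cpow_ofReal_nonneg hc0.le (by linarith)]
    ring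
  have hic : IntegrableOn g (Ioi (c * 1)) := by
    rw [← integrableOn_Ioi_comp_mul_left_iff _ _ hc0]
    refine IntegrableOn.congr_fun (h1.const_mul ((c : ℂ) ^ (-s - 1))) (fun x hx => ?_)
      measurableSet_Ioi
    exact (hgc x hx).symm
  rw [mul_one] at hic
  refine ⟨IntegrableOn.of_forall_sdiff_eq_zero hic measurableSet_Ioi hgz, ?_⟩
  rw [setIntegral_eq_of_subset_of_forall_sdiff_eq_zero measurableSet_Ioi (Ioi_subset_Ioi hc) hgz]
  have h3 := integral_comp_mul_left_Ioi g 1 hc0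
  rw [setIntegral_congr_fun measurableSet_Ioi hgc, integral_const_mul, h2, mul_one] at h3
  have h4 : ∫ x in Ioi c, g x = (c : ℂ) * ((c : ℂ) ^ (-s - 1) *
      ((Real.Gamma (κ + 1) : ℂ) * s ^ (-(κ : ℂ) - 1))) := by
    rw [h3, Complex.real_smul, ← mul_assoc, ← Complex.ofReal_mul, mul_inv_cancel₀ hc0.ne',
      Complex.ofReal_one, one_mul]
  rw [h4, ← mul_assoc]
  congr 1
  have hcc : (c : ℂ) ≠ 0 := by exact_mod_cast hc0.ne'
  rw [Complex.cpow_sub _ _ hcc, Complex.cpow_one]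
  field_simp

/-- The integral of the norm. -/
lemma one_norm {κ : ℝ} (hκ : 0 < κ) {s : ℂ} (hs : 0 < s.re) {c : ℝ} (hc : 1 ≤ c) :
    ∫ x in Ioi (1 : ℝ), ‖(lk κ c x : ℂ) * (x : ℂ) ^ (-s - 1)‖ =
      c ^ (-s.re) * (Real.Gamma (κ + 1) * s.re ^ (-κ - 1)) := by
  have hc0 : 0 < c := by linarith
  have h1 := (one hκ (s := (s.re : ℂ)) (by rw [Complex.ofReal_re]; exact hs) hc).2
  have h2 : ∀ x ∈ Ioi (1 : ℝ), (lk κ c x : ℂ) * (x : ℂ) ^ (-(s.re : ℂ) - 1) =
      ((‖(lk κ c x : ℂ) * (x : ℂ) ^ (-s - 1)‖ : ℝ) : ℂ) := by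
    intro x hx
    have hx1 : 1 < x := hx
    have hx0 : 0 < x := by linarith
    rw [norm_mul, Complex.norm_real, Real.norm_of_nonneg (lk_nonneg _ _ _),
      Complex.norm_cpow_eq_rpow_re_of_pos hx0, Complex.ofReal_mul, Complex.ofReal_cpow hx0.le]
    congr 2
    simp
  rw [setIntegral_congr_fun measurableSet_Ioi h2, integral_complex_ofReal] at h1
  have h3 : (c : ℂ) ^ (-(s.re : ℂ)) * ((Real.Gamma (κ + 1) : ℂ) * (s.re : ℂ) ^ (-(κ : ℂ) - 1)) =
      ((c ^ (-s.re) * (Real.Gamma (κ + 1) * s.re ^ (-κ - 1)) : ℝ) : ℂ) := by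
    rw [Complex.ofReal_mul, Complex.ofReal_mul, Complex.ofReal_cpow hc0.le,
      Complex.ofReal_cpow hs.le]
    push_cast
    rfl
  rw [h3] at h1
  exact_mod_cast h1

end T1x

open T1x in
/-- **Row T1.** -/
theorem t1 : T1_stmt := by
  intro κ a hκ hDS
  obtain ⟨ha0, hsum⟩ := hDS
  refine ⟨riesz_cont hκ a, ?_, ?_⟩
  · intro x hx
    rw [riesz_eq hκ a 1 (by push_cast; linarith), max_eq_right hx]
    simp only [Finset.Icc_self, Finset.sum_singleton, Nat.cast_one]
    rw [lk_zero hκ one_pos zero_le_one le_rfl, mul_zero, zero_div]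
  intro s hs
  have hs0 : 0 < s.re := by linarith
  have hG : 0 < Real.Gamma (κ + 1) := Real.Gamma_pos_of_pos (by linarith)
  have hGc : (Real.Gamma (κ + 1) : ℂ) ≠ 0 := by exact_mod_cast hG.ne'
  set F : ℕ → ℝ → ℂ := fun n x => ((a n / Real.Gamma (κ + 1) : ℝ) : ℂ) *
    (if n = 0 then 0 else (lk κ n x : ℂ) * (x : ℂ) ^ (-s - 1)) with hF
  have hFint : ∀ n, IntegrableOn (F n) (Ioi 1) := by
    intro n
    rw [hF]
    simp only
    by_cases hn : n = 0
    · simp only [hn, if_true, mul_zero]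
      exact integrableOn_zero
    · simp only [if_neg hn]
      exact (one hκ hs0 (by exact_mod_cast Nat.one_le_iff_ne_zero.2 hn)).1.const_mul _
  have hFval : ∀ n, ∫ x in Ioi (1 : ℝ), F n x =
      LSeries.term (fun n => (a n : ℂ)) s n * s ^ (-(κ : ℂ) - 1) := by
    intro n
    rw [hF]
    simp only
    by_cases hn : n = 0
    · simp [hn]
    · simp only [if_neg hn]
      rw [integral_const_mul, (one hκ hs0 (by exact_mod_cast Nat.one_le_iff_ne_zero.2 hn)).2,
        LSeries.term_of_ne_zero hn, Complex.cpow_neg]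
      push_cast
      field_simp
  have hFnorm : ∀ n, ∫ x in Ioi (1 : ℝ), ‖F n x‖ =
      ‖LSeries.term (fun n => (a n : ℂ)) s n‖ * s.re ^ (-κ - 1) := by
    intro n
    rw [hF]
    simp only
    by_cases hn : n = 0
    · simp [hn]
    · simp only [if_neg hn]
      have hn1 : (1 : ℝ) ≤ n := by exact_mod_cast Nat.one_le_iff_ne_zero.2 hn
      have e : ∀ x : ℝ, ‖((a n / Real.Gamma (κ + 1) : ℝ) : ℂ) *
          ((lk κ n x : ℂ) * (x : ℂ) ^ (-s - 1))‖ =
          (a n / Real.Gamma (κ + 1)) * ‖(lk κ n x : ℂ) * (x : ℂ) ^ (-s - 1)‖ := by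
        intro x
        rw [norm_mul, Complex.norm_real, Real.norm_of_nonneg (div_nonneg (ha0 n) hG.le)]
      simp_rw [e]
      rw [integral_const_mul, one_norm hκ hs0 hn1, LSeries.norm_term_eq, if_neg hn,
        Complex.norm_real, Real.norm_of_nonneg (ha0 n), Real.rpow_neg (by positivity)]
      field_simp
  have hs1 := hsum s hs
  have hFsum : Summable fun n => ∫ x in Ioi (1 : ℝ), ‖F n x‖ := by
    simp_rw [hFnorm]
    exact hs1.norm.mul_right _
  -- the sum
  have hFtot : ∀ x ∈ Ioi (1 : ℝ), (riesz κ a x : ℂ) * (x : ℂ) ^ (-s - 1) =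
      ∑ n ∈ Finset.Icc 1 ⌊x⌋₊, F n x := by
    intro x hx
    have hx1 : 1 < x := hx
    rw [riesz_eq hκ a ⌊x⌋₊ (Nat.lt_floor_add_one x), max_eq_left hx1.le]
    push_cast
    rw [Finset.sum_div, Finset.sum_mul]
    refine Finset.sum_congr rfl fun n hn => ?_
    have hn0 : n ≠ 0 := by
      have := (Finset.mem_Icc.1 hn).1
      omega
    rw [hF]
    simp only [if_neg hn0]
    push_cast
    ring
  have hFz : ∀ x ∈ Ioi (1 : ℝ), ∀ n, n ∉ Finset.Icc 1 ⌊x⌋₊ → F n x = 0 := by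
    intro x hx n hn
    have hx1 : 1 < x := hx
    rw [hF]
    simp only
    by_cases hn0 : n = 0
    · simp [hn0]
    · have h3 : ⌊x⌋₊ < n := by
        by_contra hh
        exact hn (Finset.mem_Icc.2 ⟨Nat.one_le_iff_ne_zero.2 hn0, not_lt.1 hh⟩)
      have h4 : x < n := Nat.lt_of_floor_lt h3
      rw [if_neg hn0, lk_zero hκ (by linarith) (by linarith) h4.le]
      simp
  have hFtot' : ∀ x ∈ Ioi (1 : ℝ), (riesz κ a x : ℂ) * (x : ℂ) ^ (-s - 1) = ∑' n, F n x := by
    intro x hx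
    rw [hFtot x hx, tsum_eq_sum (hFz x hx)]
  have hval := hasSum_integral_of_summable_integral_norm hFint hFsum
  refine ⟨?_, ?_⟩
  · refine ⟨?_, ?_⟩
    · refine ContinuousOn.aestronglyMeasurable ?_ measurableSet_Ioi
      refine ContinuousOn.mul (Complex.continuous_ofReal.comp (riesz_cont hκ a)).continuousOn ?_
      intro x hx
      have hx1 : 1 < x := hx
      have hx0 : x ≠ 0 := by linarith
      have h5 : ContinuousAt (fun z : ℂ => z ^ (-s - 1)) (x : ℂ) :=
        continuousAt_cpow_const (Or.inl (by rw [Complex.ofReal_re]; linarith))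
      exact (ContinuousAt.comp (f := fun x : ℝ => (x : ℂ)) h5
        Complex.continuous_ofReal.continuousAt).continuousWithinAt
    · have hlt : ∫⁻ x in Ioi (1 : ℝ), ∑' n, ‖F n x‖ₑ < ⊤ := by
        rw [lintegral_tsum fun n => (hFint n).1.enorm]
        have this : ∀ n, ∫⁻ x in Ioi (1 : ℝ), ‖F n x‖ₑ =
            ENNReal.ofReal (∫ x in Ioi (1 : ℝ), ‖F n x‖) := fun n => by
          rw [ofReal_integral_norm_eq_lintegral_enorm (hFint n)]
        simp_rw [this]
        rw [← ENNReal.ofReal_tsum_of_nonneg (fun n => integral_nonneg fun x => norm_nonneg _) hFsum]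
        exact ENNReal.ofReal_lt_top
      refine lt_of_le_of_lt ?_ hlt
      refine setLIntegral_mono' measurableSet_Ioi fun x hx => ?_
      change ‖(riesz κ a x : ℂ) * (x : ℂ) ^ (-s - 1)‖ₑ ≤ _
      rw [hFtot x hx]
      exact (enorm_sum_le _ _).trans (ENNReal.sum_le_tsum _)
  · rw [setIntegral_congr_fun measurableSet_Ioi hFtot', ← hval.tsum_eq]
    simp_rw [hFval]
    rw [tsum_mul_right]
    rfl

end Pool.Agent.APX
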