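import Pool.Agent.Lib.APX.Defs
import Pool.Agent.Lib.SELB.LAPM

/-!
# Row T2: the transform of `x^ρ (log x)^j`  (helper27)
-/

set_option autoImplicit false

namespace Pool.Agent.APX

open Filter Topology Asymptotics MeasureTheory Set

namespace T2x

/-- The exponential maps `(0, ∞)` onto `(1, ∞)`. -/
lemma image_exp : Real.exp '' Ioi (0 : ℝ) = Ioi 1 := by
  ext x
  constructor
  · rintro ⟨y, hy, rfl⟩
    exact Real.one_lt_exp_iff.mpr hy
  · intro hx
    have hx1 : (1 : ℝ) < x := hx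
    exact ⟨Real.log x, Real.log_pos hx1, Real.exp_log (by linarith)⟩

/-- The substitution `x = e^u`. -/
lemma subst (g : ℝ → ℂ) :
    (IntegrableOn g (Ioi 1) ↔ IntegrableOn (fun u => (Real.exp u : ℂ) * g (Real.exp u)) (Ioi 0)) ∧
    ∫ x in Ioi (1 : ℝ), g x = ∫ u in Ioi (0 : ℝ), (Real.exp u : ℂ) * g (Real.exp u) := by
  have hd : ∀ x ∈ Ioi (0 : ℝ), HasDerivWithinAt Real.exp (Real.exp x) (Ioi 0) x :=
    fun x _ => (Real.hasDerivAt_exp x).hasDerivWithinAt
  have hinj : InjOn Real.exp (Ioi (0 : ℝ)) := Real.exp_injective.injOn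
  have e : ∀ u : ℝ, |Real.exp u| • g (Real.exp u) = (Real.exp u : ℂ) * g (Real.exp u) := by
    intro u
    rw [abs_of_pos (Real.exp_pos u), Complex.real_smul]
  constructor
  · have h := integrableOn_image_iff_integrableOn_abs_deriv_smul measurableSet_Ioi hd hinj g
    rw [image_exp] at h
    rw [h]
    simp only [e]
  · have h := integral_image_eq_integral_abs_deriv_smul measurableSet_Ioi hd hinj g
    rw [image_exp] at h
    rw [h]
    simp only [e]

/-- Powers of `e^u`. -/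
lemma cpow_exp (w : ℂ) (u : ℝ) : ((Real.exp u : ℝ) : ℂ) ^ w = Complex.exp (w * u) := by
  have h1 : ((Real.exp u : ℝ) : ℂ) ≠ 0 := by
    exact_mod_cast (Real.exp_pos u).ne'
  rw [Complex.cpow_def_of_ne_zero h1, ← Complex.ofReal_log (Real.exp_pos u).le, Real.log_exp,
    mul_comm]

end T2x

/-- Row T2. -/
theorem t2 : T2_stmt := by
  intro ρ j s hs
  have hv : 0 < (s - ρ).re := by
    simp
    linarith
  have e : ∀ u : ℝ, ((Real.exp u : ℝ) : ℂ) * (((Real.exp u : ℝ) : ℂ) ^ ρ *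
      ((Real.log (Real.exp u) : ℝ) : ℂ) ^ j * ((Real.exp u : ℝ) : ℂ) ^ (-s - 1)) =
      (u : ℂ) ^ j * Complex.exp (-(s - ρ) * u) := by
    intro u
    rw [T2x.cpow_exp, T2x.cpow_exp, Real.log_exp, Complex.ofReal_exp]
    calc Complex.exp u * (Complex.exp (ρ * u) * (u : ℂ) ^ j * Complex.exp ((-s - 1) * u))
        = (u : ℂ) ^ j * (Complex.exp u * Complex.exp (ρ * u) * Complex.exp ((-s - 1) * u)) := by
          ring
      _ = (u : ℂ) ^ j * Complex.exp (-(s - ρ) * u) := by
          rw [← Complex.exp_add, ← Complex.exp_add]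
          congr 2
          ring
  obtain ⟨h1, h2⟩ := T2x.subst (fun x : ℝ => (x : ℂ) ^ ρ * ((Real.log x : ℝ) : ℂ) ^ j *
    (x : ℂ) ^ (-s - 1))
  constructor
  · rw [h1]
    simp only [e]
    exact SELB.int_pow hv j
  · rw [h2]
    simp only [e]
    exact SELB.lap_pow hv j

end Pool.Agent.APX
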