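import Mathlib
import Pool.Agent.Lib.APX.Defs

/-!
# MP_af3d17_nt, almost primes: row T3, inversion and shift of the line.  (helper21)
-/

set_option autoImplicit false

namespace Pool.Agent.APX

open Filter Topology Asymptotics MeasureTheory Set Pool.Agent.ZP

namespace T3x

lemma pt_eq (σ t : ℝ) : pt σ t = (σ : ℂ) + t * Complex.I := by
  apply Complex.ext <;> simp [pt]

lemma int_dec {η : ℝ} (hη : 0 < η) (B : ℝ) :
    Integrable fun t : ℝ => B * (1 + |t|) ^ (-1 - η) := by
  have h := integrable_one_add_norm (E := ℝ) (μ := volume) (r := 1 + η)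
    (by rw [Module.finrank_self]; push_cast; linarith)
  have e : ∀ t : ℝ, (1 + ‖t‖) ^ (-(1 + η)) = (1 + |t|) ^ (-1 - η) := by
    intro t
    rw [Real.norm_eq_abs]
    congr 1
    ring
  simp_rw [e] at h
  exact h.const_mul B

/-- Integrability on a vertical line. -/
lemma int_line {F : ℂ → ℂ} {σ₁ σ₂ σ : ℝ} (h1 : σ₁ ≤ σ) (h2 : σ ≤ σ₂)
    (hF : ContinuousOn F {s | σ₁ ≤ s.re ∧ s.re ≤ σ₂}) {B η : ℝ} (hη : 0 < η)
    (hb : ∀ s : ℂ, σ₁ ≤ s.re → s.re ≤ σ₂ → ‖F s‖ ≤ B * (1 + |s.im|) ^ (-1 - η)) :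
    Integrable fun t : ℝ => F ((σ : ℂ) + t * Complex.I) := by
  have hre : ∀ t : ℝ, ((σ : ℂ) + t * Complex.I).re = σ := fun t => by simp
  have him : ∀ t : ℝ, ((σ : ℂ) + t * Complex.I).im = t := fun t => by simp
  refine Integrable.mono' (int_dec hη B) ?_ (Eventually.of_forall fun t => ?_)
  · refine (hF.comp_continuous (by fun_prop) fun t => ?_).aestronglyMeasurable
    rw [mem_ofPred_eq, hre]
    exact ⟨h1, h2⟩
  · have := hb _ (by rw [hre t]; exact h1) (by rw [hre t]; exact h2)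
    rwa [him] at this

/-- Shift of the line of integration. -/
lemma shift {F : ℂ → ℂ} {σ₁ σ₂ : ℝ} (h12 : σ₁ ≤ σ₂)
    (hF : DifferentiableOn ℂ F {s | σ₁ ≤ s.re ∧ s.re ≤ σ₂}) {B η : ℝ} (hη : 0 < η)
    (hb : ∀ s : ℂ, σ₁ ≤ s.re → s.re ≤ σ₂ → ‖F s‖ ≤ B * (1 + |s.im|) ^ (-1 - η)) :
    ∫ t : ℝ, F ((σ₁ : ℂ) + t * Complex.I) = ∫ t : ℝ, F ((σ₂ : ℂ) + t * Complex.I) := by
  have hI1 := int_line le_rfl h12 hF.continuousOn hη hb
  have hI2 := int_line h12 le_rfl hF.continuousOn hη hb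
  have hrect : ∀ A : ℝ, 0 ≤ A →
      ‖(∫ t in (-A)..A, F ((σ₁ : ℂ) + t * Complex.I)) -
        ∫ t in (-A)..A, F ((σ₂ : ℂ) + t * Complex.I)‖ ≤
        2 * (B * (1 + A) ^ (-1 - η) * (σ₂ - σ₁)) := by
    intro A hA
    have h1 := Complex.integral_boundary_rect_eq_zero_of_differentiableOn F
      ((σ₁ : ℂ) + (-A : ℝ) * Complex.I) ((σ₂ : ℂ) + (A : ℝ) * Complex.I) ?_
    · have er1 : ((σ₁ : ℂ) + (-A : ℝ) * Complex.I).re = σ₁ := by simp
      have ei1 : ((σ₁ : ℂ) + (-A : ℝ) * Complex.I).im = -A := by simp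
      have er2 : ((σ₂ : ℂ) + (A : ℝ) * Complex.I).re = σ₂ := by simp
      have ei2 : ((σ₂ : ℂ) + (A : ℝ) * Complex.I).im = A := by simp
      rw [er1, ei1, er2, ei2] at h1
      have hside : ∀ y : ℝ, |y| = A →
          ‖∫ x : ℝ in σ₁..σ₂, F ((x : ℂ) + y * Complex.I)‖ ≤
            B * (1 + A) ^ (-1 - η) * (σ₂ - σ₁) := by
        intro y hy
        have h2 := intervalIntegral.norm_integral_le_of_norm_le_const (a := σ₁) (b := σ₂)
          (f := fun x : ℝ => F ((x : ℂ) + y * Complex.I)) (C := B * (1 + A) ^ (-1 - η)) ?_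
        · rwa [abs_of_nonneg (by linarith : (0 : ℝ) ≤ σ₂ - σ₁)] at h2
        · intro x hx
          rw [uIoc_of_le h12] at hx
          have hre : ((x : ℂ) + y * Complex.I).re = x := by simp
          have him : ((x : ℂ) + y * Complex.I).im = y := by simp
          have h3 := hb ((x : ℂ) + y * Complex.I) (by rw [hre]; exact hx.1.le)
            (by rw [hre]; exact hx.2)
          rwa [him, hy] at h3
      have hs1 := hside A (abs_of_nonneg hA)
      have hs2 := hside (-A) (by rw [abs_neg, abs_of_nonneg hA])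
      have h4 : (∫ t in (-A)..A, F ((σ₁ : ℂ) + t * Complex.I)) -
          ∫ t in (-A)..A, F ((σ₂ : ℂ) + t * Complex.I) =
          Complex.I * (∫ x : ℝ in σ₁..σ₂, F ((x : ℂ) + (A : ℝ) * Complex.I)) -
          Complex.I * (∫ x : ℝ in σ₁..σ₂, F ((x : ℂ) + (-A : ℝ) * Complex.I)) := by
        simp only [smul_eq_mul] at h1
        linear_combination Complex.I * h1 +
          ((∫ t in (-A)..A, F ((σ₁ : ℂ) + t * Complex.I)) -
            ∫ t in (-A)..A, F ((σ₂ : ℂ) + t * Complex.I)) * Complex.I_sq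
      rw [h4]
      refine (norm_sub_le _ _).trans ?_
      rw [norm_mul, norm_mul, Complex.norm_I, one_mul, one_mul]
      linarith
    · refine hF.mono ?_
      intro z hz
      have hz1 := hz.1
      simp only [mem_preimage] at hz1
      have e : uIcc ((σ₁ : ℂ) + (-A : ℝ) * Complex.I).re ((σ₂ : ℂ) + (A : ℝ) * Complex.I).re
          = Icc σ₁ σ₂ := by
        rw [← uIcc_of_le h12]
        simp
      rw [e] at hz1
      exact hz1
  have hl1 := intervalIntegral_tendsto_integral hI1 (tendsto_neg_atTop_atBot (G := ℝ)) tendsto_id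
  have hl2 := intervalIntegral_tendsto_integral hI2 (tendsto_neg_atTop_atBot (G := ℝ)) tendsto_id
  have hl := (hl1.sub hl2).norm
  have hz : Tendsto (fun A : ℝ => 2 * (B * (1 + A) ^ (-1 - η) * (σ₂ - σ₁))) atTop (𝓝 0) := by
    have h5 : Tendsto (fun A : ℝ => (1 + A) ^ (-1 - η)) atTop (𝓝 0) := by
      have h6 := (tendsto_rpow_neg_atTop (y := 1 + η) (by linarith)).comp
        (tendsto_atTop_add_const_left atTop (1 : ℝ) tendsto_id)
      refine h6.congr fun A => ?_
      simp only [Function.comp, id]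
      congr 1
      ring
    have h7 := ((h5.const_mul B).mul_const (σ₂ - σ₁)).const_mul 2
    simpa using h7
  have hle := le_of_tendsto_of_tendsto hl hz
    (by filter_upwards [eventually_ge_atTop (0 : ℝ)] with A hA using hrect A hA)
  rw [← sub_eq_zero, ← norm_eq_zero]
  exact le_antisymm hle (norm_nonneg _)

end T3x

open T3x in
/-- **Row T3.** -/
theorem t3 : T3_stmt := by
  intro e H q C he he0 hH hHd hHb hHi
  -- the function on the line `Re s = 2`
  have hmel : ∀ y : ℝ, mellin e (((-2 : ℝ) : ℂ) + y * Complex.I) = H ((2 : ℂ) + (-y : ℝ) * Complex.I) := by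
    intro y
    have hre : ((2 : ℂ) + (-y : ℝ) * Complex.I).re = 2 := by simp
    rw [← (hH _ hre).2, mellin, setIntegral_eq_of_subset_of_forall_sdiff_eq_zero measurableSet_Ioi
      (Ioi_subset_Ioi zero_le_one)]
    · refine setIntegral_congr_fun measurableSet_Ioi fun x _ => ?_
      rw [smul_eq_mul, mul_comm]
      congr 2
      push_cast
      ring
    · intro x hx
      have hx2 : x ≤ 1 := not_lt.1 hx.2
      rw [he0 x hx2, smul_zero]
  have hcon : MellinConvergent e ((-2 : ℝ) : ℂ) := by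
    have hre : (2 : ℂ).re = 2 := by simp
    refine IntegrableOn.of_forall_sdiff_eq_zero (s := Ioi 1) ?_ measurableSet_Ioi ?_
    · refine ((hH 2 hre).1).congr_fun (fun x _ => ?_) measurableSet_Ioi
      simp only
      rw [smul_eq_mul, mul_comm]
      congr 2
      push_cast
      ring
    · intro x hx
      have hx2 : x ≤ 1 := not_lt.1 hx.2
      rw [he0 x hx2, smul_zero]
  have hHc : ∀ δ : ℝ, 0 < δ → DifferentiableOn ℂ H {s | 1 / 2 + δ ≤ s.re ∧ s.re ≤ 2} := by
    intro δ hδ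
    refine hHd.mono fun s hs => ?_
    have := hs.1
    simp only [mem_ofPred_eq]
    linarith
  have hver : Complex.VerticalIntegrable (mellin e) (-2) := by
    unfold Complex.VerticalIntegrable
    simp_rw [hmel]
    obtain ⟨C₁, η, hη, hb⟩ := hHb 1 one_pos
    have h1 := int_line (F := H) (σ₁ := 1 / 2 + 1) (σ₂ := 2) (σ := 2) (by norm_num) le_rfl
      (hHc 1 one_pos).continuousOn hη (fun s a b => hb s a b)
    have h2 := h1.comp_neg
    refine h2.congr (Eventually.of_forall fun t => ?_)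
    simp
  -- the formula
  have hform : ∀ x : ℝ, 1 < x → ∀ δ : ℝ, 0 < δ → δ ≤ 1 →
      e x = (1 / (2 * Real.pi) : ℝ) • ∫ t : ℝ, H (pt (1 / 2 + δ) t) * (x : ℂ) ^ (pt (1 / 2 + δ) t) := by
    intro x hx δ hδ hδ1
    have hx0 : 0 < x := by linarith
    have hxc : (x : ℂ) ≠ 0 := by exact_mod_cast hx0.ne'
    have h1 := mellinInv_mellin_eq (-2) e hx0 (by exact_mod_cast hcon) hver he.continuousAt
    obtain ⟨C₁, η, hη, hb⟩ := hHb δ hδ
    have hC₁ : 0 ≤ C₁ := by
      have h3 := hb 2 (by simp; linarith) (by simp)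
      simp at h3
      exact (norm_nonneg _).trans h3
    have hxs : ∀ s : ℂ, ‖(x : ℂ) ^ s‖ = x ^ s.re := fun s =>
      Complex.norm_cpow_eq_rpow_re_of_pos hx0 s
    have hsh := shift (F := fun s => H s * (x : ℂ) ^ s) (σ₁ := 1 / 2 + δ) (σ₂ := 2) (by linarith)
      (((hHc δ hδ)).mul fun s _ => by
        have : DifferentiableAt ℂ (fun s : ℂ => (x : ℂ) ^ s) s :=
          (differentiableAt_id).const_cpow (Or.inl hxc)
        exact this.differentiableWithinAt) (B := C₁ * x ^ (2 : ℝ)) hη (fun s a b => by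
        rw [norm_mul, hxs]
        have h4 := hb s a b
        have h5 : x ^ s.re ≤ x ^ (2 : ℝ) := Real.rpow_le_rpow_of_exponent_le hx.le b
        calc ‖H s‖ * x ^ s.re ≤ (C₁ * (1 + |s.im|) ^ (-1 - η)) * x ^ (2 : ℝ) :=
              mul_le_mul h4 h5 (by positivity) (by positivity)
          _ = _ := by ring)
    rw [← h1, mellinInv]
    congr 1
    have e1 : ∀ t : ℝ, H (pt (1 / 2 + δ) t) * (x : ℂ) ^ (pt (1 / 2 + δ) t) =
        (fun s => H s * (x : ℂ) ^ s) (((1 / 2 + δ : ℝ) : ℂ) + t * Complex.I) := by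
      intro t
      rw [pt_eq]
    simp_rw [e1]
    rw [hsh, ← integral_neg_eq_self]
    refine integral_congr_ae (Eventually.of_forall fun t => ?_)
    simp only
    rw [hmel, smul_eq_mul, mul_comm]
    congr 2
    · push_cast
      ring
    · push_cast
      ring
  -- the bound
  refine IsBigO.of_bound (Real.exp 1 * C / (2 * Real.pi)) ?_
  filter_upwards [eventually_ge_atTop (Real.exp 1)] with x hx
  have hx1 : 1 < x := lt_of_lt_of_le (by have := Real.add_one_lt_exp (one_ne_zero (α := ℝ)); linarith) hx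
  have hx0 : 0 < x := by linarith
  have hlog : 1 ≤ Real.log x := by
    rw [Real.le_log_iff_exp_le hx0]
    exact hx
  have hl0 : 0 < Real.log x := by linarith
  set δ : ℝ := 1 / Real.log x with hδ
  have hδ0 : 0 < δ := by positivity
  have hδ1 : δ ≤ 1 := by rw [hδ, div_le_one hl0]; exact hlog
  rw [hform x hx1 δ hδ0 hδ1, norm_smul, Real.norm_of_nonneg (by positivity)]
  have h1 : ‖∫ t : ℝ, H (pt (1 / 2 + δ) t) * (x : ℂ) ^ (pt (1 / 2 + δ) t)‖ ≤
      x ^ (1 / 2 + δ) * ∫ t : ℝ, ‖H (pt (1 / 2 + δ) t)‖ := by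
    refine (norm_integral_le_integral_norm _).trans (le_of_eq ?_)
    rw [← integral_const_mul]
    refine integral_congr_ae (Eventually.of_forall fun t => ?_)
    simp only
    rw [norm_mul, Complex.norm_cpow_eq_rpow_re_of_pos hx0, mul_comm]
    rfl
  have h2 : x ^ (1 / 2 + δ) = √x * Real.exp 1 := by
    rw [Real.rpow_add hx0, ← Real.sqrt_eq_rpow]
    congr 1
    rw [Real.rpow_def_of_pos hx0, hδ]
    congr 1
    field_simp
  have h3 := hHi δ hδ0 hδ1
  have h4 : 1 / δ = Real.log x := by rw [hδ, one_div_one_div]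
  rw [h4] at h3
  rw [Real.norm_of_nonneg (by positivity)]
  calc 1 / (2 * Real.pi) * ‖∫ t : ℝ, H (pt (1 / 2 + δ) t) * (x : ℂ) ^ (pt (1 / 2 + δ) t)‖ ≤
      1 / (2 * Real.pi) * ((√x * Real.exp 1) * (C * Real.log x ^ q)) := by
        rw [h2] at h1
        refine mul_le_mul_of_nonneg_left (h1.trans ?_) (by positivity)
        exact mul_le_mul_of_nonneg_left h3 (by positivity)
    _ = _ := by ring

end Pool.Agent.APX
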