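import Mathlib
import Pool.Agent.Lib.APX.Defs

/-!
# APX, row U1: the transfer from the Dirichlet series to the Riesz means.  (helper40)
-/

set_option autoImplicit false

namespace Pool.Agent.APX

open Filter Topology Asymptotics MeasureTheory Set Pool.Agent.ZP

noncomputable section

namespace U1x

/-- powers of the logarithm -/
theorem log_pow_le (k : ℕ) {η : ℝ} (hη : 0 < η) : ∃ K : ℝ, 0 ≤ K ∧ ∀ t : ℝ, 1 ≤ t →
    Real.log t ^ k ≤ K * t ^ η := by
  rcases Nat.eq_zero_or_pos k with hk | hk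
  · subst hk
    refine ⟨1, by norm_num, fun t ht => ?_⟩
    rw [pow_zero, one_mul]
    exact Real.one_le_rpow ht hη.le
  · have hk0 : (0 : ℝ) < k := by exact_mod_cast hk
    refine ⟨(k / η) ^ k, by positivity, fun t ht => ?_⟩
    have h1 : Real.log t ≤ t ^ (η / k) / (η / k) := Real.log_le_rpow_div (by linarith) (by positivity)
    have h2 : 0 ≤ Real.log t := Real.log_nonneg ht
    calc Real.log t ^ k ≤ (t ^ (η / k) / (η / k)) ^ k := pow_le_pow_left₀ h2 h1 k
      _ = (k / η) ^ k * t ^ η := by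
          rw [div_pow, ← Real.rpow_natCast (t ^ (η / k)) k, ← Real.rpow_mul (by linarith)]
          have h3 : η / k * k = η := by field_simp
          rw [h3, div_pow, div_pow]
          field_simp

/-- distance to a pole -/
theorem dist_ge {T' : ℝ} (hT' : 1 ≤ T') {ρ : ℂ} (hρ : |ρ.im| < T') {s : ℂ} (hs : T' ≤ |s.im|) :
    (T' - |ρ.im|) / (1 + T') * (1 + |s.im|) ≤ ‖s - ρ‖ := by
  have h1 : |s.im| - |ρ.im| ≤ ‖s - ρ‖ := by
    have h2 := Complex.abs_im_le_norm (s - ρ)
    rw [Complex.sub_im] at h2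
    have h3 := abs_sub_abs_le_abs_sub s.im ρ.im
    linarith
  refine le_trans ?_ h1
  rw [div_mul_eq_mul_div, div_le_iff₀ (by linarith)]
  have h4 : 0 ≤ |ρ.im| := abs_nonneg _
  nlinarith [mul_nonneg (sub_nonneg.2 hs) (by linarith : (0 : ℝ) ≤ 1 + |ρ.im|)]

/-- the modified principal part -/
def R (c : ℂ × ℕ → ℂ) (p : ℂ × ℕ) (s : ℂ) : ℂ :=
  c p / (s - p.1) ^ (p.2 + 1) - (if p.2 = 0 then c p / s else 0)

theorem R_bound {T' : ℝ} (hT' : 1 ≤ T') (c : ℂ × ℕ → ℂ) (p : ℂ × ℕ) (hp : |p.1.im| < T') :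
    ∃ K : ℝ, 0 ≤ K ∧ ∀ s : ℂ, T' ≤ |s.im| → ‖R c p s‖ ≤ K / (1 + s.im ^ 2) := by
  obtain ⟨ρ, j⟩ := p
  simp only at hp
  set d : ℝ := (T' - |ρ.im|) / (1 + T') with hd
  set d0 : ℝ := T' / (1 + T') with hd0
  have hdp : 0 < d := div_pos (by linarith) (by linarith)
  have hd0p : 0 < d0 := div_pos (by linarith) (by linarith)
  have key : ∀ s : ℂ, T' ≤ |s.im| → d * (1 + |s.im|) ≤ ‖s - ρ‖ ∧ d0 * (1 + |s.im|) ≤ ‖s‖ := by
    intro s hs
    refine ⟨dist_ge hT' hp hs, ?_⟩
    have h1 := dist_ge hT' (ρ := 0) (by simpa using (by linarith : (0 : ℝ) < T')) hs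
    simpa using h1
  have hsq : ∀ s : ℂ, 1 + s.im ^ 2 ≤ (1 + |s.im|) ^ 2 := by
    intro s
    have := sq_abs s.im
    nlinarith [abs_nonneg s.im]
  rcases Nat.eq_zero_or_pos j with hj | hj
  · subst hj
    refine ⟨‖c (ρ, 0)‖ * ‖ρ‖ / (d * d0), by positivity, fun s hs => ?_⟩
    obtain ⟨h1, h2⟩ := key s hs
    have hs0 : 0 < ‖s‖ := lt_of_lt_of_le (by positivity) h2
    have hs1 : 0 < ‖s - ρ‖ := lt_of_lt_of_le (by positivity) h1
    have h3 : R c (ρ, 0) s = c (ρ, 0) * ρ / ((s - ρ) * s) := by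
      unfold R
      have e1 : s - ρ ≠ 0 := norm_pos_iff.1 hs1
      have e2 : s ≠ 0 := norm_pos_iff.1 hs0
      simp only [zero_add, pow_one, if_true]
      field_simp
      ring
    rw [h3, norm_div, norm_mul, norm_mul, div_div]
    apply div_le_div_of_nonneg_left (by positivity) (by positivity)
    calc d * d0 * (1 + s.im ^ 2) ≤ d * d0 * (1 + |s.im|) ^ 2 := by
          apply mul_le_mul_of_nonneg_left (hsq s) (by positivity)
      _ = (d * (1 + |s.im|)) * (d0 * (1 + |s.im|)) := by ring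
      _ ≤ ‖s - ρ‖ * ‖s‖ := mul_le_mul h1 h2 (by positivity) (norm_nonneg _)
  · refine ⟨‖c (ρ, j)‖ / d ^ (j + 1), by positivity, fun s hs => ?_⟩
    obtain ⟨h1, -⟩ := key s hs
    have h3 : R c (ρ, j) s = c (ρ, j) / (s - ρ) ^ (j + 1) := by
      unfold R
      simp [hj.ne']
    rw [h3, norm_div, norm_pow, div_div]
    apply div_le_div_of_nonneg_left (by positivity) (by positivity)
    calc d ^ (j + 1) * (1 + s.im ^ 2) ≤ d ^ (j + 1) * (1 + |s.im|) ^ 2 := by
          apply mul_le_mul_of_nonneg_left (hsq s) (by positivity)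
      _ ≤ d ^ (j + 1) * (1 + |s.im|) ^ (j + 1) := by
          apply mul_le_mul_of_nonneg_left _ (by positivity)
          exact pow_le_pow_right₀ (by linarith [abs_nonneg s.im]) (by omega)
      _ = (d * (1 + |s.im|)) ^ (j + 1) := by rw [mul_pow]
      _ ≤ ‖s - ρ‖ ^ (j + 1) := pow_le_pow_left₀ (by positivity) h1 _

theorem R_sum_bound {T' : ℝ} (hT' : 1 ≤ T') (c : ℂ × ℕ → ℂ) (S : Finset (ℂ × ℕ))
    (hS : ∀ p ∈ S, |p.1.im| < T') :
    ∃ K : ℝ, 0 ≤ K ∧ ∀ s : ℂ, T' ≤ |s.im| → ‖∑ p ∈ S, R c p s‖ ≤ K / (1 + s.im ^ 2) := by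
  classical
  induction S using Finset.induction_on with
  | empty => exact ⟨0, le_refl _, fun s _ => by simp⟩
  | insert p S hpS ih =>
    obtain ⟨K1, hK1, h1⟩ := ih (fun q hq => hS q (Finset.mem_insert_of_mem hq))
    obtain ⟨K2, hK2, h2⟩ := R_bound hT' c p (hS p (Finset.mem_insert_self _ _))
    refine ⟨K2 + K1, by linarith, fun s hs => ?_⟩
    rw [Finset.sum_insert hpS, add_div]
    exact (norm_add_le _ _).trans (add_le_add (h2 s hs) (h1 s hs))

/-- the norm of the power -/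
theorem norm_pow_le {κ : ℝ} (hκ : 0 < κ) {s : ℂ} {τ : ℝ} (hτ : 0 < τ) (h : τ ≤ ‖s‖) :
    ‖s ^ (-(κ : ℂ) - 1)‖ ≤ τ ^ (-κ - 1) := by
  have h1 : (-(κ : ℂ) - 1) = ((-κ - 1 : ℝ) : ℂ) := by push_cast; ring
  rw [h1, Complex.norm_cpow_real]
  exact Real.rpow_le_rpow_of_nonpos hτ h (by linarith)

/-- the error function -/
def ee (κ : ℝ) (a : ℕ → ℝ) (S : Finset (ℂ × ℕ)) (c : ℂ × ℕ → ℂ) (x : ℝ) : ℂ :=
  (riesz κ a (max x 1) : ℂ)
    - ∑ p ∈ S, c p / (p.2.factorial : ℂ) * (((max x 1 : ℝ) : ℂ) ^ p.1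
      * ((Real.log (max x 1) : ℝ) : ℂ) ^ p.2)
    + ∑ p ∈ S, (if p.2 = 0 then c p else 0)

theorem ee_cont {κ : ℝ} {a : ℕ → ℝ} (hr : Continuous (riesz κ a)) (S : Finset (ℂ × ℕ))
    (c : ℂ × ℕ → ℂ) : Continuous (ee κ a S c) := by
  unfold ee
  have hm : Continuous (fun x : ℝ => max x 1) := continuous_id.max continuous_const
  have hm0 : ∀ x : ℝ, (0 : ℝ) < max x 1 := fun x => lt_of_lt_of_le one_pos (le_max_right _ _)
  refine Continuous.add (Continuous.sub ?_ ?_) continuous_const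
  · exact Complex.continuous_ofReal.comp (hr.comp hm)
  · refine continuous_finset_sum _ fun p _ => ?_
    refine continuous_const.mul (Continuous.mul ?_ ?_)
    · refine Continuous.cpow (Complex.continuous_ofReal.comp hm) continuous_const fun x => ?_
      exact Complex.ofReal_mem_slitPlane.2 (hm0 x)
    · exact (Complex.continuous_ofReal.comp (hm.log fun x => (hm0 x).ne')).pow _

theorem ee_zero {κ : ℝ} {a : ℕ → ℝ} (hr : ∀ x ≤ 1, riesz κ a x = 0) (S : Finset (ℂ × ℕ))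
    (c : ℂ × ℕ → ℂ) {x : ℝ} (hx : x ≤ 1) : ee κ a S c x = 0 := by
  unfold ee
  rw [max_eq_right hx, hr 1 le_rfl]
  have h1 : ∀ p ∈ S, c p / (p.2.factorial : ℂ) * (((1 : ℝ) : ℂ) ^ p.1
      * ((Real.log 1 : ℝ) : ℂ) ^ p.2) = if p.2 = 0 then c p else 0 := by
    intro p _
    rw [Real.log_one, Complex.ofReal_one, Complex.one_cpow, Complex.ofReal_zero, one_mul]
    split_ifs with h
    · rw [h]; simp
    · rw [zero_pow h, mul_zero]
  rw [Finset.sum_congr rfl h1]
  simp

theorem ee_eq {κ : ℝ} {a : ℕ → ℝ} (S : Finset (ℂ × ℕ)) (c : ℂ × ℕ → ℂ) {x : ℝ} (hx : 1 ≤ x) :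
    ee κ a S c x = (riesz κ a x : ℂ)
      - ∑ p ∈ S, c p / (p.2.factorial : ℂ) * ((x : ℂ) ^ p.1 * ((Real.log x : ℝ) : ℂ) ^ p.2)
      + ∑ p ∈ S, (if p.2 = 0 then c p else 0) := by
  unfold ee
  rw [max_eq_left hx]

/-- the transform of the error function -/
theorem ee_trans (hT1 : T1_stmt) (hT2 : T2_stmt) {κ : ℝ} (hκ : 0 < κ) {a : ℕ → ℝ} (ha : DS a)
    (S : Finset (ℂ × ℕ)) (c : ℂ × ℕ → ℂ) {s : ℂ} (hs : s.re = 2) (hS : ∀ p ∈ S, p.1.re < 2) :
    IntegrableOn (fun x : ℝ => ee κ a S c x * (x : ℂ) ^ (-s - 1)) (Ioi 1) ∧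
    ∫ x in Ioi (1 : ℝ), ee κ a S c x * (x : ℂ) ^ (-s - 1)
      = LSeries (fun n => (a n : ℂ)) s * s ^ (-(κ : ℂ) - 1)
        - ∑ p ∈ S, c p / (s - p.1) ^ (p.2 + 1) + ∑ p ∈ S, (if p.2 = 0 then c p / s else 0) := by
  obtain ⟨-, -, h1⟩ := hT1 κ a hκ ha
  obtain ⟨i1, v1⟩ := h1 s (by rw [hs]; norm_num)
  have h2 : ∀ p ∈ S, IntegrableOn (fun x : ℝ => c p / (p.2.factorial : ℂ)
      * ((x : ℂ) ^ p.1 * ((Real.log x : ℝ) : ℂ) ^ p.2 * (x : ℂ) ^ (-s - 1))) (Ioi 1) ∧
      ∫ x in Ioi (1 : ℝ), c p / (p.2.factorial : ℂ)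
        * ((x : ℂ) ^ p.1 * ((Real.log x : ℝ) : ℂ) ^ p.2 * (x : ℂ) ^ (-s - 1))
        = c p / (s - p.1) ^ (p.2 + 1) := by
    intro p hp
    obtain ⟨i2, v2⟩ := hT2 p.1 p.2 s (by rw [hs]; exact hS p hp)
    refine ⟨i2.const_mul _, ?_⟩
    rw [integral_const_mul, v2]
    have hf : (p.2.factorial : ℂ) ≠ 0 := by exact_mod_cast p.2.factorial_ne_zero
    have hne : s - p.1 ≠ 0 := by
      intro h
      have : (s - p.1).re = 0 := by rw [h]; simp
      rw [Complex.sub_re, hs] at this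
      have := hS p hp
      linarith
    field_simp
  have h3 : IntegrableOn (fun x : ℝ => (x : ℂ) ^ (-s - 1)) (Ioi 1) ∧
      ∫ x in Ioi (1 : ℝ), (x : ℂ) ^ (-s - 1) = 1 / s := by
    obtain ⟨i3, v3⟩ := hT2 0 0 s (by rw [hs]; norm_num)
    simp only [Complex.cpow_zero, pow_zero, one_mul, Nat.factorial_zero, Nat.cast_one, sub_zero,
      zero_add, pow_one] at i3 v3
    exact ⟨i3, v3⟩
  have hcongr : EqOn (fun x : ℝ => ee κ a S c x * (x : ℂ) ^ (-s - 1))
      (fun x : ℝ => ((riesz κ a x : ℂ) * (x : ℂ) ^ (-s - 1)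
        - ∑ p ∈ S, c p / (p.2.factorial : ℂ)
          * ((x : ℂ) ^ p.1 * ((Real.log x : ℝ) : ℂ) ^ p.2 * (x : ℂ) ^ (-s - 1)))
        + (∑ p ∈ S, (if p.2 = 0 then c p else 0)) * (x : ℂ) ^ (-s - 1)) (Ioi 1) := by
    intro x hx
    simp only
    rw [ee_eq S c (le_of_lt hx), add_mul, sub_mul, Finset.sum_mul]
    congr 2
    refine Finset.sum_congr rfl fun p _ => ?_
    ring
  have i4 : IntegrableOn (fun x : ℝ => ∑ p ∈ S, c p / (p.2.factorial : ℂ)
      * ((x : ℂ) ^ p.1 * ((Real.log x : ℝ) : ℂ) ^ p.2 * (x : ℂ) ^ (-s - 1))) (Ioi 1) :=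
    integrable_finset_sum _ fun p hp => (h2 p hp).1
  have i5 : IntegrableOn (fun x : ℝ => (∑ p ∈ S, (if p.2 = 0 then c p else 0))
      * (x : ℂ) ^ (-s - 1)) (Ioi 1) := h3.1.const_mul _
  refine ⟨((i1.sub i4).add i5).congr_fun hcongr.symm measurableSet_Ioi, ?_⟩
  rw [setIntegral_congr_fun measurableSet_Ioi hcongr]
  have e1 := integral_add (i1.sub i4) i5
  simp only [Pi.sub_apply, Pi.add_apply] at e1
  rw [e1, integral_sub i1 i4, v1, integral_finset_sum _ (fun p hp => (h2 p hp).1),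
    integral_const_mul, h3.2, Finset.sum_mul]
  congr 1
  · rw [Finset.sum_congr rfl fun p hp => (h2 p hp).2]
  · refine Finset.sum_congr rfl fun p _ => ?_
    split_ifs <;> ring

/-- the mean value on a vertical half line -/
theorem tail_bound {A : ℂ → ℂ} {κ b C T' : ℝ} (q : ℕ) (hb : b < κ) (hT' : 1 ≤ T') {σ δ : ℝ}
    (hδ : 0 < δ) (hκ : 0 < κ) (hcont : ContinuousOn (fun u : ℝ => A (pt σ u)) (Ici T'))
    (hint : ∀ t : ℝ, T' ≤ t → ∫ u in t..(t + 1), ‖A (pt σ u)‖ ≤ C * t ^ b * (1 / δ) ^ q) :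
    ∫⁻ u in Ioi T', ENNReal.ofReal (‖A (pt σ u)‖ * u ^ (-κ - 1))
      ≤ ENNReal.ofReal (|C| * (∑' k : ℕ, ((k + 1 : ℕ) : ℝ) ^ (b - κ - 1)) * (1 / δ) ^ q) := by
  have hr : b - κ - 1 < -1 := by linarith
  have hsum : Summable (fun k : ℕ => ((k + 1 : ℕ) : ℝ) ^ (b - κ - 1)) :=
    (summable_nat_add_iff 1).2 (Real.summable_nat_rpow.2 hr)
  have hcov : Ioi T' ⊆ ⋃ k : ℕ, Ioc (T' + k) (T' + k + 1) := by
    intro u hu
    have hu' : T' < u := hu
    set k : ℕ := ⌈u - T'⌉₊ - 1 with hk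
    have h1 : 0 < ⌈u - T'⌉₊ := Nat.ceil_pos.2 (by linarith)
    have h2 : u - T' ≤ ⌈u - T'⌉₊ := Nat.le_ceil _
    have h3 : (⌈u - T'⌉₊ : ℝ) < u - T' + 1 := Nat.ceil_lt_add_one (by linarith)
    have h4 : ((k : ℕ) : ℝ) = (⌈u - T'⌉₊ : ℝ) - 1 := by
      rw [hk, Nat.cast_sub (by omega)]; norm_num
    refine mem_iUnion.2 ⟨k, ?_, ?_⟩ <;> rw [h4] <;> linarith
  have hpiece : ∀ k : ℕ, ∫⁻ u in Ioc (T' + k) (T' + k + 1),
      ENNReal.ofReal (‖A (pt σ u)‖ * u ^ (-κ - 1))
      ≤ ENNReal.ofReal (|C| * (1 / δ) ^ q * ((k + 1 : ℕ) : ℝ) ^ (b - κ - 1)) := by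
    intro k
    have hk0 : (0 : ℝ) ≤ k := Nat.cast_nonneg k
    have hTk : (0 : ℝ) < T' + k := by linarith
    have hcont' : ContinuousOn (fun u : ℝ => ‖A (pt σ u)‖) (Icc (T' + k) (T' + k + 1)) :=
      (hcont.mono fun u hu => by
        have := hu.1
        show T' ≤ u
        linarith).norm
    have hii : IntegrableOn (fun u : ℝ => ‖A (pt σ u)‖) (Ioc (T' + k) (T' + k + 1)) :=
      (hcont'.integrableOn_Icc).mono_set Ioc_subset_Icc_self
    calc ∫⁻ u in Ioc (T' + k) (T' + k + 1), ENNReal.ofReal (‖A (pt σ u)‖ * u ^ (-κ - 1))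
        ≤ ∫⁻ u in Ioc (T' + k) (T' + k + 1), ENNReal.ofReal (‖A (pt σ u)‖)
            * ENNReal.ofReal ((T' + k) ^ (-κ - 1)) := by
          apply setLIntegral_mono' measurableSet_Ioc
          intro u hu
          rw [← ENNReal.ofReal_mul (norm_nonneg _)]
          apply ENNReal.ofReal_le_ofReal
          apply mul_le_mul_of_nonneg_left _ (norm_nonneg _)
          exact Real.rpow_le_rpow_of_nonpos hTk hu.1.le (by linarith)
      _ = (∫⁻ u in Ioc (T' + k) (T' + k + 1), ENNReal.ofReal (‖A (pt σ u)‖))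
            * ENNReal.ofReal ((T' + k) ^ (-κ - 1)) := lintegral_mul_const' _ _ ENNReal.ofReal_ne_top
      _ = ENNReal.ofReal (∫ u in Ioc (T' + k) (T' + k + 1), ‖A (pt σ u)‖)
            * ENNReal.ofReal ((T' + k) ^ (-κ - 1)) := by
          rw [ofReal_integral_eq_lintegral_ofReal hii (ae_of_all _ fun u => norm_nonneg _)]
      _ ≤ ENNReal.ofReal (|C| * (T' + k) ^ b * (1 / δ) ^ q) * ENNReal.ofReal ((T' + k) ^ (-κ - 1)) := by
          gcongr
          have h1 := hint (T' + k) (by linarith)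
          rw [intervalIntegral.integral_of_le (by linarith)] at h1
          refine h1.trans ?_
          have h2 : C ≤ |C| := le_abs_self C
          gcongr
      _ = ENNReal.ofReal (|C| * (T' + k) ^ b * (1 / δ) ^ q * (T' + k) ^ (-κ - 1)) := by
          rw [← ENNReal.ofReal_mul (by positivity)]
      _ ≤ ENNReal.ofReal (|C| * (1 / δ) ^ q * ((k + 1 : ℕ) : ℝ) ^ (b - κ - 1)) := by
          apply ENNReal.ofReal_le_ofReal
          have h1 : (T' + k) ^ b * (T' + k) ^ (-κ - 1) = (T' + k) ^ (b - κ - 1) := by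
            rw [← Real.rpow_add hTk]; congr 1; ring
          have h2 : (T' + k) ^ (b - κ - 1) ≤ ((k + 1 : ℕ) : ℝ) ^ (b - κ - 1) := by
            apply Real.rpow_le_rpow_of_nonpos (by positivity) _ (by linarith)
            push_cast
            linarith
          calc |C| * (T' + k) ^ b * (1 / δ) ^ q * (T' + k) ^ (-κ - 1)
              = |C| * (1 / δ) ^ q * ((T' + k) ^ b * (T' + k) ^ (-κ - 1)) := by ring
            _ ≤ |C| * (1 / δ) ^ q * ((k + 1 : ℕ) : ℝ) ^ (b - κ - 1) := by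
                rw [h1]
                exact mul_le_mul_of_nonneg_left h2 (by positivity)
  calc ∫⁻ u in Ioi T', ENNReal.ofReal (‖A (pt σ u)‖ * u ^ (-κ - 1))
      ≤ ∫⁻ u in ⋃ k : ℕ, Ioc (T' + k) (T' + k + 1),
          ENNReal.ofReal (‖A (pt σ u)‖ * u ^ (-κ - 1)) := lintegral_mono_set hcov
    _ ≤ ∑' k : ℕ, ∫⁻ u in Ioc (T' + k) (T' + k + 1),
          ENNReal.ofReal (‖A (pt σ u)‖ * u ^ (-κ - 1)) := lintegral_iUnion_le _ _
    _ ≤ ∑' k : ℕ, ENNReal.ofReal (|C| * (1 / δ) ^ q * ((k + 1 : ℕ) : ℝ) ^ (b - κ - 1)) :=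
        ENNReal.tsum_le_tsum hpiece
    _ = ENNReal.ofReal (∑' k : ℕ, |C| * (1 / δ) ^ q * ((k + 1 : ℕ) : ℝ) ^ (b - κ - 1)) := by
        rw [ENNReal.ofReal_tsum_of_nonneg (fun k => by positivity) (hsum.mul_left _)]
    _ = ENNReal.ofReal (|C| * (∑' k : ℕ, ((k + 1 : ℕ) : ℝ) ^ (b - κ - 1)) * (1 / δ) ^ q) := by
        rw [tsum_mul_left]
        congr 1
        ring

/-- the integral over the line from the bound -/
theorem line_bound {G : ℝ → ℂ} {g : ℝ → ℝ} {K1 K2 T' : ℝ} (hK1 : 0 ≤ K1) (hK2 : 0 ≤ K2)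
    (hG : Continuous G)
    (hg : ContinuousOn g (Ioi T'))
    (hb : ∀ t : ℝ, ‖G t‖ ≤ K1 * (1 + t ^ 2)⁻¹ + (if T' < |t| then g |t| else 0))
    (hi : ∫⁻ u in Ioi T', ENNReal.ofReal (g u) ≤ ENNReal.ofReal K2) :
    ∫ t : ℝ, ‖G t‖ ≤ K1 * Real.pi + 2 * K2 := by
  set F : ℝ → ENNReal := (Ioi T').indicator (fun u => ENNReal.ofReal (g u)) with hF
  have hFm : AEMeasurable F volume := by
    rw [hF, aemeasurable_indicator_iff measurableSet_Ioi]
    exact (hg.aemeasurable measurableSet_Ioi).ennreal_ofReal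
  have hFi : ∫⁻ t, F t ≤ ENNReal.ofReal K2 := by
    rw [hF, lintegral_indicator measurableSet_Ioi]
    exact hi
  have hFi' : ∫⁻ t, F (-t) ≤ ENNReal.ofReal K2 := by
    rw [lintegral_neg_eq_self]
    exact hFi
  have h1 : ∀ t : ℝ, ENNReal.ofReal ‖G t‖ ≤ ENNReal.ofReal (K1 * (1 + t ^ 2)⁻¹) + (F t + F (-t)) := by
    intro t
    have h2 : ENNReal.ofReal (if T' < |t| then g |t| else 0) ≤ F t + F (-t) := by
      split_ifs with h
      · rcases le_or_gt 0 t with ht | ht
        · rw [abs_of_nonneg ht] at h ⊢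
          refine le_trans ?_ (le_add_of_nonneg_right zero_le')
          rw [hF, indicator_of_mem (show t ∈ Ioi T' from h)]
        · rw [abs_of_neg ht] at h ⊢
          refine le_trans ?_ (le_add_of_nonneg_left zero_le')
          rw [hF, indicator_of_mem (show -t ∈ Ioi T' from h)]
      · rw [ENNReal.ofReal_zero]; exact zero_le'
    calc ENNReal.ofReal ‖G t‖ ≤ ENNReal.ofReal (K1 * (1 + t ^ 2)⁻¹
          + (if T' < |t| then g |t| else 0)) := ENNReal.ofReal_le_ofReal (hb t)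
      _ ≤ ENNReal.ofReal (K1 * (1 + t ^ 2)⁻¹) + ENNReal.ofReal (if T' < |t| then g |t| else 0) :=
          ENNReal.ofReal_add_le
      _ ≤ _ := by gcongr
  have hint1 : Integrable (fun t : ℝ => K1 * (1 + t ^ 2)⁻¹) :=
    integrable_inv_one_add_sq.const_mul K1
  have h3 : ∫⁻ t, ENNReal.ofReal ‖G t‖ ≤ ENNReal.ofReal (K1 * Real.pi + 2 * K2) := by
    calc ∫⁻ t, ENNReal.ofReal ‖G t‖
        ≤ ∫⁻ t, (ENNReal.ofReal (K1 * (1 + t ^ 2)⁻¹) + (F t + F (-t))) := lintegral_mono h1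
      _ = (∫⁻ t, ENNReal.ofReal (K1 * (1 + t ^ 2)⁻¹)) + ∫⁻ t, (F t + F (-t)) :=
          lintegral_add_left' hint1.aemeasurable.ennreal_ofReal _
      _ = (∫⁻ t, ENNReal.ofReal (K1 * (1 + t ^ 2)⁻¹)) + ((∫⁻ t, F t) + ∫⁻ t, F (-t)) := by
          rw [lintegral_add_left' hFm]
      _ ≤ ENNReal.ofReal (K1 * Real.pi) + (ENNReal.ofReal K2 + ENNReal.ofReal K2) := by
          gcongr
          rw [← ofReal_integral_eq_lintegral_ofReal hint1 (ae_of_all _ fun t => by positivity),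
            integral_const_mul, integral_univ_inv_one_add_sq]
      _ = ENNReal.ofReal (K1 * Real.pi + 2 * K2) := by
          rw [← ENNReal.ofReal_add hK2 hK2, ← ENNReal.ofReal_add (by positivity) (by positivity)]
          congr 1
          ring
  rw [integral_eq_lintegral_of_nonneg_ae (ae_of_all _ fun t => norm_nonneg _)
    hG.norm.aestronglyMeasurable]
  exact ENNReal.toReal_le_of_le_ofReal (by positivity) h3

end U1x

/-- Row U1 -/
theorem u1 : U1_stmt := by
  intro hT1 hT2 hT3 hM1 a κ q A b C T0 ha hκ hb hT0 hL hmer han hconj hbd hint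
  have hfan : ∀ s : ℂ, 0 < s.re → AnalyticAt ℂ (fun s : ℂ => s ^ (-(κ : ℂ) - 1)) s := by
    intro s hs
    exact analyticAt_id.cpow analyticAt_const (Or.inl hs)
  obtain ⟨T', S, c, H0, C0, hT'1, hT'2, hS, hH0d, hH0e, hH0b⟩ :=
    hM1 (fun s => A s * s ^ (-(κ : ℂ) - 1)) T0
      (hmer.mul fun s hs => (hfan s (by
        have : (1 / 4 : ℝ) < s.re := hs
        linarith)).meromorphicAt)
      (fun s hs h => (han s hs h).mul (hfan s (by linarith)))
  have hT' : 1 ≤ T' := hT0.trans hT'1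
  obtain ⟨KR, hKR, hRb⟩ := U1x.R_sum_bound hT' c S (fun p hp => (hS p hp).2.2)
  set H : ℂ → ℂ := fun s => H0 s + ∑ p ∈ S, (if p.2 = 0 then c p / s else 0) with hHdef
  set e : ℝ → ℂ := U1x.ee κ a S c with hedef
  -- the formula away from the poles
  have hHform : ∀ s : ℂ, 1 / 2 < s.re → (2 ≤ s.re ∨ T' ≤ |s.im|) →
      H s = A s * s ^ (-(κ : ℂ) - 1) - ∑ p ∈ S, U1x.R c p s := by
    intro s h1 h2
    simp only [hHdef]
    rw [hH0e s h1 h2]
    unfold U1x.R
    rw [Finset.sum_sub_distrib]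
    ring
  -- the bound in the compact part
  set K0 : ℝ := |C0| + 2 * ∑ p ∈ S, ‖c p‖ with hK0
  have hK0n : 0 ≤ K0 := by positivity
  have hHb0 : ∀ s : ℂ, 1 / 2 < s.re → s.re ≤ 2 → |s.im| ≤ T' → ‖H s‖ ≤ K0 := by
    intro s h1 h2 h3
    have h4 : (1 / 2 : ℝ) ≤ ‖s‖ := by
      have := Complex.abs_re_le_norm s
      rw [abs_of_pos (by linarith)] at this
      linarith
    have h5 : ‖∑ p ∈ S, (if p.2 = 0 then c p / s else 0)‖ ≤ 2 * ∑ p ∈ S, ‖c p‖ := by
      rw [Finset.mul_sum]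
      refine (norm_sum_le _ _).trans (Finset.sum_le_sum fun p _ => ?_)
      split_ifs
      · rw [norm_div, div_le_iff₀ (by linarith)]
        nlinarith [norm_nonneg (c p)]
      · rw [norm_zero]; positivity
    calc ‖H s‖ ≤ ‖H0 s‖ + ‖∑ p ∈ S, (if p.2 = 0 then c p / s else 0)‖ := norm_add_le _ _
      _ ≤ |C0| + 2 * ∑ p ∈ S, ‖c p‖ := add_le_add ((hH0b s h1 h2 h3).trans (le_abs_self _)) h5
  -- differentiability
  have hHd : DifferentiableOn ℂ H {s | 1 / 2 < s.re} := by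
    refine hH0d.add ?_
    refine DifferentiableOn.fun_sum fun p _ => ?_
    split_ifs
    · refine (differentiableOn_const _).div differentiableOn_id fun s hs h0 => ?_
      have h1 : (1 / 2 : ℝ) < s.re := hs
      rw [show s = 0 from h0] at h1
      norm_num at h1
    · exact differentiableOn_const _
  -- the norm of `A` is even in the imaginary part
  have hAabs : ∀ s : ℂ, ‖A s‖ = ‖A (pt s.re |s.im|)‖ := by
    intro s
    rcases le_or_gt 0 s.im with h | h
    · rw [abs_of_nonneg h]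
      congr 2
    · rw [abs_of_neg h, ← hconj s]
      congr 2
  have hfb : ∀ s : ℂ, T' ≤ |s.im| →
      ‖A s * s ^ (-(κ : ℂ) - 1)‖ ≤ ‖A (pt s.re |s.im|)‖ * |s.im| ^ (-κ - 1) := by
    intro s hs
    rw [norm_mul, hAabs s]
    apply mul_le_mul_of_nonneg_left _ (norm_nonneg _)
    exact U1x.norm_pow_le hκ (by linarith) (Complex.abs_im_le_norm s)
  have hHb1 : ∀ s : ℂ, 1 / 2 < s.re → T' ≤ |s.im| →
      ‖H s‖ ≤ ‖A (pt s.re |s.im|)‖ * |s.im| ^ (-κ - 1) + KR / (1 + s.im ^ 2) := by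
    intro s h1 h2
    rw [hHform s h1 (Or.inr h2)]
    exact (norm_sub_le _ _).trans (add_le_add (hfb s h2) (hRb s h2))
  -- the conditions of T3
  obtain ⟨hrc, hr1, -⟩ := hT1 κ a hκ ha
  set Z : ℝ := ∑' k : ℕ, ((k + 1 : ℕ) : ℝ) ^ (b - κ - 1) with hZ
  have hZ0 : 0 ≤ Z := tsum_nonneg fun k => by positivity
  have hmain := hT3 e H q ((K0 * (1 + T' ^ 2) + KR) * Real.pi + 2 * (|C| * Z))
    (U1x.ee_cont hrc S c) (fun x hx => U1x.ee_zero hr1 S c hx)
    (by
      intro s hs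
      obtain ⟨i1, v1⟩ := U1x.ee_trans hT1 hT2 hκ ha S c hs (fun p hp => (hS p hp).2.1)
      refine ⟨i1, ?_⟩
      rw [v1, hL s (by rw [hs]; norm_num)]
      simp only [hHdef]
      rw [hH0e s (by rw [hs]; norm_num) (Or.inl hs.ge)])
    hHd
    (by
      intro δ hδ
      obtain ⟨K, hK, hlog⟩ := U1x.log_pow_le (2 * (q + 1)) (half_pos hκ)
      set η : ℝ := min (κ / 2) 1 with hη
      have hη0 : 0 < η := lt_min (half_pos hκ) one_pos
      have hη1 : η ≤ κ / 2 := min_le_left _ _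
      have hη2 : η ≤ 1 := min_le_right _ _
      refine ⟨K0 * (1 + T') ^ (1 + η) + ((|C| / δ ^ 2) ^ (q + 1) * K * 2 ^ (1 + η) + 2 * KR), η, hη0, ?_⟩
      intro s hs1 hs2
      have hs0 : 1 / 2 < s.re := by linarith
      have h1t : (0 : ℝ) < 1 + |s.im| := by positivity
      have hA0 : 0 ≤ (|C| / δ ^ 2) ^ (q + 1) * K * (2 : ℝ) ^ (1 + η) + 2 * KR := by positivity
      rcases le_or_gt |s.im| T' with h | h
      · have h1 : (1 : ℝ) ≤ (1 + T') ^ (1 + η) * (1 + |s.im|) ^ (-1 - η) := by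
          rw [show (-1 - η : ℝ) = -(1 + η) by ring, Real.rpow_neg h1t.le, ← div_eq_mul_inv,
            one_le_div (by positivity)]
          exact Real.rpow_le_rpow h1t.le (by linarith) (by linarith)
        have h2 : 0 ≤ (1 + |s.im|) ^ (-1 - η) := by positivity
        calc ‖H s‖ ≤ K0 := hHb0 s hs0 hs2 h
          _ ≤ K0 * ((1 + T') ^ (1 + η) * (1 + |s.im|) ^ (-1 - η)) := le_mul_of_one_le_right hK0n h1
          _ ≤ (K0 * (1 + T') ^ (1 + η) + ((|C| / δ ^ 2) ^ (q + 1) * K * 2 ^ (1 + η) + 2 * KR))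
              * (1 + |s.im|) ^ (-1 - η) := by
              have h3 := mul_nonneg hA0 h2
              have h4 : K0 * ((1 + T') ^ (1 + η) * (1 + |s.im|) ^ (-1 - η))
                  = K0 * (1 + T') ^ (1 + η) * (1 + |s.im|) ^ (-1 - η) := by ring
              rw [h4, add_mul (K0 * (1 + T') ^ (1 + η))]
              exact le_add_of_nonneg_right h3
      · have ht1 : 1 ≤ |s.im| := hT'.trans h.le
        have ht0 : 0 < |s.im| := by linarith
        -- the bound for `A`
        have hA1 : ‖A (pt s.re |s.im|)‖ ≤ (|C| / δ ^ 2) ^ (q + 1) * (K * |s.im| ^ (κ / 2)) := by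
          have h1 := hbd (pt s.re |s.im|) hs0 hs2 (by
            show T0 ≤ |s.im|
            linarith)
          have h2 : (pt s.re |s.im|).im = |s.im| := rfl
          have h3 : (pt s.re |s.im|).re = s.re := rfl
          rw [h2, h3] at h1
          refine h1.trans ?_
          have h4 : C * Real.log |s.im| ^ 2 / (s.re - 1 / 2) ^ 2
              ≤ |C| / δ ^ 2 * Real.log |s.im| ^ 2 := by
            have h5 : δ ^ 2 ≤ (s.re - 1 / 2) ^ 2 := pow_le_pow_left₀ hδ.le (by linarith) 2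
            calc C * Real.log |s.im| ^ 2 / (s.re - 1 / 2) ^ 2
                ≤ |C| * Real.log |s.im| ^ 2 / (s.re - 1 / 2) ^ 2 := by
                  gcongr
                  exact le_abs_self C
              _ ≤ |C| * Real.log |s.im| ^ 2 / δ ^ 2 := by
                  apply div_le_div_of_nonneg_left (by positivity) (by positivity) h5
              _ = |C| / δ ^ 2 * Real.log |s.im| ^ 2 := by ring
          have h6 : |C * Real.log |s.im| ^ 2 / (s.re - 1 / 2) ^ 2|
              ≤ |C| / δ ^ 2 * Real.log |s.im| ^ 2 := by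
            rw [abs_le]
            refine ⟨?_, h4⟩
            have h5 : δ ^ 2 ≤ (s.re - 1 / 2) ^ 2 := pow_le_pow_left₀ hδ.le (by linarith) 2
            have h7 : -(|C| * Real.log |s.im| ^ 2 / (s.re - 1 / 2) ^ 2)
                ≤ C * Real.log |s.im| ^ 2 / (s.re - 1 / 2) ^ 2 := by
              rw [← neg_div, ← neg_mul]
              gcongr
              exact neg_abs_le C
            have h8 : |C| * Real.log |s.im| ^ 2 / (s.re - 1 / 2) ^ 2
                ≤ |C| / δ ^ 2 * Real.log |s.im| ^ 2 := by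
              calc |C| * Real.log |s.im| ^ 2 / (s.re - 1 / 2) ^ 2
                  ≤ |C| * Real.log |s.im| ^ 2 / δ ^ 2 := by
                    apply div_le_div_of_nonneg_left (by positivity) (by positivity) h5
                _ = |C| / δ ^ 2 * Real.log |s.im| ^ 2 := by ring
            linarith
          calc (C * Real.log |s.im| ^ 2 / (s.re - 1 / 2) ^ 2) ^ (q + 1)
              ≤ |(C * Real.log |s.im| ^ 2 / (s.re - 1 / 2) ^ 2) ^ (q + 1)| := le_abs_self _
            _ = |C * Real.log |s.im| ^ 2 / (s.re - 1 / 2) ^ 2| ^ (q + 1) := abs_pow _ _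
            _ ≤ (|C| / δ ^ 2 * Real.log |s.im| ^ 2) ^ (q + 1) :=
                pow_le_pow_left₀ (abs_nonneg _) h6 _
            _ = (|C| / δ ^ 2) ^ (q + 1) * Real.log |s.im| ^ (2 * (q + 1)) := by
                rw [mul_pow, ← pow_mul]
            _ ≤ (|C| / δ ^ 2) ^ (q + 1) * (K * |s.im| ^ (κ / 2)) := by
                apply mul_le_mul_of_nonneg_left (hlog _ ht1) (by positivity)
        have hpow : |s.im| ^ (κ / 2) * |s.im| ^ (-κ - 1) ≤ 2 ^ (1 + η) * (1 + |s.im|) ^ (-1 - η) := by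
          rw [← Real.rpow_add ht0]
          have h1 : |s.im| ^ (κ / 2 + (-κ - 1)) ≤ |s.im| ^ (-(1 + η)) :=
            Real.rpow_le_rpow_of_exponent_le ht1 (by linarith)
          have h2 : (1 + |s.im|) ^ (1 + η) ≤ 2 ^ (1 + η) * |s.im| ^ (1 + η) := by
            rw [← Real.mul_rpow (by norm_num) ht0.le]
            exact Real.rpow_le_rpow h1t.le (by linarith) (by linarith)
          refine h1.trans ?_
          rw [show (-1 - η : ℝ) = -(1 + η) by ring, Real.rpow_neg ht0.le, Real.rpow_neg h1t.le,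
            ← div_eq_mul_inv, inv_eq_one_div, div_le_div_iff₀ (by positivity) (by positivity)]
          linarith
        have hKR2 : KR / (1 + s.im ^ 2) ≤ 2 * KR * (1 + |s.im|) ^ (-1 - η) := by
          have h1 : (1 + |s.im|) ^ (1 + η) ≤ 2 * (1 + s.im ^ 2) := by
            calc (1 + |s.im|) ^ (1 + η) ≤ (1 + |s.im|) ^ (2 : ℝ) :=
                  Real.rpow_le_rpow_of_exponent_le (by linarith) (by linarith)
              _ = (1 + |s.im|) ^ 2 := by norm_num
              _ ≤ 2 * (1 + s.im ^ 2) := by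
                  have := sq_abs s.im
                  nlinarith [sq_nonneg (|s.im| - 1)]
          rw [show (-1 - η : ℝ) = -(1 + η) by ring, Real.rpow_neg h1t.le, ← div_eq_mul_inv,
            div_le_div_iff₀ (by positivity) (by positivity)]
          calc KR * (1 + |s.im|) ^ (1 + η) ≤ KR * (2 * (1 + s.im ^ 2)) :=
                mul_le_mul_of_nonneg_left h1 hKR
            _ = 2 * KR * (1 + s.im ^ 2) := by ring
        have h2 : 0 ≤ (1 + |s.im|) ^ (-1 - η) := by positivity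
        calc ‖H s‖ ≤ ‖A (pt s.re |s.im|)‖ * |s.im| ^ (-κ - 1) + KR / (1 + s.im ^ 2) :=
              hHb1 s hs0 h.le
          _ ≤ (|C| / δ ^ 2) ^ (q + 1) * (K * |s.im| ^ (κ / 2)) * |s.im| ^ (-κ - 1)
              + 2 * KR * (1 + |s.im|) ^ (-1 - η) := by gcongr
          _ = (|C| / δ ^ 2) ^ (q + 1) * K * (|s.im| ^ (κ / 2) * |s.im| ^ (-κ - 1))
              + 2 * KR * (1 + |s.im|) ^ (-1 - η) := by ring
          _ ≤ (|C| / δ ^ 2) ^ (q + 1) * K * (2 ^ (1 + η) * (1 + |s.im|) ^ (-1 - η))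
              + 2 * KR * (1 + |s.im|) ^ (-1 - η) := by gcongr
          _ = ((|C| / δ ^ 2) ^ (q + 1) * K * 2 ^ (1 + η) + 2 * KR) * (1 + |s.im|) ^ (-1 - η) := by ring
          _ ≤ (K0 * (1 + T') ^ (1 + η) + ((|C| / δ ^ 2) ^ (q + 1) * K * 2 ^ (1 + η) + 2 * KR))
              * (1 + |s.im|) ^ (-1 - η) := by
              apply mul_le_mul_of_nonneg_right _ h2
              have : 0 ≤ K0 * (1 + T') ^ (1 + η) := by positivity
              linarith)
    (by
      intro δ hδ hδ1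
      have hre : ∀ t : ℝ, (pt (1 / 2 + δ) t).re = 1 / 2 + δ := fun t => rfl
      have him : ∀ t : ℝ, (pt (1 / 2 + δ) t).im = t := fun t => rfl
      have hptc : Continuous (fun t : ℝ => pt (1 / 2 + δ) t) := by
        have h1 : (fun t : ℝ => pt (1 / 2 + δ) t)
            = fun t : ℝ => (((1 / 2 + δ : ℝ) : ℂ) + (t : ℂ) * Complex.I) := by
          funext t
          apply Complex.ext <;> simp [pt]
        rw [h1]
        fun_prop
      have hGc : Continuous (fun t : ℝ => H (pt (1 / 2 + δ) t)) := by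
        rw [continuous_iff_continuousAt]
        intro t
        have hopen : IsOpen {s : ℂ | 1 / 2 < s.re} := isOpen_lt continuous_const Complex.continuous_re
        have hmem : pt (1 / 2 + δ) t ∈ {s : ℂ | 1 / 2 < s.re} := by
          show 1 / 2 < 1 / 2 + δ
          linarith
        exact (hHd.continuousOn.continuousAt (hopen.mem_nhds hmem)).comp hptc.continuousAt
      have hAc : ContinuousOn (fun u : ℝ => A (pt (1 / 2 + δ) u)) (Ici T') := by
        intro u hu
        have hu' : T' ≤ u := hu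
        have h1 : AnalyticAt ℂ A (pt (1 / 2 + δ) u) := han _ (by
          show 1 / 2 < 1 / 2 + δ
          linarith) (Or.inr (by
          rw [him, abs_of_nonneg (by linarith)]
          linarith))
        exact (h1.continuousAt.comp hptc.continuousAt).continuousWithinAt
      have htail := U1x.tail_bound (A := A) (κ := κ) (b := b) (C := C) (σ := 1 / 2 + δ) q hb hT' hδ hκ
        hAc (fun t ht => hint t δ (by linarith) hδ hδ1)
      have hline := U1x.line_bound (G := fun t : ℝ => H (pt (1 / 2 + δ) t))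
        (g := fun u : ℝ => ‖A (pt (1 / 2 + δ) u)‖ * u ^ (-κ - 1))
        (K1 := K0 * (1 + T' ^ 2) + KR) (K2 := |C| * Z * (1 / δ) ^ q) (T' := T')
        (by positivity) (by positivity) hGc
        (by
          have hsub : Ioi T' ⊆ Ici T' := Ioi_subset_Ici_self
          refine ContinuousOn.mul ((hAc.mono hsub).norm) ?_
          intro u hu
          have hu' : T' < u := hu
          exact (Real.continuousAt_rpow_const u _ (Or.inl (by linarith))).continuousWithinAt)
        (by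
          intro t
          have h1 : 1 / 2 < (pt (1 / 2 + δ) t).re := by rw [hre]; linarith
          split_ifs with h
          · have h2 := hHb1 (pt (1 / 2 + δ) t) h1 (by rw [him]; exact h.le)
            rw [hre, him] at h2
            refine h2.trans ?_
            rw [add_comm]
            apply add_le_add_left
            rw [div_eq_mul_inv]
            apply mul_le_mul_of_nonneg_right _ (by positivity)
            have : 0 ≤ K0 * (1 + T' ^ 2) := by positivity
            linarith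
          · have h2 := hHb0 (pt (1 / 2 + δ) t) h1 (by rw [hre]; linarith) (by rw [him]; exact not_lt.1 h)
            rw [add_zero]
            refine h2.trans ?_
            rw [← div_eq_mul_inv, le_div_iff₀ (by positivity)]
            have h3 : t ^ 2 ≤ T' ^ 2 := by
              rw [← sq_abs t]
              exact pow_le_pow_left₀ (abs_nonneg t) (not_lt.1 h) 2
            have h4 : K0 * (1 + t ^ 2) ≤ K0 * (1 + T' ^ 2) :=
              mul_le_mul_of_nonneg_left (by linarith) hK0n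
            linarith)
        htail
      refine hline.trans ?_
      have h1 : (1 : ℝ) ≤ (1 / δ) ^ q := one_le_pow₀ (by rw [le_div_iff₀ hδ]; linarith)
      have h2 : 0 ≤ (K0 * (1 + T' ^ 2) + KR) * Real.pi := by positivity
      nlinarith)
  -- conclusion
  refine ⟨S, fun p => c p / (p.2.factorial : ℂ), ?_⟩
  have hconst : (fun _ : ℝ => ∑ p ∈ S, (if p.2 = 0 then c p else 0))
      =O[atTop] fun x : ℝ => √x * Real.log x ^ q := by
    refine IsBigO.of_bound ‖∑ p ∈ S, (if p.2 = 0 then c p else 0)‖ ?_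
    filter_upwards [eventually_ge_atTop (Real.exp 1)] with x hx
    have hx1 : 1 ≤ x := le_trans (by
      have := Real.add_one_le_exp (1 : ℝ)
      linarith) hx
    have h1 : 1 ≤ √x := by rw [Real.one_le_sqrt]; exact hx1
    have h2 : 1 ≤ Real.log x := by
      rw [Real.le_log_iff_exp_le (by linarith)]; exact hx
    have h3 : 1 ≤ √x * Real.log x ^ q := by
      have := one_le_pow₀ (n := q) h2
      nlinarith
    rw [Real.norm_of_nonneg (by linarith)]
    exact le_mul_of_one_le_right (norm_nonneg _) h3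
  refine (hmain.sub hconst).congr' ?_ EventuallyEq.rfl
  filter_upwards [eventually_ge_atTop (1 : ℝ)] with x hx
  rw [hedef, U1x.ee_eq S c hx, add_sub_cancel_right]
  congr 1
  refine Finset.sum_congr rfl fun p _ => ?_
  ring

end

end Pool.Agent.APX
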