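import Pool.Agent.Lib.APX.Defs

/-!
# MP_af3d17_nt, APX: row U2, from the gaps to the Riesz means
-/

set_option autoImplicit false

namespace Pool.Agent.APX

open Filter Topology Set Pool.Agent.ZP

namespace U2x

lemma an_zeta {s : ℂ} (hs : s ≠ 1) : AnalyticAt ℂ riemannZeta s := by
  have h2 : DifferentiableOn ℂ riemannZeta {1}ᶜ := fun s hs =>
    (differentiableAt_riemannZeta hs).differentiableWithinAt
  exact h2.analyticAt (isOpen_compl_singleton.mem_nhds hs)

lemma mero_zeta (s : ℂ) : MeromorphicAt riemannZeta s := by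
  by_cases hs : s = 1
  · rw [hs]
    refine ⟨2, ?_⟩
    apply Complex.analyticAt_of_differentiable_on_punctured_nhds_of_continuousAt
    · filter_upwards [self_mem_nhdsWithin] with z hz
      exact ((differentiableAt_id.sub_const 1).pow 2).smul (differentiableAt_riemannZeta hz)
    · rw [continuousAt_iff_punctured_nhds]
      have h1 : Tendsto (fun z : ℂ => (z - 1)) (𝓝[≠] 1) (𝓝 0) := by
        have : Tendsto (fun z : ℂ => (z - 1)) (𝓝 1) (𝓝 (1 - 1)) :=
          tendsto_id.sub_const 1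
        rw [sub_self] at this
        exact this.mono_left nhdsWithin_le_nhds
      have h2 := h1.mul riemannZeta_residue_one
      rw [zero_mul] at h2
      have h3 : ((1 : ℂ) - 1) ^ 2 • riemannZeta 1 = 0 := by simp
      rw [h3]
      refine h2.congr fun z => ?_
      rw [smul_eq_mul]
      ring
  · exact (an_zeta hs).meromorphicAt

lemma mero_GG : Meromorphic GG := by
  intro s
  exact ((mero_zeta s).deriv.neg).div (mero_zeta s)

lemma mero_FF : Meromorphic FF := by
  intro s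
  exact (mero_zeta s).deriv.deriv.div (mero_zeta s)

lemma an_GG {s : ℂ} (hs : s ≠ 1) (h0 : riemannZeta s ≠ 0) : AnalyticAt ℂ GG s :=
  ((an_zeta hs).deriv.neg).div (an_zeta hs) h0

lemma an_FF {s : ℂ} (hs : s ≠ 1) (h0 : riemannZeta s ≠ 0) : AnalyticAt ℂ FF s :=
  (an_zeta hs).deriv.deriv.div (an_zeta hs) h0

lemma conj_fun : (starRingEnd ℂ) ∘ riemannZeta ∘ (starRingEnd ℂ) = riemannZeta := by
  funext s
  simp only [Function.comp]
  rw [riemannZeta_conj, Complex.conj_conj]

lemma conj_d1 : (starRingEnd ℂ) ∘ deriv riemannZeta ∘ (starRingEnd ℂ) = deriv riemannZeta := by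
  have h := deriv_conj_conj (𝕜 := ℂ) (f := riemannZeta)
  rw [conj_fun] at h
  exact h.symm

lemma conj_d2 : (starRingEnd ℂ) ∘ deriv (deriv riemannZeta) ∘ (starRingEnd ℂ) =
    deriv (deriv riemannZeta) := by
  have h := deriv_conj_conj (𝕜 := ℂ) (f := deriv riemannZeta)
  rw [conj_d1] at h
  exact h.symm

lemma norm_conj_of {f : ℂ → ℂ} (h : (starRingEnd ℂ) ∘ f ∘ (starRingEnd ℂ) = f) (s : ℂ) :
    ‖f ((starRingEnd ℂ) s)‖ = ‖f s‖ := by
  have h1 := congrFun h s
  simp only [Function.comp] at h1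
  rw [← h1, Complex.norm_conj]

lemma conj_GG (s : ℂ) : ‖GG ((starRingEnd ℂ) s)‖ = ‖GG s‖ := by
  rw [GG, GG, norm_div, norm_div, norm_neg, norm_neg, norm_conj_of conj_fun, norm_conj_of conj_d1]

lemma conj_FF (s : ℂ) : ‖FF ((starRingEnd ℂ) s)‖ = ‖FF s‖ := by
  rw [FF, FF, norm_div, norm_div, norm_conj_of conj_fun, norm_conj_of conj_d2]

lemma ne_zero {T1 : ℝ} (hT1 : 100 ≤ T1)
    (h : ∀ s : ℂ, 1 / 2 < s.re → s.re ≤ 2 → T1 ≤ s.im → riemannZeta s ≠ 0) (s : ℂ)
    (hs : 1 / 2 < s.re) (h2 : 2 ≤ s.re ∨ T1 ≤ |s.im|) : s ≠ 1 ∧ riemannZeta s ≠ 0 := by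
  refine ⟨?_, ?_⟩
  · intro h0
    rw [h0] at h2
    rcases h2 with h2 | h2
    · norm_num at h2
    · rw [Complex.one_im, abs_zero] at h2
      linarith
  · by_cases h3 : 2 ≤ s.re
    · exact riemannZeta_ne_zero_of_one_le_re (by linarith)
    have h4 : T1 ≤ |s.im| := h2.resolve_left h3
    rw [not_le] at h3
    rcases le_abs.1 h4 with h5 | h5
    · exact h s hs h3.le h5
    · have h6 := h ((starRingEnd ℂ) s) (by rw [Complex.conj_re]; exact hs)
        (by rw [Complex.conj_re]; exact h3.le) (by rw [Complex.conj_im]; exact h5)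
      rw [riemannZeta_conj] at h6
      intro h7
      rw [h7, map_zero] at h6
      exact h6 rfl

lemma DS_vM : DS (fun n => ArithmeticFunction.vonMangoldt n) :=
  ⟨fun _ => ArithmeticFunction.vonMangoldt_nonneg,
    fun _ hs => ArithmeticFunction.LSeriesSummable_vonMangoldt hs⟩

lemma log_le {b t : ℝ} (hb : 0 < b) (ht : 1 ≤ t) : Real.log (t + 1) ≤ 2 ^ b / b * t ^ b := by
  have h1 : Real.log (t + 1) ≤ (t + 1) ^ b / b := Real.log_le_rpow_div (by linarith) hb
  refine h1.trans ?_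
  have h2 : (t + 1) ^ b ≤ (2 * t) ^ b := Real.rpow_le_rpow (by linarith) (by linarith) hb.le
  rw [Real.mul_rpow (by norm_num) (by linarith)] at h2
  calc (t + 1) ^ b / b ≤ 2 ^ b * t ^ b / b := div_le_div_of_nonneg_right h2 hb.le
    _ = _ := by ring

end U2x

open U2x in
/-- Row U2. -/
theorem u2 : U2_stmt := by
  intro hT1 hT2 hT3 hM1 hU1 hR2 hL1 hC1 T0 a κ m hRH ha hSep hm hma
  have hm0 : (0 : ℝ) < m := by
    have : 0 < m := by omega
    exact_mod_cast this
  have hma0 : 0 < m * a := by positivity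
  have hκ : 0 < κ := hma0.trans hma
  set b : ℝ := (m * a + κ) / 2 with hb
  have hb1 : m * a < b := by rw [hb]; linarith
  have hb2 : b < κ := by rw [hb]; linarith
  have hb0 : 0 < b := hma0.trans hb1
  obtain ⟨C₁, T₁, hC₁, hT₁, -, hL⟩ := hL1 T0 fun ρ h1 h2 => (hRH ρ h1 h2).1
  obtain ⟨C₂, T₂, hC₂, hT₂, hC⟩ := hC1 T0 a b m hRH ha hSep hm hb1
  have hne := ne_zero hT₁ fun s h1 h2 h3 => (hL s h1 h2 h3).1
  have hq : m - 1 + 1 = m := by omega
  have hlog : ∀ x : ℝ, 100 ≤ x → 1 ≤ Real.log x := by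
    intro x hx
    rw [Real.le_log_iff_exp_le (by linarith)]
    have : Real.exp 1 < 2.7182818286 := Real.exp_one_lt_d9
    linarith
  have hU := hU1 hT1 hT2 hT3 hM1
  refine ⟨?_, ?_⟩
  · refine hU (fun n => ArithmeticFunction.vonMangoldt n) κ (m - 1) GG b
      (max (3 * C₁) (C₁ * (2 ^ b / b))) T₁ DS_vM hκ hb2 (by linarith)
      (fun s hs => ArithmeticFunction.LSeries_vonMangoldt_eq_deriv_riemannZeta_div hs)
      (fun s _ => mero_GG s) (fun s h1 h2 => an_GG (hne s h1 h2).1 (hne s h1 h2).2) conj_GG ?_ ?_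
    · intro s h1 h2 h3
      obtain ⟨-, h4, -⟩ := hL s h1 h2 h3
      refine h4.trans ?_
      have hl := hlog s.im (hT₁.trans h3)
      have hx : 0 < s.re - 1 / 2 := by linarith
      set x := s.re - 1 / 2 with hxd
      set ℓ := Real.log s.im with hℓ
      have hx2 : x ≤ 3 / 2 := by rw [hxd]; linarith
      have h5 : 3 * C₁ * ℓ ^ 2 / x ^ 2 ≤ max (3 * C₁) (C₁ * (2 ^ b / b)) * ℓ ^ 2 / x ^ 2 := by
        gcongr
        exact le_max_left _ _
      have h6 : C₁ * ℓ / x ≤ 3 * C₁ * ℓ ^ 2 / x ^ 2 := by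
        rw [div_le_div_iff₀ hx (by positivity)]
        have h7 : C₁ * ℓ * x * x ≤ C₁ * ℓ * x * (3 * ℓ) := by
          refine mul_le_mul_of_nonneg_left ?_ (by positivity)
          linarith
        nlinarith
      have h8 : 1 ≤ 3 * C₁ * ℓ ^ 2 / x ^ 2 := by
        rw [le_div_iff₀ (by positivity)]
        have h9 : x ^ 2 ≤ (3 / 2) ^ 2 := pow_le_pow_left₀ hx.le hx2 2
        have h10 : 1 ≤ ℓ ^ 2 := one_le_pow₀ hl
        nlinarith
      exact (h6.trans h5).trans (le_self_pow₀ (h8.trans h5) (by omega))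
    · intro t δ ht hδ hδ1
      have h1 : ∀ u ∈ Set.uIoc t (t + 1), ‖‖GG (pt (1 / 2 + δ) u)‖‖ ≤
          C₁ * Real.log (t + 1) / δ := by
        intro u hu
        rw [Set.uIoc_of_le (by linarith)] at hu
        rw [norm_norm]
        obtain ⟨-, h4, -⟩ := hL (pt (1 / 2 + δ) u) (by rw [pt_re]; linarith)
          (by rw [pt_re]; linarith) (by rw [pt_im]; linarith [hu.1])
        rw [pt_re, pt_im, add_sub_cancel_left] at h4
        refine h4.trans ?_
        have h5 : Real.log u ≤ Real.log (t + 1) :=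
          Real.log_le_log (by linarith [hu.1]) hu.2
        gcongr
      have h2 := intervalIntegral.norm_integral_le_of_norm_le_const h1
      rw [add_sub_cancel_left, abs_one, mul_one] at h2
      refine (le_abs_self _).trans (h2.trans ?_)
      have h3 := log_le hb0 (show 1 ≤ t by linarith)
      have h4 : 1 ≤ 1 / δ := by rw [le_div_iff₀ hδ]; linarith
      have h5 : 1 / δ ≤ (1 / δ) ^ (m - 1) := le_self_pow₀ h4 (by omega)
      have ht0 : 0 < t := by linarith
      calc C₁ * Real.log (t + 1) / δ ≤ C₁ * (2 ^ b / b * t ^ b) / δ := by gcongr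
        _ = C₁ * (2 ^ b / b) * t ^ b * (1 / δ) := by ring
        _ ≤ max (3 * C₁) (C₁ * (2 ^ b / b)) * t ^ b * (1 / δ) ^ (m - 1) := by
            gcongr
            exact le_max_right _ _
  · obtain ⟨hDS, hLS⟩ := hR2 m
    refine hU (fun n => (sel ^ m) n) κ (m - 1) (fun s => FF s ^ m) b (max C₁ C₂) (max T₁ T₂) hDS
      hκ hb2 (le_max_of_le_left (by linarith)) hLS
      (fun s _ => (mero_FF s).pow m) (fun s h1 h2 => ?_) (fun s => by
        simp only [norm_pow]
        rw [conj_FF]) ?_ ?_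
    · have h3 := hne s h1 (h2.imp id fun h => (le_max_left _ _).trans h)
      exact (an_FF h3.1 h3.2).pow m
    · intro s h1 h2 h3
      obtain ⟨-, -, h4⟩ := hL s h1 h2 ((le_max_left _ _).trans h3)
      simp only [norm_pow]
      rw [hq]
      refine pow_le_pow_left₀ (norm_nonneg _) (h4.trans ?_) m
      gcongr
      exact le_max_left _ _
    · intro t δ ht hδ hδ1
      refine (hC t δ ((le_max_right _ _).trans ht) hδ hδ1).trans ?_
      have ht0 : 0 < t := by
        have := (le_max_right _ _).trans ht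
        linarith
      gcongr
      exact le_max_right _ _

end Pool.Agent.APX
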