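import Pool.Agent.Lib.APX.Main
import Pool.Agent.Lib.APX.C1
import Pool.Agent.Lib.APX.D1
import Pool.Agent.Lib.APX.D2
import Pool.Agent.Lib.APX.D3
import Pool.Agent.Lib.APX.D4
import Pool.Agent.Lib.APX.D5
import Pool.Agent.Lib.APX.L1
import Pool.Agent.Lib.APX.M1
import Pool.Agent.Lib.APX.R2
import Pool.Agent.Lib.APX.T1
import Pool.Agent.Lib.APX.T2
import Pool.Agent.Lib.APX.T3
import Pool.Agent.Lib.APX.U1
import Pool.Agent.Lib.APX.U2

/-!
# MP_af3d17_nt, clause (1): the theorem.  (helper28)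
-/

set_option autoImplicit false

namespace Pool.Agent.APX

theorem u2' : U2' := u2 t1 t2 t3 m1 u1 r2 l1 c1

theorem d1' : D1' := d1 t1 t2

theorem d2' : D2' := d2 d1'

theorem d5' : D5' := d5 d2' (d3 d1' d2' r2) d4

/-- **Clause (1).** -/
theorem apx_main : Main_stmt := main_of u2' d5'

end Pool.Agent.APX
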