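import Pool.Agent.Lib.APX.E1
import Pool.Agent.Lib.APX.E2

/-!
# MP_af3d17_nt, clause (1): assembly.  (helper28)
-/

set_option autoImplicit false

namespace Pool.Agent.APX

open Filter Topology Pool.Agent.ZP

/-- The statement of clause (1). -/
def Main_stmt : Prop := ∀ γ : ℕ → ℝ, IsOrdinateSeq γ →
  (∀ m : ℕ, 2 ≤ m → kappa m ≤ -(m * alpha γ) ∧ -(m * alpha γ) ≤ kappa m + 1) ∧
  Tendsto (fun m : ℕ => kappa m / m) atTop (𝓝 (-alpha γ)) ∧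
  (∀ (m : ℕ) (κ : ℝ), 1 ≤ m → 0 < κ → Good m κ → ∃ c : ℝ, 0 < c ∧
    ∀ᶠ n : ℕ in atTop, c * γ n ^ (-((κ + 1) / m)) ≤ γ (n + 1) - γ n) ∧
  (∀ (m : ℕ) (a κ : ℝ), 2 ≤ m → 0 < a → m * a < κ →
    (∀ᶠ n : ℕ in atTop, γ n ^ (-a) ≤ γ (n + 1) - γ n) → Good m κ)

theorem main_of (hU : U2') (hD : D5') : Main_stmt := by
  intro γ hγ
  obtain ⟨h1, h2⟩ := e2 hU hD e1 γ hγ
  obtain ⟨f1, f2, -⟩ := e1 γ hγ
  refine ⟨h1, h2, fun m κ hm hκ hG => ?_, fun m a κ hm ha hκ hgap => ?_⟩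
  · obtain ⟨T0, c, hc, hRH, hsep⟩ := hD m κ hm hκ hG
    refine ⟨c, hc, (f1 T0 ((κ + 1) / m) c hc (by positivity) hRH hsep).2⟩
  · obtain ⟨T0, hRH, hsep⟩ := f2 a ha hgap
    exact hU T0 a κ m hRH ha hsep hm hκ

end Pool.Agent.APX
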