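import Pool.Agent.Lib.APX.Defs

/-!
# MP_af3d17_nt: APX, quadrants  (helper32)
-/

set_option autoImplicit false

namespace Pool.Agent.APX

open Filter Topology Asymptotics MeasureTheory Set Pool.Agent.ZP

lemma quad_open (a T : ℝ) : IsOpen {s : ℂ | a < s.re ∧ T < s.im} :=
  (isOpen_lt continuous_const Complex.continuous_re).inter
    (isOpen_lt continuous_const Complex.continuous_im)

lemma quad_convex (a T : ℝ) : Convex ℝ {s : ℂ | a < s.re ∧ T < s.im} :=
  (convex_halfSpace_re_gt a).inter (convex_halfSpace_im_gt T)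

/-- the identity theorem in a quadrant -/
lemma quad_ident {a R T : ℝ} {f g : ℂ → ℂ}
    (hf : DifferentiableOn ℂ f {s : ℂ | a < s.re ∧ T < s.im})
    (hg : DifferentiableOn ℂ g {s : ℂ | a < s.re ∧ T < s.im})
    (h : ∀ s : ℂ, a < s.re → R < s.re → T < s.im → f s = g s) :
    ∀ s : ℂ, a < s.re → T < s.im → f s = g s := by
  intro s hs hs'
  set z0 : ℂ := ⟨max a R + 1, T + 1⟩ with hz0
  have hz0re : z0.re = max a R + 1 := rfl
  have hz0im : z0.im = T + 1 := rfl
  have ha : a < z0.re := by rw [hz0re]; linarith [le_max_left a R]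
  have hR : R < z0.re := by rw [hz0re]; linarith [le_max_right a R]
  have hT : T < z0.im := by rw [hz0im]; linarith
  have hev : f =ᶠ[𝓝 z0] g := by
    have hopen : {s : ℂ | a < s.re ∧ T < s.im} ∩ {s : ℂ | R < s.re} ∈ 𝓝 z0 :=
      ((quad_open a T).inter (isOpen_lt continuous_const Complex.continuous_re)).mem_nhds
        ⟨⟨ha, hT⟩, hR⟩
    filter_upwards [hopen] with w hw
    exact h w hw.1.1 hw.2 hw.1.2
  exact (hf.analyticOnNhd (quad_open a T)).eqOn_of_preconnected_of_eventuallyEq
    (hg.analyticOnNhd (quad_open a T)) (quad_convex a T).isPreconnected ⟨ha, hT⟩ hev ⟨hs, hs'⟩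

lemma quad_slit {s : ℂ} (h : 0 < s.im) : s ∈ Complex.slitPlane := Or.inr h.ne'

/-- the power `s^(-κ-1)` on the upper half plane -/
lemma quad_cpow_diff (w : ℂ) {s : ℂ} (h : 0 < s.im) : DifferentiableAt ℂ (fun s : ℂ => s ^ w) s := by
  have := (hasDerivAt_id s).cpow_const (c := w) (quad_slit h)
  exact this.differentiableAt

lemma quad_ne {s : ℂ} (h : 0 < s.im) : s ≠ 0 := by
  rintro rfl
  simp at h

lemma quad_zeta_diff {s : ℂ} (h : 0 < s.im) : AnalyticAt ℂ riemannZeta s := by
  have h1 : s ≠ 1 := by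
    rintro rfl
    simp at h
  have h2 : DifferentiableOn ℂ riemannZeta {1}ᶜ := fun s hs =>
    (differentiableAt_riemannZeta hs).differentiableWithinAt
  exact h2.analyticAt (isOpen_compl_singleton.mem_nhds h1)

end Pool.Agent.APX
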